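import Pool.Agent.Q60.FI.LDefs0
import Pool.Agent.Q60.MT.DefsA

/-!
# The centre condition and tensors of the cohomology of one degree: definitions
-/

open CategoryTheory AlgebraicGeometry

universe u v

namespace Pool.Agent.Q60.MV

open Pool.Agent.Y121.AHS
open Pool.Agent.Q60.FI (IsRealDec IsPolForm)

section Alg

variable {K A C : Type} [Field K] [Ring A] [Algebra K A] [Ring C] [Algebra K C]

/-- The class `c` is a linear combination of elements of `S`, and the operator `x ↦ s (c · p x)`
maps `V` to itself. -/
def Acts (p : A →ₐ[K] C) (s : C →ₗ[K] A) (V : Submodule K A) (S : Set C) (c : C) : Prop :=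
  FI.InSpan K S c ∧ ∀ x ∈ V, s (c * p x) ∈ V

/-- Let `p` and `s` be the pull-back and the push-forward for the projections of a product `X × X`.
Consider the operators `c : x ↦ s (c · p x)` given by the linear combinations `c` of elements of `S`
which map `V` to itself. If one of them commutes on `V` with all of them and is skew for the form
`tr (φ x · y)` on `V`, then it is zero on `V`. -/
def NoSkewCentreOn (p : A →ₐ[K] C) (s : C →ₗ[K] A) (tr : A →ₗ[K] K) (φ : A →ₗ[K] A)
    (V : Submodule K A) (S : Set C) : Prop :=
  ∀ c, Acts p s V S c →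
    (∀ d, Acts p s V S d → ∀ x ∈ V, s (c * p (s (d * p x))) = s (d * p (s (c * p x)))) →
    (∀ x ∈ V, ∀ y ∈ V, tr (φ (s (c * p x)) * y) = - tr (φ x * s (c * p y))) →
    ∀ x ∈ V, s (c * p x) = 0

/-- The Hodge structure with the decomposition `pq` has a polarisation `tr (φ x · y)` such that the
condition `NoSkewCentreOn` is satisfied. -/
def PolarisedNoSkew [Algebra K ℂ] (d : ℕ) (tr : A →ₗ[K] K)
    (pq : ℤ → ℤ → Submodule ℂ (Ext K ℂ A)) (p : A →ₐ[K] C) (s : C →ₗ[K] A) (V : Submodule K A)
    (S : Set C) : Prop :=
  IsRealDec d pq ∧ ∃ φ : A →ₗ[K] A, IsPolForm tr φ pq ∧ NoSkewCentreOn p s tr φ V S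

end Alg

section Alg2

variable {K A B C : Type*} [Field K] [Ring A] [Algebra K A] [Ring B] [Algebra K B] [Ring C]
  [Algebra K C]

/-- The products of `p a` and `q b` for `a` in `U` and `b` in `V`. -/
def extProds (p : A →ₐ[K] C) (q : B →ₐ[K] C) (U : Set A) (V : Set B) : Set C :=
  {c | ∃ a ∈ U, ∃ b ∈ V, c = p a * q b}

end Alg2

section Alg3

variable {K L A B : Type*} [Field K] [Field L] [Ring A] [Ring B] [Algebra K A] [Algebra L B]

variable (K L)

/-- The elements with the property `P` of the subspace spanned by `U` are mapped to elements with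
the property `Q`. -/
def MapsIn (f : A →+* B) (U : Set A) (P : A → Prop) (Q : B → Prop) : Prop :=
  ∀ x ∈ Submodule.span K U, P x → Q (f x)

/-- The elements with the property `Q` of the subspace spanned by `V` are the linear combinations of
the images of the elements with the property `P` of the subspace spanned by `U`. -/
def SpannedIn (f : A →+* B) (U : Set A) (V : Set B) (P : A → Prop) (Q : B → Prop) : Prop :=
  ∀ c ∈ Submodule.span L V, Q c ↔ MT.InSpan L f (fun x => x ∈ Submodule.span K U ∧ P x) c

end Alg3

end Pool.Agent.Q60.MV
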