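import Pool.Agent.Q60.MT.Defs
import Pool.Agent.Q60.MV.Defs0

/-!
# The Mumford-Tate conjecture for the tensors of the cohomology of one degree: definitions
-/

open CategoryTheory AlgebraicGeometry

universe u v w

namespace Pool.Agent.Q60.MV

open Pool.Agent.H914 Pool.Agent.H914.VarClass Pool.Agent.H914.VarClass.Obj
  Pool.Agent.H914.WeilCohomology
open Pool.Agent.Y121.AHS Pool.Agent.Q55
open Pool.Agent.Y133.Half (pw)
open Pool.Agent.Q60.MT (Artin)
open Pool.Agent.Q60.TD (power)
open Pool.Agent.Q60.FI (hodgeSet)

variable {k : Type u} [Field k] {𝒱 : VarClass k} {ops : CycleOps 𝒱}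

/-- The classes of degree `i` on `X`. -/
def degreeSet (W : WeilCohomology.{u, v} ops) (X : 𝒱.Obj) (i : ℕ) : Set (W.H X) :=
  {x | x ∈ W.gr X i}

/-- The decomposable tensors in `H^i(X) ⊗ ... ⊗ H^i(X)` with `m + 1` factors: the external products
of `m + 1` classes of degree `i`, in the cohomology of the product of `m + 1` copies of `X`. (For
`m + 1` in place of `m` these are the products of the pull-backs of such an external product for `m`
and of a class of degree `i` on the last factor.) -/
def extPowers (W : WeilCohomology.{u, v} ops) (X : 𝒱.Obj) (i m : ℕ) : Set (W.H (pw X m)) :=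
  Nat.rec (motive := fun m => Set (W.H (pw X m))) (degreeSet W X i)
    (fun m U => extProds (W.map (fst (pw X m) X)) (W.map (snd (pw X m) X)) U (degreeSet W X i)) m

/-- The decomposable tensors in `H^i(X) ⊗ ... ⊗ H^i(X)` with `n` factors, in the cohomology of
`X ^ n`. -/
def tensors (W : WeilCohomology.{u, v} ops) (X : 𝒱.Obj) (i n : ℕ) : Set (W.H (power X n)) :=
  extPowers W X i (n - 1)

variable {T : HodgeTheory ops} {W' : WeilCohomology.{u, 0} ops} {Γ : Type w} [Group Γ]

/-- The Hodge classes in the tensor power `H^i(X) ⊗ ... ⊗ H^i(X)` with `n` factors are Tate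
classes. -/
def HodgeTateIn (C : Artin T.W W') (G : GaloisAction W' Γ) (X : 𝒱.Obj) (i n : ℕ) : Prop :=
  ∀ j, MapsIn T.W.K (C.f (power X n)) (tensors T.W X i n) (IsHodge T (power X n) j)
    (IsTate G (power X n) j)

/-- The Tate classes in the tensor power `H^i(X) ⊗ ... ⊗ H^i(X)` with `n` factors are the linear
combinations of the images of the Hodge classes in this tensor power. -/
def MumfordTateIn (C : Artin T.W W') (G : GaloisAction W' Γ) (X : 𝒱.Obj) (i n : ℕ) : Prop :=
  ∀ j, SpannedIn T.W.K W'.K (C.f (power X n)) (tensors T.W X i n) (tensors W' X i n)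
    (IsHodge T (power X n) j) (IsTate G (power X n) j)

/-- The cohomology of `X` is a polarisable Hodge structure, and for a suitable polarisation the
centre of the algebra of the endomorphisms of `H^i(X)` given by Hodge classes on `X × X` has no
nonzero skew elements. (So the centre of the algebra of the endomorphisms of the Hodge structure
`H^i(X)` is a product of totally real fields.) -/
def TotallyRealCentreIn (T : HodgeTheory ops) (X : 𝒱.Obj) (i : ℕ) : Prop :=
  PolarisedNoSkew X.dim (T.W.tr X) (T.pq X) (T.W.map (fst X X)) (T.W.push (snd X X)) (T.W.gr X i)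
    (hodgeSet T (X.prod X))

end Pool.Agent.Q60.MV
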