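import Pool.Agent.Q60.MV.Deg
import Pool.Agent.Q60.MV.Defs
import Pool.Agent.Q60.AB.Fin
import Pool.Agent.Q60.MT.Final

/-!
# The Mumford-Tate conjecture for the tensors of the cohomology of one degree: the final form
-/

open CategoryTheory AlgebraicGeometry TensorProduct

set_option linter.unusedSectionVars false

universe u v w

namespace Pool.Agent.Q60.MV

open Module
open Pool.Agent.H914 Pool.Agent.H914.VarClass Pool.Agent.H914.VarClass.Obj
  Pool.Agent.H914.WeilCohomology
open Pool.Agent.Y133.Half Pool.Agent.Y121 Pool.Agent.Q60.ED Pool.Agent.Q60.TD Pool.Agent.Q55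
open Pool.Agent.Q60.MT (Artin InSpan tA)
open Pool.Agent.Q60.AB (tens NoSkewDeg tens_gr)
open Pool.Agent.Q60.FI (hodgeSet)

variable {k : Type u} [Field k] {𝒱 : VarClass k} {ops : CycleOps 𝒱} {T : AHS.HodgeTheory ops}
  {W' : WeilCohomology.{u, 0} ops} {C : Artin T.W W'} {X Y Z : 𝒱.Obj} {Γ : Type w} [Group Γ]
  {G : GaloisAction W' Γ}

lemma span_tset (W : WeilCohomology.{u, v} ops) (X : 𝒱.Obj) (i m : ℕ) :
    Submodule.span W.K (extPowers W X i m) = tens X W i m := by
  induction m with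
  | zero => exact Submodule.span_eq _
  | succ m ih =>
    rw [tens, ← ih]
    apply le_antisymm
    · rw [Submodule.span_le]
      rintro _ ⟨a, ha, b, hb, rfl⟩
      exact Submodule.subset_span ⟨a, Submodule.subset_span ha, b, hb, rfl⟩
    · rw [AB.extSpan, Submodule.span_le]
      rintro _ ⟨a, ha, b, hb, rfl⟩
      change W.map (fst (pw X m) X) a * W.map (snd (pw X m) X) b ∈
        Submodule.span W.K (extPowers W X i (m + 1))
      induction ha using Submodule.span_induction with
      | mem a ha => exact Submodule.subset_span ⟨a, ha, b, hb, rfl⟩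
      | zero =>
        rw [map_zero, zero_mul]
        exact Submodule.zero_mem (Submodule.span W.K (extPowers W X i (m + 1)))
      | add x y _ _ hx hy =>
        rw [map_add, add_mul]
        exact Submodule.add_mem (Submodule.span W.K (extPowers W X i (m + 1))) hx hy
      | smul c x _ hx =>
        rw [map_smul, smul_mul_assoc]
        exact Submodule.smul_mem (Submodule.span W.K (extPowers W X i (m + 1))) _ hx

lemma noSkewDeg {i : ℕ} {φ : Module.End T.W.K (T.W.H X)}
    (h : NoSkewCentreOn (T.W.map (fst X X)) (T.W.push (snd X X)) (T.W.tr X) φ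
        (T.W.gr X i) (hodgeSet T (X.prod X))) : NoSkewDeg (tA T) X i φ := by
  intro F hF hF1 hcom hsk
  obtain ⟨c, hc, rfl⟩ := (Sys.mem_Op (S := AH.hodgeSys (tA T))).1 hF
  refine h c ⟨hc, hF1⟩ (fun d hd x hx => ?_) (fun x hx y hy => ?_)
  · exact hcom (T.W.corr d) ((Sys.mem_Op (S := AH.hodgeSys (tA T))).2 ⟨d, hd.1, rfl⟩) hd.2 x hx
  · exact hsk x hx y hy

lemma hodgeTateIn_iff {i m : ℕ} :
    HodgeTateIn C G X i (m + 1) ↔ HIn (T := tA T) C G X i m := by
  constructor
  · intro h x hx j hj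
    refine h j x ?_ hj
    change x ∈ Submodule.span T.W.K (extPowers T.W X i m)
    rw [span_tset]
    exact hx
  · intro h j x hx hj
    refine h x ?_ j hj
    change x ∈ Submodule.span T.W.K (extPowers T.W X i m) at hx
    rw [span_tset] at hx
    exact hx

lemma mumfordTateIn_iff {i m : ℕ} : MumfordTateIn C G X i (m + 1) ↔
    TIn (T := tA T) C G X i m ∧ HIn (T := tA T) C G X i m := by
  have key : MumfordTateIn C G X i (m + 1) ↔ ∀ c ∈ tens X W' i m, ∀ j, IsTate G (pw X m) j c ↔
      c ∈ Submodule.span W'.K (C.f (pw X m) '' {x | x ∈ tens X T.W i m ∧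
        AHS.IsHodge T (pw X m) j x}) := by
    rw [← span_tset, ← span_tset]
    exact ⟨fun h c hc j => h j c hc, fun h j c hc => h c hc j⟩
  rw [key]
  constructor
  · intro h
    refine ⟨fun c hc j hj => (h c hc j).1 hj, fun x hx j hj => ?_⟩
    obtain ⟨e, dg, he⟩ := Pool.Agent.Q60.AB.exists_dbasis T.W X
    obtain ⟨e', hee⟩ := Pool.Agent.Q60.MT.exists_eX C T.rat e
    have he' : ∀ j, e' j ∈ W'.gr X (dg j) := Pool.Agent.Q60.MT.he_gr (T := tA T) e e' hee he
    refine (h _ ?_ j).2 (Submodule.subset_span ⟨x, ⟨hx, hj⟩, rfl⟩)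
    obtain ⟨t, rfl⟩ := (tens_iff (T := tA T) e he i).1 hx
    refine (tens_iff' e' he' i).2 ⟨_, cl_bc (T := tA T) e e' hee i _ t⟩
  · rintro ⟨h1, h2⟩ c hc j
    refine ⟨h1 c hc j, fun h => ?_⟩
    clear hc
    change c ∈ Submodule.span W'.K _ at h
    induction h using Submodule.span_induction with
    | mem x hx =>
      obtain ⟨y, hy, rfl⟩ := hx
      exact h2 y hy.1 j hy.2
    | zero => exact (tatePred G).zero
    | add x y _ _ hx hy => exact (tatePred G).add hx hy
    | smul c x _ hx => exact (tatePred G).smul c hx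

/-- **Hodge classes which are Tate classes in degree four.** -/
theorem hodge_four {i : ℕ} (hX : TotallyRealCentreIn T X i) (h4 : HodgeTateIn C G X i 4)
    (n : ℕ) : HodgeTateIn C G X i n := by
  obtain ⟨hR, φ, hφ, hns⟩ := hX
  have hR' : HD.RealH (tA T) X := ⟨fun p q x hx hx0 => hR.1 p q x hx hx0,
    fun p q x y h' hx => hR.2 p q x y hx h'⟩
  have hφ' : HD.IsPol (tA T) X φ := ⟨fun p q r s x hx y hy hne => hφ.1 p q r s x y hx hy hne,
    fun p q x y hx hxy hx0 => hφ.2 p q x y hx hxy hx0⟩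
  exact hodgeTateIn_iff.2 (hin_all hR' hφ' i (noSkewDeg hns) (hodgeTateIn_iff.1 h4) (n - 1))

/-- **The Mumford-Tate conjecture in degree four.** -/
theorem mumfordTate_four {i : ℕ} (hX : TotallyRealCentreIn T X i)
    (hSS : SemisimpleAt G (X.prod X) (2 * i)) (h4 : MumfordTateIn C G X i 4)
    (n : ℕ) : MumfordTateIn C G X i n := by
  obtain ⟨hR, φ, hφ, hns⟩ := hX
  have hR' : HD.RealH (tA T) X := ⟨fun p q x hx hx0 => hR.1 p q x hx hx0,
    fun p q x y h' hx => hR.2 p q x y hx h'⟩
  have hφ' : HD.IsPol (tA T) X φ := ⟨fun p q r s x hx y hy hne => hφ.1 p q r s x y hx hy hne,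
    fun p q x y hx hxy hx0 => hφ.2 p q x y hx hxy hx0⟩
  obtain ⟨h1, h2⟩ := mumfordTateIn_iff.1 h4
  have key := mumfordTateIn_iff.2 (mt_all hR' hφ' i (noSkewDeg hns) hSS h2 h1 (n - 1))
  exact key

end Pool.Agent.Q60.MV
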