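import Pool.Agent.Q60.MV.Defs

/-!
# Cohomology generated in degree one, and Tate classes in tensors: definitions
-/

open CategoryTheory AlgebraicGeometry

universe u v w

namespace Pool.Agent.Q60.MV

open Pool.Agent.H914 Pool.Agent.H914.VarClass Pool.Agent.H914.VarClass.Obj
  Pool.Agent.H914.WeilCohomology
open Pool.Agent.Y121.AHS Pool.Agent.Q55
open Pool.Agent.Y133.Half (pw)
open Pool.Agent.Q60.MT (Artin)

section Alg

variable {K L A B : Type*} [Field K] [Field L] [Ring A] [Ring B] [Algebra K A] [Algebra L B]

/-- Every element of the algebra is a (noncommutative) polynomial in elements of `V`. -/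
def GenBy (V : Submodule K A) : Prop := ∀ c : A, c ∈ Algebra.adjoin K {x | x ∈ V}

variable (L)

/-- The elements with the property `Q` of the subspace spanned by `V` are linear combinations of the
images of elements with the property `P`. -/
def InSpanOf (f : A →+* B) (V : Set B) (P : A → Prop) (Q : B → Prop) : Prop :=
  ∀ c ∈ Submodule.span L V, Q c → MT.InSpan L f P c

end Alg

variable {k : Type u} [Field k] {𝒱 : VarClass k} {ops : CycleOps 𝒱}

/-- The product of `n` copies of `X`, for `n ≥ 1`. -/
noncomputable def pow (X : 𝒱.Obj) (n : ℕ) : 𝒱.Obj := pw X (n - 1)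

/-- The cohomology ring of `X` is generated by the classes of degree one, as for abelian
varieties. -/
def GeneratedInDegreeOne (W : WeilCohomology.{u, v} ops) (X : 𝒱.Obj) : Prop := GenBy (W.gr X 1)

variable {T : HodgeTheory ops} {W' : WeilCohomology.{u, 0} ops} {Γ : Type w} [Group Γ]

/-- The Hodge classes on `Y` are Tate classes. -/
def HodgeAreTate (C : Artin T.W W') (G : GaloisAction W' Γ) (Y : 𝒱.Obj) : Prop :=
  ∀ j x, IsHodge T Y j x → IsTate G Y j (C.f Y x)

/-- The Tate classes in the tensor power `H^i(X) ⊗ ... ⊗ H^i(X)` with `n` factors are linear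
combinations of the images of Hodge classes on `X ^ n`. -/
def TateInSpan (C : Artin T.W W') (G : GaloisAction W' Γ) (X : 𝒱.Obj) (i n : ℕ) : Prop :=
  ∀ j, InSpanOf W'.K (C.f (pow X n)) (extPowers W' X i (n - 1)) (IsHodge T (pow X n) j)
    (IsTate G (pow X n) j)

end Pool.Agent.Q60.MV
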