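import Pool.Agent.Q60.MV.TDefs
import Pool.Agent.Q60.MV.DefsA

/-!
# The Tate conjecture for the tensors of the cohomology of one degree: definitions
-/

open CategoryTheory AlgebraicGeometry

universe u v w

namespace Pool.Agent.Q60.MV

open Pool.Agent.H914 Pool.Agent.H914.VarClass Pool.Agent.H914.VarClass.Obj
  Pool.Agent.H914.WeilCohomology Pool.Agent.Q55

variable {k : Type u} [Field k] {𝒱 : VarClass k} {ops : CycleOps 𝒱}
  {W : WeilCohomology.{u, 0} ops} {Γ : Type w} [Group Γ]

/-- The Tate conjecture for the tensor power `H^i(X) ⊗ ... ⊗ H^i(X)` with `n` factors, a summand of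
`H^(n i)(X ^ n)`: the Tate classes in this summand are linear combinations of the classes of
algebraic cycles on `X ^ n`. -/
def TateConjIn (G : GaloisAction W Γ) (X : 𝒱.Obj) (i n : ℕ) : Prop :=
  ∀ j, ∀ c ∈ Submodule.span W.K (extPowers W X i (n - 1)), IsTate G (pow X n) j c →
    c ∈ spanCycles W (pow X n) j

end Pool.Agent.Q60.MV
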