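import Pool.Agent.Q60.MV.TCen
import Pool.Agent.Q60.MV.TDefsA
import Pool.Agent.Q60.MV.Final
import Pool.Agent.Q60.AB.Fin

/-!
# The Tate conjecture for the powers of varieties whose cohomology is generated in degree one
-/

open CategoryTheory AlgebraicGeometry TensorProduct

set_option linter.unusedSectionVars false

universe u v w

namespace Pool.Agent.Q60.MV

open Module Matrix
open Pool.Agent.H914 Pool.Agent.H914.VarClass Pool.Agent.H914.VarClass.Obj
  Pool.Agent.H914.WeilCohomology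
open Pool.Agent.Y133.Half Pool.Agent.Y121.AH Pool.Agent.Q60.ED Pool.Agent.Q60.TD Pool.Agent.Q55
open Pool.Agent.Q60.TP Pool.Agent.Q60.NP
open Pool.Agent.Q60.FI (tv tv_inj aop_vec)
open Pool.Agent.Q60.AB (Blk sm x0 x0_val x0_of x0_inj sum_word sum_sub gs gs_mem wdF span_gs tens
  tens_eq tens_gr)

section alg

variable {K : Type} [Field K] {κ : Type} [Fintype κ] [DecidableEq κ] {Q : Matrix κ κ K}

lemma tpow_vec (A M : Matrix κ κ K) : tpow A 2 (NP.vec M) = NP.vec (A * M * Aᵀ) := by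
  funext I
  rw [tpow_apply, NP.vec, Matrix.mul_apply]
  rw [← (finTwoArrowEquiv κ).symm.sum_comp, Fintype.sum_prod_type_right]
  refine Finset.sum_congr rfl fun b _ => ?_
  rw [Matrix.mul_apply, Finset.sum_mul]
  refine Finset.sum_congr rfl fun a _ => ?_
  rw [Fin.prod_univ_two]
  simp [NP.vec, finTwoArrowEquiv]
  ring

lemma vec_dot (M N : Matrix κ κ K) : NP.vec M ⬝ᵥ NP.vec N = Matrix.trace (Mᵀ * N) := by
  rw [dotProduct, ← (finTwoArrowEquiv κ).symm.sum_comp, Fintype.sum_prod_type_right,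
    Matrix.trace]
  refine Finset.sum_congr rfl fun b _ => ?_
  rw [Matrix.diag_apply, Matrix.mul_apply]
  refine Finset.sum_congr rfl fun a _ => ?_
  simp [NP.vec, finTwoArrowEquiv]

lemma bf_om (hQ : Q.det ≠ 0) :
    bf (TP Q 2) (NP.vec Q⁻¹) (NP.vec Q⁻¹) = (Fintype.card κ : K) := by
  have hu := isUnit_iff_ne_zero.2 hQ
  rw [bf_eq, ← tpow_eq, tpow_vec, Matrix.mul_nonsing_inv _ hu, Matrix.one_mul, vec_dot,
    ← Matrix.transpose_mul, Matrix.mul_nonsing_inv _ hu, Matrix.transpose_one, Matrix.trace_one]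

/-- Contraction with the tensor of the form. -/
lemma down (C : CSys Q) (hQ : Q.det ≠ 0) (hb : (Fintype.card κ : K) ≠ 0) {n : ℕ}
    {t : (Fin n → κ) → K} (h : ED.tmul (NP.vec Q⁻¹) t ∈ C.S (2 + n)) : t ∈ C.S n := by
  have h1 := C.contr C.om h
  have h2 : (fun J => ∑ I, ∑ I', (fun w : Fin 2 → κ => Q⁻¹ (w 0) (w 1)) I * TP Q 2 I I' *
      ED.tmul (NP.vec Q⁻¹) t (Fin.append I' J)) = (Fintype.card κ : K) • t := by
    funext J
    rw [Pi.smul_apply, smul_eq_mul, ← bf_om hQ, bf, Finset.sum_mul]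
    refine Finset.sum_congr rfl fun I _ => ?_
    rw [Finset.sum_mul]
    refine Finset.sum_congr rfl fun I' _ => ?_
    simp only [ED.tmul, Fin.append_left, Fin.append_right, NP.vec]
    ring
  rw [h2] at h1
  have h3 := Submodule.smul_mem _ (Fintype.card κ : K)⁻¹ h1
  rwa [smul_smul, inv_mul_cancel₀ hb, one_smul] at h3

end alg

variable {k : Type u} [Field k] {𝒱 : VarClass k} {ops : CycleOps 𝒱}
  {W : WeilCohomology.{u, 0} ops} {X Y Z : 𝒱.Obj} {ι : Type} [Fintype ι] [DecidableEq ι]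
  (e : Basis ι W.K (W.H X)) {dg : ι → ℕ} (he : ∀ j, e j ∈ W.gr X (dg j)) {Γ : Type w} [Group Γ]
  {G : GaloisAction W Γ} (i : ℕ) {l : W.H X} (hl : l ∈ W.gr X (2 * (X.dim - i)))
  (hi : i ≤ X.dim)

lemma crK_mono {κ : Type} [Fintype κ] [DecidableEq κ] (g : κ → W.H X) {S T : Sys W}
    (h : ∀ Z, S.C Z ≤ T.C Z) (n : ℕ) : crK g S n ≤ crK g T n := fun _ ht Z f => h Z (ht Z f)

/-- The system of the tensors of algebraic classes. -/
noncomputable def csd (hla : l ∈ (algSys W).C X)
    (hom : NP.vec (Ql e i l dg)⁻¹ ∈ crK (gs e dg i) (algSys W) 2) : CSys (Ql e i l dg) where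
  S := crK (gs e dg i) (algSys W)
  one := mem_crK_zero _ _
  mul hs ht := crK_mul hs ht
  perm σ _ ht := crK_perm (gs_PHW e he i) σ ht
  contr hs ht := crK_contr (gs_PHW e he i) (Pool.Agent.Q60.AB.op_mul hla) (fun _ _ => rfl) hs ht
  om := hom

lemma alg_le_TKd (n : ℕ) : crK (gs e dg i) (algSys W) n ≤ TK (Rd G e he i) n := by
  rw [TKd_eq]
  exact crK_mono _ (fun Z => ClassPred.alg_le (Q := tatePred G)) n

/-- The Tate conjecture for tensors. -/
lemma TKd_le {m : ℕ} (h : ∀ j, ∀ c ∈ tens X W i m, IsTate G (pw X m) j c →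
    c ∈ spanCycles W (pw X m) j) :
    TK (Rd G e he i) (m + 1) ≤ crK (gs e dg i) (algSys W) (m + 1) := by
  intro t ht
  by_cases hev : Even ((m + 1) * i)
  · obtain ⟨j, hj⟩ := hev
    rw [mem_TK_deg] at ht
    rw [mem_crK_succ, ← cl_eq]
    have hc : cl e (dg := dg) i (prj X m) t ∈ tens X W i m := (tens_iff' e he i).2 ⟨t, rfl⟩
    have h1 := ClassPred.sp_proj (Q := tatePred G) ht j
    have h2 : cl e (dg := dg) i (prj X m) t ∈ W.gr (pw X m) (2 * j) := by
      have h3 := tens_gr _ _ _ _ hc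
      have h4 : (m + 1) * i = 2 * j := by omega
      rwa [h4] at h3
    rw [proj_same _ h2] at h1
    exact Pool.Agent.Y129.span_le_algSpan j (h j _ hc h1)
  · have h1 : t = 0 := by
      funext I
      exact TK_even ht (by rw [Rd_sum]; exact hev)
    rw [h1]
    exact Submodule.zero_mem _

include he in
/-- The number of the basis elements of degree `i`. -/
lemma card_deg : Fintype.card {j // dg j = i} = finrank W.K (W.gr X i) := by
  have h1 := span_gs e he i
  have hli : LinearIndependent W.K (gs e dg i) :=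
    e.linearIndependent.comp _ Subtype.val_injective
  rw [← finrank_span_eq_card hli, h1]

/-- Semisimplicity of the representation on tensors. -/
lemma ss_top {n : ℕ} (hSS : n ≠ 0 → SemisimpleAt G (pw X (n - 1)) (n * i)) :
    SSon (MO (NK (Rd G e he i) n)) ⊤ := by
  rcases Nat.eq_zero_or_pos n with rfl | hn
  · exact ss_unique _ _
  · have h1 : grw (Rd G e he i) W.K n (n * i) = ⊤ := by
      rw [eq_top_iff]
      intro t _ I hI
      exact absurd (Rd_sum (G := G) e he i I) hI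
    rw [← h1]
    obtain ⟨m, rfl⟩ : ∃ m, n = m + 1 := ⟨n - 1, by omega⟩
    exact ss_sub (ss_tensor G he ((ssAt_iff G).1 (hSS (by omega))))

/-- Semisimplicity for a subgroup of finite index. -/
lemma ss_unres {K : Type} [Field K] [CharZero K] {κ : Type} [Fintype κ] [DecidableEq κ]
    {D : Type*} [Group D] (R : MRep K κ D) (n : ℕ) (Δ : Subgroup D) [Δ.FiniteIndex]
    (h : SSon (MO (NK (resR R Δ) n)) ⊤) : SSon (MO (NK R n)) ⊤ := by
  rw [← op_repR]
  refine maschke Δ (fun _ _ _ _ => Submodule.mem_top) ?_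
  have h1 : Op (repR R n) Δ = MO (NK (resR R Δ) n) := by
    ext f
    constructor
    · rintro ⟨g, hg, rfl⟩
      exact ⟨_, ⟨⟨g, hg⟩, rfl⟩, rfl⟩
    · rintro ⟨_, ⟨g, rfl⟩, rfl⟩
      exact ⟨g.1, g.2, rfl⟩
  rw [h1]
  exact h

section core

variable (φ : W.K →+* ℂ) (hla : l ∈ (algSys W).C X)
  (hinj : ∀ x ∈ W.gr X i, l * x = 0 → x = 0)
  (hns : NoSkewTw (W.map (fst X X)) (W.push (snd X X)) (W.tr X) l (W.gr X i)
      {c | IsTate G (X.prod X) i c})
  (hSS : ∀ n, 0 < n → n ≤ 6 → SemisimpleAt G (pw X (n - 1)) (n * i))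

include hl hi hla hinj

/-- The semisimplicity of the restricted representation. -/
lemma ss_resTop {n : ℕ} (Δ : Subgroup (G.ρ X).dom) [Δ.FiniteIndex]
    (h : SSon (MO (NK (Rd G e he i) n)) ⊤) :
    SSon (MO (NK (resR (Rd G e he i) Δ) n)) ⊤ := by
  have h1 : ∀ R : MRep W.K {j : ι // dg j = i} (G.ρ X).dom, (∀ j, R.a j = i) →
      grw R W.K n (n * i) = ⊤ := by
    intro R hR
    rw [eq_top_iff]
    intro t _ I hI
    exact absurd (by simp [hR]) hI
  have h2 : grw (Rd G e he i) W.K n (n * i) = ⊤ := h1 _ fun j => j.2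
  rw [← h2] at h
  have h3 := ss_res (R := Rd G e he i) Δ (n := n) (w := n * i) h
  have h4 : grw (resR (Rd G e he i) Δ) W.K n (n * i) = ⊤ := h2
  rwa [h4] at h3

include φ hns hSS

/-- **The Tate conjecture for the tensors of the cohomology of one degree** is decided by the
tensors of degree at most `b ^ 3`. -/
theorem tens_core (hb : 2 ≤ finrank W.K (W.gr X i))
    (hT : ∀ n ≤ finrank W.K (W.gr X i) ^ 3,
      TK (Rd G e he i) n ≤ crK (gs e dg i) (algSys W) n) :
    (∀ n, TK (Rd G e he i) n ≤ crK (gs e dg i) (algSys W) n) ∧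
      ∀ n, SSon (MO (NK (Rd G e he i) n)) ⊤ := by
  obtain ⟨Δ, hΔf, hΔ⟩ := exists_fix (G := G) i hl hla
  have hK := pres_Ql e he i hl hi hinj hΔ
  have hcard := card_deg e he i
  have hb3 : 8 ≤ finrank W.K (W.gr X i) ^ 3 := by
    calc 8 = 2 ^ 3 := by norm_num
      _ ≤ _ := Nat.pow_le_pow_left hb 3
  have hom1 := om_TK hK fun j => Rd_a (G := G) e he i j
  rw [TK_res] at hom1
  have hom := hT 2 (by omega) hom1
  set C := csd e he i hla hom with hC
  have hCS : ∀ n, C.S n = crK (gs e dg i) (algSys W) n := fun _ => rfl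
  have hCT : ∀ n, C.S n ≤ TK (resR (Rd G e he i) Δ) n := fun n => by
    rw [TK_res]
    exact alg_le_TKd e he i n
  have hTS : ∀ n ≤ finrank W.K (W.gr X i) ^ 3, TK (resR (Rd G e he i) Δ) n ≤ C.S n := by
    intro n hn
    rw [TK_res]
    exact hT n hn
  have hst : ∀ n ≤ 6, SSon (MO (NK (resR (Rd G e he i) Δ) n)) ⊤ := fun n hn =>
    ss_resTop e he i hl hi hla hinj Δ (ss_top e he i fun h0 => hSS n (by omega) hn)
  have hnd : ∀ n ≤ 6, ∀ v ∈ C.S n, (∀ w ∈ C.S n, bf (TP (Ql e i l dg) n) v w = 0) → v = 0 := by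
    intro n hn v hv hw
    have hv' := hCT n hv
    by_cases hev : Even (n * i)
    · obtain ⟨j, hj⟩ := hev
      have hw' : ∀ I : Fin n → {j : ι // dg j = i},
          ∑ k, (resR (Rd G e he i) Δ).a (I k) = 2 * j := by
        intro I
        have h1 := Rd_sum (G := G) e he i I
        refine h1.trans ?_
        omega
      exact TK_nd hK hw' (by omega) (hst n hn) hv' fun w hw1 => hw w (hTS n (by omega) hw1)
    · funext I
      exact TK_even hv' (by
        have h1 := Rd_sum (G := G) e he i I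
        intro h2
        exact hev (h1 ▸ h2))
  have hss : ∀ w, Even w → SSon (MO (NK (resR (Rd G e he i) Δ) 2))
      (grw (resR (Rd G e he i) Δ) W.K 2 w) := by
    intro w _
    refine ss_res Δ ?_
    refine ss_deg e he i ?_ w
    exact hSS 2 (by omega) (by omega)
  have hcen := cenT e he i hl hi hinj hns hΔ
  refine ⟨fun n => ?_, fun n => ?_⟩
  · have h1 := kmain φ hK hss hcen C hCT (by rw [hcard]; exact hb)
      (fun m hm => hTS m (by rwa [hcard] at hm)) hnd n
    rwa [TK_res] at h1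
  · have h1 := kss φ hK hss hcen C hCT (fun m hm => hTS m (by omega)) hnd n (n * i)
    have h4 : grw (resR (Rd G e he i) Δ) W.K n (n * i) = ⊤ := by
      rw [eq_top_iff]
      intro t _ I hI
      exact absurd (Rd_sum (G := G) e he i I) hI
    rw [h4] at h1
    exact ss_unres _ n Δ h1

end core

include he hl hi in
/-- Going down by two. -/
lemma tens_down (hla : l ∈ (algSys W).C X) (hinj : ∀ x ∈ W.gr X i, l * x = 0 → x = 0)
    (hom : NP.vec (Ql e i l dg)⁻¹ ∈ crK (gs e dg i) (algSys W) 2)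
    (hb : finrank W.K (W.gr X i) ≠ 0) (m : ℕ) :
    ∀ n, TK (Rd G e he i) (n + 2 * m) ≤ crK (gs e dg i) (algSys W) (n + 2 * m) →
      TK (Rd G e he i) n ≤ crK (gs e dg i) (algSys W) n := by
  induction m with
  | zero => exact fun n h => h
  | succ m ih =>
    intro n h
    have h1 := ih (2 + n) (by
      have h2 : 2 + n + 2 * m = n + 2 * (m + 1) := by ring
      rw [h2]
      exact h)
    intro t ht
    have hcard := card_deg e he i
    refine down (csd e he i hla hom) (Ql_det e he i hl hi hinj) ?_ ?_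
    · rw [hcard]
      exact Nat.cast_ne_zero.2 hb
    · change ED.tmul (NP.vec (Ql e i l dg)⁻¹) t ∈ crK (gs e dg i) (algSys W) (2 + n)
      refine h1 ?_
      have h2 := alg_le_TKd (G := G) e he i 2 hom
      rw [TKd_eq] at ht h2 ⊢
      exact crK_mul h2 ht

section final

variable {D : X.Cycles}

/-- The class of a power of a divisor. -/
lemma pow_cl (hD : X.IsCyc 1 D) (m : ℕ) : W.cl X D ^ m ∈ W.gr X (2 * m) ∧
    W.cl X D ^ m ∈ (algSys W).C X := by
  induction m with
  | zero =>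
    rw [pow_zero]
    refine ⟨?_, (algSys W).one X⟩
    rw [Nat.mul_zero, W.gr_zero]
    exact Submodule.mem_span_singleton_self _
  | succ m ih =>
    rw [pow_succ]
    refine ⟨?_, (algSys W).mul ih.2 ?_⟩
    · have h1 := W.mul_mem ih.1 (W.cl_mem hD)
      have h2 : 2 * m + 2 * 1 = 2 * (m + 1) := by ring
      rwa [h2] at h1
    · exact Pool.Agent.Y129.span_le_algSpan 1 (Submodule.subset_span ⟨1, rfl, D, hD, rfl⟩)

/-- If there are no classes of degree one, everything is trivial. -/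
lemma gen_le_one (hgen : GeneratedInDegreeOne W X) (h : W.gr X 1 = ⊥) :
    finrank W.K (W.H X) ≤ 1 := by
  refine finrank_le_one (1 : W.H X) fun c => ?_
  have h1 := hgen c
  have h2 : {x : W.H X | x ∈ W.gr X 1} ⊆ ((⊥ : Subalgebra W.K (W.H X)) : Set (W.H X)) := by
    intro x hx
    have h3 : x ∈ W.gr X 1 := hx
    rw [h, Submodule.mem_bot] at h3
    rw [h3]
    exact Subalgebra.zero_mem _
  obtain ⟨a, ha⟩ := Algebra.mem_bot.1 (Algebra.adjoin_le h2 h1)
  exact ⟨a, by rw [← ha, Algebra.algebraMap_eq_smul_one]⟩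

lemma of_in {m : ℕ} (h : TateConjIn G X i (m + 1)) : ∀ j, ∀ c ∈ tens X W i m,
    IsTate G (pw X m) j c → c ∈ spanCycles W (pw X m) j := by
  intro j c hc hj
  refine h j c ?_ hj
  change c ∈ Submodule.span W.K (extPowers W X i m)
  rw [span_tset]
  exact hc

include he in
/-- The Tate conjecture for the powers from the tensors of degree one. -/
lemma tate_of_tens (hgen : GeneratedInDegreeOne W X)
    (hss : ∀ n, SSon (MO (NK (Rd G e he 1) n)) ⊤)
    (h : ∀ n, TK (Rd G e he 1) n ≤ crK (gs e dg 1) (algSys W) n) (n : ℕ) :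
    TateConj G (pw X n) := by
  intro j c hc
  obtain ⟨t, ht, hct⟩ := tate_gen e he hgen (hss (2 * j)) hc
  refine spanCycles_of_algSpan ?_ hc.1
  rw [hct]
  refine Submodule.sum_mem _ fun f _ => ?_
  rw [cl_eq]
  exact h _ (ht f) _ _

theorem tate_ab (φ : W.K →+* ℂ) (hgen : GeneratedInDegreeOne W X) (hD : X.IsCyc 1 D)
    (hHL : HardLefschetz W X D) (hc : NoTypeIV G X D 1)
    (hSS : ∀ n, 0 < n → n ≤ 6 → SemisimpleAt G (pow X n) n) (h2 : TateConjIn G X 1 2)
    (hN : TateConjIn G X 1 (finrank W.K (W.gr X 1) ^ 3)) (n : ℕ) : TateConj G (pow X n) := by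
  classical
  by_cases h0 : W.gr X 1 = ⊥
  · exact (strong_le_one (G := G) (X := X) (gen_le_one hgen h0) (n - 1)).2
  have hdim : 1 ≤ X.dim := by
    by_contra h
    exact h0 (W.gr_eq_bot X 1 (by omega))
  obtain ⟨e, dg, he⟩ := Pool.Agent.Q60.AB.exists_dbasis W X
  obtain ⟨hl, hla⟩ := pow_cl (W := W) hD (X.dim - 1)
  have hinj : ∀ x ∈ W.gr X 1, W.cl X D ^ (X.dim - 1) * x = 0 → x = 0 := by
    intro x hx hx0
    refine (hHL 1 hdim).1 x hx ?_
    rw [LinearMap.pow_mulLeft]
    exact hx0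
  have hQ := Ql_det e he 1 hl hdim hinj
  have hcard := card_deg e he 1
  have hb0 : finrank W.K (W.gr X 1) ≠ 0 := fun h => h0 (Submodule.finrank_eq_zero.1 h)
  set b := finrank W.K (W.gr X 1) with hb
  set l := W.cl X D ^ (X.dim - 1) with hld
  have hev : Even b := by
    by_contra ho
    rw [Nat.not_even_iff_odd] at ho
    have h1 : (Ql e 1 l dg)ᵀ = -(Ql e 1 l dg) := by
      ext a b
      rw [transpose_apply, Ql_symm e he 1 hl, pow_one, Matrix.neg_apply]
      ring
    have h2 := Matrix.det_transpose (Ql e 1 l dg)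
    rw [h1, Matrix.det_neg, hcard, ho.neg_one_pow] at h2
    apply hQ
    have h3 : (2 : W.K) * (Ql e 1 l dg).det = 0 := by linear_combination -h2
    exact (mul_eq_zero.1 h3).resolve_left two_ne_zero
  have hb2 : 2 ≤ b := by
    obtain ⟨c, hc⟩ := hev
    omega
  obtain ⟨m, hm⟩ : ∃ m, b ^ 3 = 2 * m := by
    obtain ⟨c, hc⟩ := hev
    exact ⟨c * b ^ 2, by rw [hc]; ring⟩
  have hm0 : m ≠ 0 := by
    rintro rfl
    have : b ^ 3 ≠ 0 := pow_ne_zero 3 hb0
    omega
  have hT2 : TK (Rd G e he 1) 2 ≤ crK (gs e dg 1) (algSys W) 2 := TKd_le e he 1 (of_in 1 h2)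
  have hTN : TK (Rd G e he 1) (b ^ 3) ≤ crK (gs e dg 1) (algSys W) (b ^ 3) := by
    obtain ⟨q, hq⟩ : ∃ q, b ^ 3 = q + 1 := ⟨b ^ 3 - 1, by omega⟩
    rw [hq] at hN ⊢
    exact TKd_le e he 1 (of_in 1 hN)
  obtain ⟨Δ, hΔf, hΔ⟩ := exists_fix (G := G) 1 hl hla
  have hK := pres_Ql e he 1 hl hdim hinj hΔ
  have hom1 := om_TK hK fun j => Rd_a (G := G) e he 1 j
  rw [TK_res] at hom1
  have hom := hT2 hom1
  have hT : ∀ n ≤ b ^ 3, TK (Rd G e he 1) n ≤ crK (gs e dg 1) (algSys W) n := by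
    intro n hn
    by_cases hne : Even n
    · obtain ⟨r, hr⟩ := hne
      refine tens_down e he 1 hl hdim hla hinj hom hb0 (m - r) n ?_
      have h3 : n + 2 * (m - r) = b ^ 3 := by omega
      rw [h3]
      exact hTN
    · intro t ht
      have h1 : t = 0 := by
        funext I
        exact TK_even ht (by rw [Rd_sum, mul_one]; exact hne)
      rw [h1]
      exact Submodule.zero_mem _
  obtain ⟨h3, h4⟩ := tens_core e he 1 hl hdim φ hla hinj hc (fun n hn hn6 => by
    rw [mul_one]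
    exact hSS n hn hn6) hb2 hT
  exact tate_of_tens e he hgen h4 h3 (n - 1)

end final

end Pool.Agent.Q60.MV
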