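import Pool.Agent.Q60.MV.Deg
import Pool.Agent.Q60.FI.HdgL
import Pool.Agent.Q60.MT.Final

/-!
# The Mumford-Tate conjecture for all powers is decided by the fourth power
-/

open CategoryTheory AlgebraicGeometry TensorProduct

set_option linter.unusedSectionVars false

universe u v w

namespace Pool.Agent.Q60.MV

open Module Matrix
open Pool.Agent.H914 Pool.Agent.H914.VarClass Pool.Agent.H914.VarClass.Obj
  Pool.Agent.H914.WeilCohomology
open Pool.Agent.Y133.Half Pool.Agent.Y121.AH Pool.Agent.Q60.ED Pool.Agent.Q60.TD Pool.Agent.Q55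
open Pool.Agent.Q60.MT
open Pool.Agent.Q60.HD (wd wd_zero wd_succ wd_prj cls crd mem_crd_succ RealH IsPol phs T_eq_crd
  crd_mul crd_perm crd_contr mem_crd_zero rt rt_spec exists_tensor Qm par_mem)

section

variable {k : Type u} [Field k] {𝒱 : VarClass k} {ops : CycleOps 𝒱} {T : HodgeTheory ops}
  {W' : WeilCohomology.{u, 0} ops} {C : Artin T.W W'} {X Y Z : 𝒱.Obj} {Γ : Type w} [Group Γ]
  {G : GaloisAction W' Γ}

section

variable {ι : Type} [Fintype ι] [DecidableEq ι] (e : Basis ι T.W.K (T.W.H X))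
  (e' : Basis ι W'.K (W'.H X)) (hee : ∀ i, e' i = C.f X (e i)) {a : ι → ℕ}
  (he : ∀ j, e j ∈ T.W.gr X (a j)) (he' : ∀ j, e' j ∈ W'.gr X (a j))
  (hR : RealH T X) {φ : Module.End T.W.K (T.W.H X)} (hφ : IsPol T X φ)

include he in
lemma exists_psysH : ∃ C' : PSys (phs e hR hφ).Q, ∀ n, C'.S n = (phs e hR hφ).T n := by
  have ha : ∀ j, e j ∈ PH T.W X (a j) := fun j => PH.of (he j)
  have hpar : par (T.W.isInternal X) ∈ (hodgeSys T).Op X X := par_mem
  have hφS : φ ∈ (hodgeSys T).Op X X := hφ.mem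
  have hQ : ∀ i j, ((Qm e φ i j : ℚ) : T.W.K) = T.W.tr X (φ (e i) * e j) := fun i j => rt_spec _
  have hT : ∀ m, (phs e hR hφ).T m = crd e (hodgeSys T) m := T_eq_crd e hR hφ
  exact ⟨{ S := crd e (hodgeSys T)
           one := mem_crd_zero e _
           mul := fun hs ht => crd_mul e hs ht
           perm := fun σ _ ht => crd_perm e ha hpar σ ht
           contr := fun hs ht => crd_contr e ha hpar hφS hQ hs ht
           cas := by rw [← hT]; exact PHS.Om_mem }, fun n => (hT n).symm⟩

include he in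
/-- Hodge tensors have even degree. -/
lemma hev_whole (n : ℕ) {t : (Fin n → ι) → ℚ} (ht : t ∈ (phs e hR hφ).T n) (I : Fin n → ι)
    (hI : ¬ Even (∑ k, a (I k))) : t I = 0 := by
  cases n with
  | zero =>
    exact absurd (by rw [Finset.univ_eq_empty, Finset.sum_empty]; exact Even.zero) hI
  | succ m =>
    rw [T_eq_crd, mem_crd_succ] at ht
    have h1 : ∀ y ∈ (hodgeSys T).C (pw X m), (wb e m).repr y I = 0 := by
      intro y hy
      refine ClassPred.sp_ind (Q := hodgePred T) (q := fun y => (wb e m).repr y I = 0)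
        ?_ ?_ ?_ hy
      · intro j y hy
        refine repr_gr (wb e m) (wb_gr e he m) hy.1 fun h => hI ?_
        exact ⟨j, by omega⟩
      · rw [map_zero, Finsupp.zero_apply]
      · intro y z hy hz
        rw [map_add, Finsupp.add_apply, hy, hz, add_zero]
    have h2 := h1 _ ht
    have h3 : cls e (prj X m) t = ∑ w, ((t w : ℚ) : T.W.K) • wb e m w := by
      rw [cls]
      exact Finset.sum_congr rfl fun w _ => by rw [wd_prj]
    rw [h3, map_sum, Finsupp.coe_finsetSum, Finset.sum_apply, Finset.sum_eq_single I] at h2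
    · rw [map_smul, Finsupp.smul_apply, Basis.repr_self, Finsupp.single_eq_same, smul_eq_mul,
        mul_one] at h2
      exact_mod_cast h2
    · intro w _ hw
      rw [map_smul, Finsupp.smul_apply, Basis.repr_self, Finsupp.single_eq_of_ne (Ne.symm hw),
        smul_zero]
    · intro h
      exact absurd (Finset.mem_univ _) h

end

/-- **Hodge classes on all powers are Tate classes** if those on the fourth power are. -/
theorem ht_whole (hR : RealH T X) {φ : Module.End T.W.K (T.W.H X)} (hφ : IsPol T X φ)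
    (hns : FI.NoSkew T X) (h4 : HT C G (pw X 3)) (m : ℕ) : HT C G (pw X m) := by
  classical
  obtain ⟨e, a, he⟩ := exists_grbasis T.W X
  obtain ⟨e', hee⟩ := exists_eX C T.rat e
  have he' : ∀ j, e' j ∈ W'.gr X (a j) := he_gr e e' hee he
  obtain ⟨C', hC'⟩ := exists_psysH e he hR hφ
  refine ht_of_TK e e' hee hR hφ he' fun t ht => ?_
  exact ht_core (toM G e' he') (phs e hR hφ) C' hC'
    (fun c hc hcom hsk => FI.cen_of e hR hφ hns c hc hcom hsk)
    (fun n t ht I hI => hev_whole e he hR hφ n ht I hI)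
    (fun t ht => bc_mem_TK e e' hee hR hφ he' h4 ht) ht

/-- **The Mumford-Tate conjecture for all powers** follows from that for the fourth power. -/
theorem mt_whole (hR : RealH T X) {φ : Module.End T.W.K (T.W.H X)} (hφ : IsPol T X φ)
    (hns : FI.NoSkew T X) (hSS : ∀ j, SemisimpleAt G (pw X 1) (2 * j)) (h4 : HT C G (pw X 3))
    (h4' : TH C G (pw X 3)) (m : ℕ) : TH C G (pw X m) ∧ HT C G (pw X m) := by
  classical
  obtain ⟨e, a, he⟩ := exists_grbasis T.W X
  obtain ⟨e', hee⟩ := exists_eX C T.rat e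
  have he' : ∀ j, e' j ∈ W'.gr X (a j) := he_gr e e' hee he
  obtain ⟨C', hC'⟩ := exists_psysH e he hR hφ
  have key := mt_core (toM G e' he') (phs e hR hφ) C' hC'
    (fun c hc hcom hsk => FI.cen_of e hR hφ hns c hc hcom hsk)
    (fun n t ht I hI => hev_whole e he hR hφ n ht I hI)
    (fun t ht => by
      rw [TK_eq] at ht ⊢
      exact crdK_mul e' ht ht)
    (fun w hw => by
      obtain ⟨j, hj⟩ := hw
      obtain rfl : w = 2 * j := by omega
      exact ss_tensor G he' ((ssAt_iff G).1 (hSS j)))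
    (fun t ht => bc_mem_TK e e' hee hR hφ he' h4 ht)
    (TK_le e e' hee hR hφ he' h4') (m + 1)
  refine ⟨th_of_TK e e' hee hR hφ he' key.le, ht_of_TK e e' hee hR hφ he' fun t ht => ?_⟩
  rw [key]
  exact bc_mem ht

end

section final

open Pool.Agent.Y121

variable {k : Type u} [Field k] {𝒱 : VarClass k} {ops : CycleOps 𝒱} {T : AHS.HodgeTheory ops}
  {W' : WeilCohomology.{u, 0} ops} {C : Artin T.W W'} {X Y Z : 𝒱.Obj} {Γ : Type w} [Group Γ]
  {G : GaloisAction W' Γ}

/-- **The fourth power decides the Mumford-Tate conjecture for all powers.** -/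
theorem fourth_mt (hX : IsPolarisable T X) (hc : FI.TotallyRealCentre T X)
    (hSS : ∀ j, SemisimpleAt G (pw X 1) (2 * j)) (h : MumfordTate C G (pw X 3)) (n : ℕ) :
    MumfordTate C G (pw X n) := by
  obtain ⟨φ, hφ⟩ := exists_isPol hX
  obtain ⟨h1, h2⟩ := mt_iff.1 h
  exact mt_iff.2 (mt_whole (T := tA T) (realH hX) hφ hc.noSkew hSS h2 h1 n)

/-- **The fourth power decides whether all Hodge classes on the powers are Tate classes.** -/
theorem fourth_ht (hX : IsPolarisable T X) (hc : FI.TotallyRealCentre T X)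
    (h : ∀ j c, InSpan W'.K (C.f (pw X 3)) (AHS.IsHodge T (pw X 3) j) c → IsTate G (pw X 3) j c)
    (n j : ℕ) (c : W'.H (pw X n))
    (hc' : InSpan W'.K (C.f (pw X n)) (AHS.IsHodge T (pw X n) j) c) : IsTate G (pw X n) j c := by
  obtain ⟨φ, hφ⟩ := exists_isPol hX
  have h1 : HT (T := tA T) C G (pw X 3) := fun j x hx =>
    h j _ (Submodule.subset_span ⟨x, hx, rfl⟩)
  have h2 := ht_whole (T := tA T) (realH hX) hφ hc.noSkew h1 n
  change c ∈ Submodule.span W'.K _ at hc'
  induction hc' using Submodule.span_induction with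
  | mem x hx =>
    obtain ⟨y, hy, rfl⟩ := hx
    exact h2 j y hy
  | zero => exact (tatePred G).zero
  | add x y _ _ hx hy => exact (tatePred G).add hx hy
  | smul c x _ hx => exact (tatePred G).smul c hx

end final

end Pool.Agent.Q60.MV
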