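import Pool.Agent.Q60.MV.Sub

/-!
# Hodge tensors and virtually invariant tensors which agree in degree four
-/

set_option linter.unusedSectionVars false

namespace Pool.Agent.Q60.MV

open Module Matrix Pool.Agent.Q60.ED Pool.Agent.Q60.NP Pool.Agent.Q60.TD Pool.Agent.Q60.FI
  Pool.Agent.Q60.TP
open Pool.Agent.Q55.Ke (Aut mem_Aut om)

variable {K : Type} [Field K] [CharZero K] {ι : Type} [Fintype ι] [DecidableEq ι] {Γ : Type*}
  [Group Γ]

lemma bc_bcQ {L B : Type} [Field L] [CharZero L] [Algebra K L] (u : B → ℚ) :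
    bc L (bc K u) = bc L u := by
  funext b
  simp only [bc, eq_ratCast, map_ratCast]

lemma tv_form0 {K L : Type} [Field K] [Field L] [Algebra K L] {Q : Matrix ι ι K} (l : L →ₗ[K] K)
    (c : Matrix ι ι L) : tv Q (Matrix.of fun i j => l (c i j)) =
      fun w => l (tv (Q.map (algebraMap K L)) c w) := by
  funext w
  rw [tv, tv, NP.vec, NP.vec, Matrix.mul_apply, Matrix.mul_apply, map_sum, map_inv_mat Q L]
  refine Finset.sum_congr rfl fun k _ => ?_
  rw [transpose_apply, transpose_apply, Matrix.map_apply, mul_comm (c (w 0) k),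
    ← Algebra.smul_def, map_smul, smul_eq_mul, mul_comm]
  rfl

lemma tv_map0 {K L : Type} [Field K] [Field L] [Algebra K L] {Q : Matrix ι ι K}
    (a : Matrix ι ι K) :
    tv (Q.map (algebraMap K L)) (a.map (algebraMap K L)) = bc L (tv Q a) := by
  funext w
  rw [tv, NP.vec, map_inv_mat Q L, Matrix.mul_apply, bc, tv, NP.vec, Matrix.mul_apply, map_sum]
  refine Finset.sum_congr rfl fun k _ => ?_
  rw [transpose_apply, transpose_apply, Matrix.map_apply, Matrix.map_apply, map_mul]

/-- The rational centre condition after extension of scalars. -/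
lemma cen_ext {V : PHS ι} {L : Type} [Field L] [Algebra ℚ L]
    (hcen : ∀ c : Matrix ι ι ℚ, tv V.Q c ∈ V.T 2 → (∀ a, tv V.Q a ∈ V.T 2 → a * c = c * a) →
      (∀ s ∈ V.T 2, aop c s = 0) → c = 0) {U : Submodule L ((Fin 2 → ι) → L)}
    (hU : U = bcS L (V.T 2)) :
    ∀ c : Matrix ι ι L, tv (V.Q.map (algebraMap ℚ L)) c ∈ U →
      (∀ a, tv (V.Q.map (algebraMap ℚ L)) a ∈ U → a * c = c * a) →
      (∀ s ∈ U, aop c s = 0) → c = 0 := by
  intro c hc hcom hk
  ext i j
  rw [Matrix.zero_apply]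
  apply eq_zero_of_forms (K := ℚ)
  intro l
  have h1 := hcen (Matrix.of fun i j => l (c i j))
    (by
      rw [tv_form0]
      rw [hU] at hc
      exact lam_mem l hc)
    (fun a ha => by
      have h2 := hcom (a.map (algebraMap ℚ L)) (by
        rw [tv_map0, hU]
        exact bc_mem ha)
      ext i j
      have h3 := congrArg l (congrFun (congrFun h2 i) j)
      rw [Matrix.mul_apply, Matrix.mul_apply, map_sum, map_sum] at h3
      rw [Matrix.mul_apply, Matrix.mul_apply]
      refine Eq.trans ?_ (h3.trans ?_)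
      · refine Finset.sum_congr rfl fun k _ => ?_
        rw [Matrix.map_apply, ← Algebra.smul_def, map_smul, smul_eq_mul]
        rfl
      · refine Finset.sum_congr rfl fun k _ => ?_
        rw [Matrix.map_apply, mul_comm, ← Algebra.smul_def, map_smul, smul_eq_mul, mul_comm]
        rfl)
    (fun s hs => by
      funext I
      rw [← aop_form, hk _ (by rw [hU]; exact bc_mem hs)]
      exact map_zero _)
  exact congrFun (congrFun h1 i) j

variable (R : MRep K ι Γ) (V : PHS ι) (C' : PSys V.Q) (hC' : ∀ n, C'.S n = V.T n)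
  (hcen : ∀ c : Matrix ι ι ℚ, tv V.Q c ∈ V.T 2 → (∀ a, tv V.Q a ∈ V.T 2 → a * c = c * a) →
    (∀ s ∈ V.T 2, aop c s = 0) → c = 0)
  (hev : ∀ n, ∀ t ∈ V.T n, ∀ I : Fin n → ι, ¬ Even (∑ k, R.a (I k)) → t I = 0)

include hC' hcen hev

/-- **Hodge tensors are virtually invariant** if those of degree four are. -/
theorem ht_core (h4 : ∀ t ∈ V.T 4, bc K t ∈ TK R 4) {n : ℕ} {t : (Fin n → ι) → ℚ}
    (ht : t ∈ V.T n) : bc K t ∈ TK R n := by
  have : CharZero (AlgebraicClosure K) :=
    charZero_of_injective_algebraMap (algebraMap K (AlgebraicClosure K)).injective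
  refine TK_of_kill (m := 4) (fun I hI => ?_) fun A hA => ?_
  · rw [bc, hev n t ht I hI, map_zero]
  · rw [bc_bcQ]
    refine hodge_lie_bc V hcen C' hC' (fun s hs => ?_) ht
    rw [← bc_bcQ (K := K)]
    exact hA _ (h4 s hs)

/-- **Virtually invariant tensors are Hodge tensors** if the two systems agree in degree four. -/
theorem mt_core (hmul : ∀ t ∈ TK R 2, tmul t t ∈ TK R 4)
    (hss : ∀ w, Even w → SSon (MO (NK R 2)) (grw R K 2 w))
    (h4 : ∀ t ∈ V.T 4, bc K t ∈ TK R 4) (h4' : TK R 4 ≤ bcS K (V.T 4)) (n : ℕ) :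
    TK R n = bcS K (V.T n) := by
  classical
  have hHT : ∀ n, ∀ t ∈ V.T n, bc K t ∈ TK R n := fun n t ht =>
    ht_core R V C' hC' hcen hev h4 ht
  have h2 : TK R 2 = bcS K (V.T 2) := by
    apply le_antisymm
    · intro t ht
      apply mem_bc_of_Lie
      intro B hB
      refine aop_of_sq _ t ?_
      exact aop_bcS (fun u hu => hB 4 u hu) (h4' (hmul t ht))
    · rw [bcS, Submodule.span_le]
      rintro _ ⟨t, ht, rfl⟩
      exact hHT 2 t ht
  have hQd : V.Q.det ≠ 0 := PHS.det_Q (V := V)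
  -- the subgroup which preserves the form
  have hOm : bc K (om V.Q) ∈ TK R 2 := hHT 2 _ PHS.Om_mem
  obtain ⟨Δ, hΔ, hfix⟩ := hOm
  have hK : KPr0 (resR R Δ) (V.Q.map (algebraMap ℚ K)) := by
    refine ⟨?_, fun g I => ?_⟩
    · have h3 : (V.Q.map (algebraMap ℚ K)).det = algebraMap ℚ K V.Q.det :=
        ((algebraMap ℚ K).map_det _).symm
      rw [h3]
      exact (map_ne_zero _).2 hQd
    · have h3 : om (V.Q.map (algebraMap ℚ K)) = bc K (om V.Q) := by
        funext w
        rw [bc, Pool.Agent.Q55.Ke.om, Pool.Agent.Q55.Ke.om, map_inv_mat V.Q K]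
        rfl
      rw [h3]
      exact hfix g.1 g.2 I
  apply le_antisymm
  · intro t ht
    apply mem_bc_of_Lie
    intro B hB
    have ht' : t ∈ TK (resR R Δ) n := by
      rw [TK_res]
      exact ht
    refine kkey4 hK (fun w hw => ss_res Δ (hss w hw)) ?_ (fun s hs => ?_) ht'
    · rw [TK_res]
      exact cen_ext hcen h2
    · rw [TK_res] at hs
      exact aop_bcS (fun u hu => hB 4 u hu) (h4' hs)
  · rw [bcS, Submodule.span_le]
    rintro _ ⟨t, ht, rfl⟩
    exact hHT n t ht

end Pool.Agent.Q60.MV
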