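import Pool.Agent.Q60.MV.Gen1
import Pool.Agent.Q60.TP.Geo

/-!
# Nondegeneracy of invariant forms on the virtually invariant tensors
-/

set_option linter.unusedSectionVars false

namespace Pool.Agent.Q60.MV

open Module Matrix Pool.Agent.Q60.ED Pool.Agent.Q60.NP Pool.Agent.Q60.TD Pool.Agent.Q60.FI
  Pool.Agent.Q60.TP

/-- Invariant elements and invariant forms. -/
lemma nd_inv {K V E : Type*} [Field K] [AddCommGroup V] [Module K V] (ρ : E → Module.End K V)
    (hss : SSon (Set.range ρ) ⊤) (l : E → K) (hl : ∀ g, l g ≠ 0) (b : V →ₗ[K] V →ₗ[K] K)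
    (hb : ∀ g x y, b (ρ g x) (ρ g y) = (l g * l g) * b x y) {v : V} (hv : ∀ g, ρ g v = l g • v)
    (h : ∀ w, (∀ g, ρ g w = l g • w) → b v w = 0) (w : V) : b v w = 0 := by
  have h0 : ∀ g y, b v (ρ g y) = l g * b v y := by
    intro g y
    have h1 := hb g v y
    rw [hv g, map_smul, LinearMap.smul_apply, smul_eq_mul, mul_assoc] at h1
    exact mul_left_cancel₀ (hl g) h1
  have hW : Stab (Set.range ρ) (LinearMap.ker (b v)) := by
    rintro _ ⟨g, rfl⟩ y hy
    rw [LinearMap.mem_ker] at hy ⊢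
    rw [h0, hy, mul_zero]
  obtain ⟨C', -, hC', h1, h2⟩ := hss _ le_top hW
  have h3 : ∀ y ∈ C', b v y = 0 := by
    intro y hy
    refine h y fun g => ?_
    rw [← sub_eq_zero]
    have h4 : ρ g y - l g • y ∈ LinearMap.ker (b v) ⊓ C' := by
      refine ⟨?_, C'.sub_mem (hC' _ ⟨g, rfl⟩ y hy) (C'.smul_mem _ hy)⟩
      rw [SetLike.mem_coe, LinearMap.mem_ker, map_sub, map_smul, h0, smul_eq_mul, sub_self]
    rwa [h1, Submodule.mem_bot] at h4
  have h4 : w ∈ LinearMap.ker (b v) ⊔ C' := by rw [h2]; exact Submodule.mem_top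
  obtain ⟨x, hx, y, hy, rfl⟩ := Submodule.mem_sup.1 h4
  rw [map_add, LinearMap.mem_ker.1 hx, h3 y hy, add_zero]

variable {K : Type} [Field K] {κ : Type} [Fintype κ] [DecidableEq κ] {D : Type*} [Group D]
  {R : MRep K κ D} {Q : Matrix κ κ K}

lemma cE_const {n j : ℕ} (hw : ∀ I : Fin n → κ, ∑ k, R.a (I k) = 2 * j) (g : D)
    (t : (Fin n → κ) → K) (I : Fin n → κ) :
    ∑ J, cE R I J g * t J = ((R.χ g : K)⁻¹) ^ j * tpow (R.A g) n t I := by
  have h3 : ∀ J, cE R I J g = ((R.χ g : K)⁻¹) ^ j * ∏ k, R.A g (I k) (J k) := by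
    intro J
    have h4 : (∑ k, R.a (I k)) / 2 = j := by
      rw [hw]
      omega
    rw [cE, if_pos (by rw [hw]; exact even_two_mul j), h4]
  simp only [h3, mul_assoc]
  rw [← Finset.mul_sum, tpow_apply]

lemma mem_TK_const {n j : ℕ} (hw : ∀ I : Fin n → κ, ∑ k, R.a (I k) = 2 * j)
    {t : (Fin n → κ) → K} : t ∈ TK R n ↔ ∃ E : Subgroup D, E.FiniteIndex ∧
      ∀ g ∈ E, tpow (R.A g) n t = (R.χ g : K) ^ j • t := by
  refine exists_congr fun E => and_congr_right fun _ => forall_congr' fun g =>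
    forall_congr' fun _ => ?_
  have hu : (R.χ g : K) ≠ 0 := Units.ne_zero _
  constructor
  · intro h
    funext I
    have h1 := h I
    rw [cE_const hw] at h1
    rw [Pi.smul_apply, ← h1, smul_eq_mul, ← mul_assoc, ← mul_pow, mul_inv_cancel₀ hu, one_pow,
      one_mul]
  · intro h I
    rw [cE_const hw, h, Pi.smul_apply, smul_eq_mul, ← mul_assoc, ← mul_pow, inv_mul_cancel₀ hu,
      one_pow, one_mul]

lemma TP_smul (c : K) (Q : Matrix κ κ K) (n : ℕ) : TP (c • Q) n = c ^ n • TP Q n := by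
  ext I J
  rw [TP_apply, Matrix.smul_apply, TP_apply, smul_eq_mul]
  simp only [Matrix.smul_apply, smul_eq_mul, Finset.prod_mul_distrib, Finset.prod_const,
    Finset.card_univ, Fintype.card_fin]

lemma bf_scale {A : Matrix κ κ K} {c : K} (h : Aᵀ * Q * A = c • Q) (n : ℕ)
    (v w : (Fin n → κ) → K) :
    bf (TP Q n) (tpow A n v) (tpow A n w) = c ^ n * bf (TP Q n) v w := by
  have h1 : (TP A n).transpose * TP Q n * TP A n = c ^ n • TP Q n := by
    rw [← TP_transpose, ← TP_mul, ← TP_mul, h, TP_smul]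
  rw [bf_eq, bf_eq, tpow_eq, tpow_eq]
  have h2 : v ⬝ᵥ ((c ^ n • TP Q n) *ᵥ w) = c ^ n * (v ⬝ᵥ (TP Q n *ᵥ w)) := by
    rw [Matrix.smul_mulVec, dotProduct_smul, smul_eq_mul]
  rw [← h2, ← h1, ← Matrix.mulVec_mulVec, ← Matrix.mulVec_mulVec, Matrix.dotProduct_mulVec v,
    Matrix.vecMul_transpose]

/-- The form as a bilinear map. -/
noncomputable def bfL {B : Type} [Fintype B] [DecidableEq B] (M : Matrix B B K) : (B → K) →ₗ[K] (B → K) →ₗ[K] K :=
  LinearMap.mk₂ K (bf M) (fun v v' w => bf_add_left _ _ _ _) (fun c v w => bf_smul_left _ _ _ _)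
    (fun v w w' => bf_add_right _ _ _ _) fun c v w => bf_smul_right _ _ _ _

lemma bf_nd {n : ℕ} (hQ : Q.det ≠ 0) {v : (Fin n → κ) → K} (h : ∀ w, bf (TP Q n) v w = 0) :
    v = 0 := by
  have h4 : Matrix.vecMul v (TP Q n) = 0 := by
    funext J
    have h5 := h (Pi.single J 1)
    rw [bf] at h5
    rw [Matrix.vecMul, dotProduct, Pi.zero_apply, ← h5]
    refine Finset.sum_congr rfl fun I _ => ?_
    rw [Finset.sum_eq_single J]
    · rw [Pi.single_eq_same, mul_one]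
    · intro J' _ hJ
      rw [Pi.single_eq_of_ne hJ, mul_zero]
    · intro h; exact absurd (Finset.mem_univ _) h
  have h6 := congrArg (fun u => Matrix.vecMul u (TP Q⁻¹ n)) h4
  simp only [Matrix.vecMul_vecMul, (TP_det hQ n).1, Matrix.vecMul_one, Matrix.zero_vecMul] at h6
  exact h6

/-- **The form is nondegenerate on the virtually invariant tensors** if the representation on the
tensors is semisimple. -/
theorem TK_nd [CharZero K] {d n j : ℕ} (hK : KPres R Q d)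
    (hw : ∀ I : Fin n → κ, ∑ k, R.a (I k) = 2 * j) (hd : n * d = 2 * j)
    (hss : SSon (MO (NK R n)) ⊤) {v : (Fin n → κ) → K} (hv : v ∈ TK R n)
    (h : ∀ w ∈ TK R n, bf (TP Q n) v w = 0) : v = 0 := by
  obtain ⟨E, hE, hfix⟩ := (mem_TK_const hw).1 hv
  refine bf_nd hK.det fun w => ?_
  refine nd_inv (fun g : E => repR R n g.1) (ss_repR R n hss E) (fun g => (R.χ g.1 : K) ^ j)
    (fun g => pow_ne_zero _ (Units.ne_zero _)) (bfL (TP Q n)) (fun g x y => ?_) (v := v)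
    (fun g => hfix g.1 g.2) (fun w hw' => ?_) w
  · have h1 := bf_scale (hK.inv g.1) n x y
    have h2 : ((R.χ g.1 : K) ^ d) ^ n = (R.χ g.1 : K) ^ j * (R.χ g.1 : K) ^ j := by
      rw [← pow_mul, ← pow_add, mul_comm, hd]
      congr 1
      omega
    rw [h2] at h1
    exact h1
  · exact h w ((mem_TK_const hw).2 ⟨E, hE, fun g hg => hw' ⟨g, hg⟩⟩)

/-- The tensor of the form is virtually invariant. -/
lemma om_TK {d : ℕ} (hK : KPres R Q d) (hw : ∀ i, R.a i = d) : NP.vec Q⁻¹ ∈ TK R 2 := by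
  have hw' : ∀ I : Fin 2 → κ, ∑ k, R.a (I k) = 2 * d := by
    intro I
    simp [hw]
  rw [mem_TK_const hw']
  refine ⟨⊤, inferInstance, fun g _ => ?_⟩
  have hu := isUnit_iff_ne_zero.2 hK.det
  have h1 := hK.inv g
  have hc : (R.χ g : K) ^ d ≠ 0 := pow_ne_zero _ (Units.ne_zero _)
  have h2 : R.A g * Q⁻¹ * (R.A g)ᵀ = (R.χ g : K) ^ d • Q⁻¹ := by
    have h3 : (((R.χ g : K) ^ d)⁻¹ • (Q⁻¹ * (R.A g)ᵀ * Q)) * R.A g = 1 := by
      rw [Matrix.smul_mul]
      have h4 : Q⁻¹ * (R.A g)ᵀ * Q * R.A g = Q⁻¹ * ((R.A g)ᵀ * Q * R.A g) := by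
        simp only [Matrix.mul_assoc]
      rw [h4, h1, Matrix.mul_smul, Matrix.nonsing_inv_mul _ hu, smul_smul, inv_mul_cancel₀ hc,
        one_smul]
    have h4 := mul_eq_one_comm.1 h3
    have h5 := congrArg (fun M => (R.χ g : K) ^ d • (M * Q⁻¹)) h4
    simp only [Matrix.mul_smul, Matrix.smul_mul, smul_smul, mul_inv_cancel₀ hc, one_smul,
      Matrix.one_mul] at h5
    rw [← h5]
    have h6 : R.A g * (Q⁻¹ * (R.A g)ᵀ * Q) * Q⁻¹ = R.A g * Q⁻¹ * (R.A g)ᵀ * (Q * Q⁻¹) := by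
      simp only [Matrix.mul_assoc]
    rw [h6, Matrix.mul_nonsing_inv _ hu, Matrix.mul_one]
  funext I
  rw [tpow_apply, Pi.smul_apply, smul_eq_mul]
  have h3 := congrFun (congrFun h2 (I 0)) (I 1)
  rw [Matrix.smul_apply, smul_eq_mul] at h3
  rw [NP.vec, ← h3, Matrix.mul_apply]
  rw [← (finTwoArrowEquiv κ).symm.sum_comp, Fintype.sum_prod_type_right]
  refine Finset.sum_congr rfl fun b _ => ?_
  rw [Matrix.mul_apply, Finset.sum_mul]
  refine Finset.sum_congr rfl fun a _ => ?_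
  rw [Fin.prod_univ_two]
  simp [NP.vec, finTwoArrowEquiv]
  ring

end Pool.Agent.Q60.MV
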