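import Pool.Agent.Q60.MV.Res
import Pool.Agent.Q60.MV.Final
import Pool.Agent.Q60.MV.DefsA

/-!
# The Mumford-Tate conjecture for varieties whose cohomology is generated in degree one
-/

open CategoryTheory AlgebraicGeometry TensorProduct

set_option linter.unusedSectionVars false

universe u v w

namespace Pool.Agent.Q60.MV

open Module Matrix
open Pool.Agent.H914 Pool.Agent.H914.VarClass Pool.Agent.H914.VarClass.Obj
  Pool.Agent.H914.WeilCohomology
open Pool.Agent.Y133.Half Pool.Agent.Y121.AH Pool.Agent.Q60.ED Pool.Agent.Q60.TD Pool.Agent.Q55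
open Pool.Agent.Q60.MT
open Pool.Agent.Q60.AB (gs wdF clsF phd phd_T crdF mem_crdF tens tens_eq tens_gr cen_deg
  NoSkewDeg exists_dbasis wdF_PH)
open Pool.Agent.Q60.HD (RealH IsPol)

section

variable {k : Type u} [Field k] {𝒱 : VarClass k} {ops : CycleOps 𝒱} {T : HodgeTheory ops}
  {W' : WeilCohomology.{u, 0} ops} {C : Artin T.W W'} {X Y Z : 𝒱.Obj} {Γ : Type w} [Group Γ]
  {G : GaloisAction W' Γ}

/-- The generation in degree one and the comparison isomorphism. -/
lemma gen_transfer (C : Artin T.W W')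
    (h : ∀ c : T.W.H X, c ∈ Algebra.adjoin T.W.K (T.W.gr X 1 : Set (T.W.H X))) :
    ∀ c : W'.H X, c ∈ Algebra.adjoin W'.K (W'.gr X 1 : Set (W'.H X)) := by
  have h1 : ∀ x : T.W.H X, C.f X x ∈ Algebra.adjoin W'.K (W'.gr X 1 : Set (W'.H X)) := by
    intro x
    have hx := h x
    induction hx using Algebra.adjoin_induction with
    | mem x hx => exact Algebra.subset_adjoin (Artin.gr (C := C) hx)
    | algebraMap r =>
      obtain ⟨q, hq⟩ := T.rat r
      rw [Algebra.algebraMap_eq_smul_one, ← hq, C_smul, map_one]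
      exact Subalgebra.smul_mem _ (Subalgebra.one_mem _) _
    | add x y _ _ hx hy => rw [map_add]; exact Subalgebra.add_mem _ hx hy
    | mul x y _ _ hx hy => rw [map_mul]; exact Subalgebra.mul_mem _ hx hy
  intro c
  have h2 : c ∈ Submodule.span W'.K (Set.range (C.f X)) := by
    rw [(C.ext X).2]
    exact Submodule.mem_top
  have h3 : Submodule.span W'.K (Set.range (C.f X)) ≤
      Subalgebra.toSubmodule (Algebra.adjoin W'.K (W'.gr X 1 : Set (W'.H X))) := by
    rw [Submodule.span_le]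
    rintro _ ⟨x, rfl⟩
    exact h1 x
  exact h3 h2

/-- **The Mumford-Tate conjecture for all powers** of a variety whose cohomology is generated in
degree one follows from its part on tensors of degree four in `H^1`. -/
theorem mt_ab (hR : RealH T X) {φ : Module.End T.W.K (T.W.H X)} (hφ : IsPol T X φ)
    (hns : NoSkewDeg T X 1 φ)
    (hgen : ∀ c : T.W.H X, c ∈ Algebra.adjoin T.W.K (T.W.gr X 1 : Set (T.W.H X)))
    (hSS : ∀ n, SemisimpleAt G (pw X n) (n + 1)) (hD : HIn C G X 1 3)
    (h4 : ∀ c ∈ tens X W' 1 3, ∀ j, IsTate G (pw X 3) j c → c ∈ hSpan C (pw X 3) j) (n : ℕ) :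
    TH C G (pw X n) := by
  classical
  obtain ⟨e, dg, he⟩ := exists_dbasis T.W X
  obtain ⟨e', hee⟩ := exists_eX C T.rat e
  have he' : ∀ j, e' j ∈ W'.gr X (dg j) := he_gr e e' hee he
  obtain ⟨C', hC'⟩ := exists_psys e he hR hφ 1
  have key := mt_core (Rd G e' he' 1) (phd e he hR hφ 1) C' hC'
    (fun c hc hcom hsk => cen_deg e he hR hφ 1 hns c hc hcom hsk)
    (fun n t ht I hI => hev_deg e e' he he' hR hφ 1 n ht I hI)
    (fun t ht => hmul_deg e' he' 1 ht) (fun w _ => ss_deg e' he' 1 (hSS 1) w)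
    (fun t ht => of_hin e e' he he' hR hφ 1 hee hD ht)
    (of_tin' e e' he he' hR hφ 1 ⟨2, by norm_num⟩ hee h4)
  intro j c hc
  have hss : SSon (MO (NK (Rd G e' he' 1) (2 * j))) ⊤ := by
    rcases Nat.eq_zero_or_pos j with rfl | hj
    · rw [Nat.mul_zero]
      exact ss_unique _ _
    · rw [← grw_top (G := G) e' he' (2 * j)]
      obtain ⟨m, hm⟩ : ∃ m, 2 * j = m + 1 := ⟨2 * j - 1, by omega⟩
      rw [hm]
      exact ss_sub (ss_tensor G he' ((ssAt_iff G).1 (hSS m)))
  obtain ⟨t, ht, rfl⟩ := tate_gen e' he' (gen_transfer C hgen) hss hc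
  refine Submodule.sum_mem _ fun f _ => ?_
  have h1 : bcS W'.K ((phd e he hR hφ 1).T (2 * j)) ≤
      (hSpan C (pw X n) j).comap (cl e' 1 (fun i => prj X n (f i))) := by
    rw [bcS, Submodule.span_le]
    rintro _ ⟨s, hs, rfl⟩
    change cl e' 1 (fun i => prj X n (f i)) (bc W'.K s) ∈ hSpan C (pw X n) j
    rw [cl_bc e e' hee]
    have hs' : s ∈ (phd e he hR hφ 1).T (2 * j) := hs
    rw [phd_T, mem_crdF] at hs'
    have h2 := ClassPred.sp_proj (Q := hodgePred T) (hs' (pw X n) (fun i => prj X n (f i))) j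
    have h3 : clsF (gs e dg 1) (fun i => prj X n (f i)) s ∈ T.W.gr (pw X n) (2 * j) := by
      refine Submodule.sum_mem _ fun w _ => Submodule.smul_mem _ _ ?_
      have h4 := wd_gr e he (fun i => prj X n (f i)) (fun i => (w i).1)
      have h5 : ∑ i, dg (w i).1 = 2 * j := by
        have : ∀ i, dg (w i).1 = 1 := fun i => (w i).2
        simp [this]
      rw [h5] at h4
      exact h4
    rw [proj_same _ h3] at h2
    exact Submodule.subset_span ⟨_, h2, rfl⟩
  refine h1 ?_
  rw [← key]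
  exact ht f

end

section final

open Pool.Agent.Y121

variable {k : Type u} [Field k] {𝒱 : VarClass k} {ops : CycleOps 𝒱} {T : AHS.HodgeTheory ops}
  {W' : WeilCohomology.{u, 0} ops} {C : Artin T.W W'} {X Y Z : 𝒱.Obj} {Γ : Type w} [Group Γ]
  {G : GaloisAction W' Γ}

/-- **The Mumford-Tate conjecture for abelian varieties** is decided by the Tate classes of
codimension two on the fourth power. -/
theorem mumfordTate_ab (hgen : GeneratedInDegreeOne T.W X) (hX : TotallyRealCentreIn T X 1)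
    (hSS : ∀ n, SemisimpleAt G (pow X n) n) (hD : ∀ n, HodgeAreTate C G (pow X n))
    (h4 : TateInSpan C G X 1 4) (n : ℕ) : MumfordTate C G (pow X n) := by
  obtain ⟨hR, φ, hφ, hns⟩ := hX
  have hR' : HD.RealH (tA T) X := ⟨fun p q x hx hx0 => hR.1 p q x hx hx0,
    fun p q x y h' hx => hR.2 p q x y hx h'⟩
  have hφ' : HD.IsPol (tA T) X φ := ⟨fun p q r s x hx y hy hne => hφ.1 p q r s x y hx hy hne,
    fun p q x y hx hxy hx0 => hφ.2 p q x y hx hxy hx0⟩
  refine mt_iff.2 ⟨mt_ab (T := tA T) hR' hφ' (noSkewDeg hns) hgen (fun m => hSS (m + 1))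
    (fun x _ j hj => hD 4 j x hj) (fun c hc j hj => ?_) (n - 1), fun j x hj => hD n j x hj⟩
  refine h4 j c ?_ hj
  change c ∈ Submodule.span W'.K (extPowers W' X 1 3)
  rw [span_tset]
  exact hc

end final

end Pool.Agent.Q60.MV
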