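import Pool.Agent.Q60.MV.TAb

/-!
# Contraction with the form
-/

open CategoryTheory AlgebraicGeometry TensorProduct

set_option linter.unusedSectionVars false

universe u v w

namespace Pool.Agent.Q60.MV

open Module Matrix
open Pool.Agent.H914 Pool.Agent.H914.VarClass Pool.Agent.H914.VarClass.Obj
  Pool.Agent.H914.WeilCohomology
open Pool.Agent.Y133.Half Pool.Agent.Y121.AH Pool.Agent.Q60.ED Pool.Agent.Q60.TD Pool.Agent.Q55
open Pool.Agent.Q60.TP Pool.Agent.Q60.NP
open Pool.Agent.Q60.FI (tv tv_inj aop_vec)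
open Pool.Agent.Q60.AB (Blk sm x0 x0_val x0_of x0_inj sum_word sum_sub gs gs_mem wdF wdF_zero
  wdF_succ wdF_append wdF_map span_gs tens tens_eq tens_gr)
open Pool.Agent.Q60.HD (sum_append')

variable {k : Type u} [Field k] {𝒱 : VarClass k} {ops : CycleOps 𝒱}

section fam

variable {W : WeilCohomology.{u, 0} ops} {X Y Z : 𝒱.Obj} {κ : Type} [Fintype κ] [DecidableEq κ]
  {g : κ → W.H X} {S : Sys W}

/-- Contraction of two factors with the form `tr (l · x · y)`. -/
lemma crK_ctr {l : W.H X} (hl : l ∈ S.C X) {Q : Matrix κ κ W.K}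
    (hQ : ∀ i j, Q i j = W.tr X (l * g i * g j)) {n : ℕ} {t : (Fin (2 + n) → κ) → W.K}
    (ht : t ∈ crK g S (2 + n)) :
    (fun J => ∑ I : Fin 2 → κ, Q (I 0) (I 1) * t (Fin.append I J)) ∈ crK g S n := by
  intro Z f
  set F : Fin (2 + n) → (X.prod Z ⟶ X) :=
    Fin.append (fun _ : Fin 2 => fst X Z) (fun j => snd X Z ≫ f j) with hF
  have h1 := S.push (snd X Z) (S.mul (S.map (fst X Z) hl) (ht (X.prod Z) F))
  have h2 : W.push (snd X Z) (W.map (fst X Z) l * clK g F t) =
      clK g f (fun J => ∑ I : Fin 2 → κ, Q (I 0) (I 1) * t (Fin.append I J)) := by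
    rw [clK, Finset.mul_sum, map_sum, sum_append', Finset.sum_comm, clK]
    refine Finset.sum_congr rfl fun J _ => ?_
    rw [Finset.sum_smul]
    refine Finset.sum_congr rfl fun I _ => ?_
    have e2 : wdF g (fun _ : Fin 2 => fst X Z) I = W.map (fst X Z) (g (I 0) * g (I 1)) := by
      rw [wdF_succ, wdF_succ, wdF_zero, mul_one, map_mul (W.map (fst X Z))]
      rfl
    have e1 : wdF g F (Fin.append I J) =
        W.map (fst X Z) (g (I 0) * g (I 1)) * W.map (snd X Z) (wdF g f J) := by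
      rw [wdF_append, wdF_map, ← e2]
      simp only [hF, Fin.append_left, Fin.append_right]
    rw [mul_smul_comm, map_smul, e1, ← mul_assoc, ← map_mul (W.map (fst X Z)), push_snd,
      smul_smul, hQ, mul_comm (t _), ← mul_assoc]
  rw [← h2]
  exact h1

end fam

section deg

variable {W : WeilCohomology.{u, 0} ops} {X Y Z : 𝒱.Obj} {ι : Type} [Fintype ι] [DecidableEq ι]
  (e : Basis ι W.K (W.H X)) {dg : ι → ℕ} (he : ∀ j, e j ∈ W.gr X (dg j)) {Γ : Type w} [Group Γ]
  {G : GaloisAction W Γ} (i : ℕ) {l : W.H X} (hl : l ∈ W.gr X (2 * (X.dim - i)))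
  (hi : i ≤ X.dim)

include he hl in
lemma Ql_transpose : (Ql e i l dg)ᵀ = (-1 : W.K) ^ i • Ql e i l dg := by
  ext a b
  rw [transpose_apply, Matrix.smul_apply, smul_eq_mul, Ql_symm e he i hl, mul_comm]

include he hl hi in
/-- The number of classes of odd degree is even. -/
lemma betti_even (hinj : ∀ x ∈ W.gr X i, l * x = 0 → x = 0) (ho : Odd i) :
    Even (finrank W.K (W.gr X i)) := by
  by_contra h
  rw [Nat.not_even_iff_odd] at h
  have hQ := Ql_det e he i hl hi hinj
  have h2 := Matrix.det_transpose (Ql e i l dg)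
  rw [Ql_transpose e he i hl, ho.neg_one_pow, Matrix.det_smul, card_deg e he i,
    h.neg_one_pow] at h2
  apply hQ
  have h3 : (2 : W.K) * (Ql e i l dg).det = 0 := by linear_combination -h2
  exact (mul_eq_zero.1 h3).resolve_left two_ne_zero

include hl hi in
/-- Going down by two. -/
lemma TK_down (hla : l ∈ (algSys W).C X) (hinj : ∀ x ∈ W.gr X i, l * x = 0 → x = 0)
    (hb : finrank W.K (W.gr X i) ≠ 0) (m : ℕ) :
    ∀ n, TK (Rd G e he i) (n + 2 * m) ≤ crK (gs e dg i) (algSys W) (n + 2 * m) →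
      TK (Rd G e he i) n ≤ crK (gs e dg i) (algSys W) n := by
  obtain ⟨Δ, hΔf, hΔ⟩ := exists_fix (G := G) i hl hla
  have hK := pres_Ql e he i hl hi hinj hΔ
  have hom := om_TK hK fun j => Rd_a (G := G) e he i j
  rw [TK_res] at hom
  have hu := isUnit_iff_ne_zero.2 hK.det
  induction m with
  | zero => exact fun n h => h
  | succ m ih =>
    intro n h
    have h1 := ih (2 + n) (by
      have h2 : 2 + n + 2 * m = n + 2 * (m + 1) := by ring
      rw [h2]
      exact h)
    intro t ht
    have h2 : ED.tmul (NP.vec (Ql e i l dg)⁻¹) t ∈ TK (Rd G e he i) (2 + n) := by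
      rw [TKd_eq] at ht hom ⊢
      exact crK_mul hom ht
    have h3 := crK_ctr (g := gs e dg i) hla (Ql_apply e i l) (h1 h2)
    have h4 : (fun J => ∑ I : Fin 2 → {j : ι // dg j = i}, Ql e i l dg (I 0) (I 1) *
        ED.tmul (NP.vec (Ql e i l dg)⁻¹) t (Fin.append I J)) =
        ((-1 : W.K) ^ i * (finrank W.K (W.gr X i) : W.K)) • t := by
      funext J
      have h5 : ∀ I : Fin 2 → {j : ι // dg j = i}, Ql e i l dg (I 0) (I 1) *
          ED.tmul (NP.vec (Ql e i l dg)⁻¹) t (Fin.append I J) =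
          NP.vec (Ql e i l dg) I * NP.vec (Ql e i l dg)⁻¹ I * t J := by
        intro I
        simp only [ED.tmul, Fin.append_left, Fin.append_right]
        rw [← mul_assoc]
        rfl
      simp only [h5]
      rw [← Finset.sum_mul]
      have h6 := vec_dot (Ql e i l dg) (Ql e i l dg)⁻¹
      rw [dotProduct, Ql_transpose e he i hl, Matrix.smul_mul, Matrix.mul_nonsing_inv _ hu,
        Matrix.trace_smul, Matrix.trace_one, card_deg e he i, smul_eq_mul] at h6
      rw [h6]
      rfl
    rw [h4] at h3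
    have hc : (-1 : W.K) ^ i * (finrank W.K (W.gr X i) : W.K) ≠ 0 :=
      mul_ne_zero (pow_ne_zero _ (neg_ne_zero.2 one_ne_zero)) (Nat.cast_ne_zero.2 hb)
    have h7 := Submodule.smul_mem _ ((-1 : W.K) ^ i * (finrank W.K (W.gr X i) : W.K))⁻¹ h3
    rwa [smul_smul, inv_mul_cancel₀ hc, one_smul] at h7

lemma TK_odd (hi : Odd i) {n : ℕ} (hn : Odd n) : TK (Rd G e he i) n = ⊥ := by
  rw [eq_bot_iff]
  intro t ht
  rw [Submodule.mem_bot]
  funext I
  exact TK_even ht (by rw [Rd_sum, Nat.not_even_iff_odd]; exact hn.mul hi)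

include hl hi in
/-- **The Tate conjecture for tensors of one degree** is decided by the tensors of degree `b ^ 3`
and `b ^ 3 - 1`. -/
theorem tens_main (φ : W.K →+* ℂ) (hla : l ∈ (algSys W).C X)
    (hinj : ∀ x ∈ W.gr X i, l * x = 0 → x = 0)
    (hns : NoSkewTw (W.map (fst X X)) (W.push (snd X X)) (W.tr X) l (W.gr X i)
      {c | IsTate G (X.prod X) i c})
    (hSS : ∀ n, 0 < n → n ≤ 6 → SemisimpleAt G (pw X (n - 1)) (n * i))
    (hb : 2 ≤ finrank W.K (W.gr X i))
    (hN : TK (Rd G e he i) (finrank W.K (W.gr X i) ^ 3) ≤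
      crK (gs e dg i) (algSys W) (finrank W.K (W.gr X i) ^ 3))
    (hN' : Even i → TK (Rd G e he i) (finrank W.K (W.gr X i) ^ 3 - 1) ≤
      crK (gs e dg i) (algSys W) (finrank W.K (W.gr X i) ^ 3 - 1)) :
    (∀ n, TK (Rd G e he i) n ≤ crK (gs e dg i) (algSys W) n) ∧
      ∀ n, SSon (MO (NK (Rd G e he i) n)) ⊤ := by
  set b := finrank W.K (W.gr X i) with hbd
  have hb3 : 8 ≤ b ^ 3 := by
    calc 8 = 2 ^ 3 := by norm_num
      _ ≤ _ := Nat.pow_le_pow_left hb 3
  refine tens_core e he i hl hi φ hla hinj hns hSS hb fun n hn => ?_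
  rw [← hbd] at hn
  rcases Nat.even_or_odd i with hie | hio
  · rcases Nat.even_or_odd (b ^ 3 - n) with h | h
    · obtain ⟨m, hm⟩ := h
      refine TK_down e he i hl hi hla hinj (by omega) m n ?_
      have h3 : n + 2 * m = b ^ 3 := by omega
      rw [h3]
      exact hN
    · obtain ⟨m, hm⟩ := h
      refine TK_down e he i hl hi hla hinj (by omega) m n ?_
      have h3 : n + 2 * m = b ^ 3 - 1 := by omega
      rw [h3]
      exact hN' hie
  · have hev := betti_even e he i hl hi hinj hio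
    rcases Nat.even_or_odd n with h | h
    · obtain ⟨c, hc⟩ := hev
      obtain ⟨r, hr⟩ := h
      have h4 : b ^ 3 = 2 * (c * b ^ 2) := by
        have h5 : b = c + c := hc
        calc b ^ 3 = b * b ^ 2 := by ring
          _ = (c + c) * b ^ 2 := by rw [← h5]
          _ = _ := by ring
      refine TK_down e he i hl hi hla hinj (by omega) (c * b ^ 2 - r) n ?_
      have h3 : n + 2 * (c * b ^ 2 - r) = b ^ 3 := by omega
      rw [h3]
      exact hN
    · rw [TK_odd e he i hio h]
      exact bot_le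

/-- The Tate conjecture for tensors from the statement in coordinates. -/
lemma in_of_TK (h : ∀ n, TK (Rd G e he i) n ≤ crK (gs e dg i) (algSys W) n) (n : ℕ) :
    TateConjIn G X i n := by
  intro j c hc hj
  rw [span_tset] at hc
  obtain ⟨t, rfl⟩ := (tens_iff' e he i).1 hc
  have h1 := h _ ((mem_TK_deg (G := G) e he i).2 (ClassPred.sp_of (Q := tatePred G) hj))
  rw [mem_crK_succ, ← cl_eq] at h1
  exact spanCycles_of_algSpan h1 hj.1

lemma TK_of_in {n : ℕ} (hn : n ≠ 0) (h : TateConjIn G X i n) :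
    TK (Rd G e he i) n ≤ crK (gs e dg i) (algSys W) n := by
  obtain ⟨m, rfl⟩ : ∃ m, n = m + 1 := ⟨n - 1, by omega⟩
  exact TKd_le e he i (of_in i h)

end deg

section final

variable {W : WeilCohomology.{u, 0} ops} {X Y Z : 𝒱.Obj} {Γ : Type w} [Group Γ]
  {G : GaloisAction W Γ} {i : ℕ} {D : X.Cycles}

/-- The tensors are algebraic if the classes of degree `i` are. -/
lemma tens_alg (h : W.gr X i ≤ (algSys W).C X) (m : ℕ) : tens X W i m ≤ (algSys W).C (pw X m) := by
  induction m with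
  | zero => exact h
  | succ m ih =>
    rw [tens, AB.extSpan, Submodule.span_le]
    rintro _ ⟨a, ha, b, hb, rfl⟩
    exact (algSys W).mul ((algSys W).map _ (ih ha)) ((algSys W).map _ (h hb))

lemma in_of_alg (h : W.gr X i ≤ (algSys W).C X) (n : ℕ) : TateConjIn G X i n := by
  intro j c hc hj
  rw [span_tset] at hc
  exact spanCycles_of_algSpan (tens_alg h _ hc) hj.1

theorem tate_deg (φ : W.K →+* ℂ) (hi : i ≤ X.dim) (hD : X.IsCyc 1 D)
    (hHL : HardLefschetz W X D) (hc : NoTypeIV G X D i)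
    (hSS : ∀ n, 0 < n → n ≤ 6 → SemisimpleAt G (pow X n) (n * i))
    (hN : TateConjIn G X i (finrank W.K (W.gr X i) ^ 3))
    (hN' : Even i → TateConjIn G X i (finrank W.K (W.gr X i) ^ 3 - 1)) (n : ℕ) :
    TateConjIn G X i n := by
  classical
  obtain ⟨e, dg, he⟩ := Pool.Agent.Q60.AB.exists_dbasis W X
  obtain ⟨hl, hla⟩ := pow_cl (W := W) hD (X.dim - i)
  have hinj : ∀ x ∈ W.gr X i, W.cl X D ^ (X.dim - i) * x = 0 → x = 0 := by
    intro x hx hx0
    refine (hHL i hi).1 x hx ?_
    rw [LinearMap.pow_mulLeft]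
    exact hx0
  rcases Nat.lt_or_ge (finrank W.K (W.gr X i)) 2 with hb | hb
  · refine in_of_alg ?_ n
    rcases Nat.eq_zero_or_pos (finrank W.K (W.gr X i)) with h0 | h0
    · rw [Submodule.finrank_eq_zero.1 h0]
      exact bot_le
    · have h1 : finrank W.K (W.gr X i) = 1 := by omega
      rcases Nat.even_or_odd i with hie | hio
      · obtain ⟨j, hj⟩ := hie
        obtain ⟨hp1, hp2⟩ := pow_cl (W := W) hD j
        have hp0 : W.cl X D ^ j ≠ 0 := by
          intro h0
          have h2 := (hHL 0 (Nat.zero_le _)).1 1 (by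
            rw [W.gr_zero]
            exact Submodule.mem_span_singleton_self _) (by
            rw [LinearMap.pow_mulLeft]
            change W.cl X D ^ (X.dim - 0) * 1 = 0
            have h3 : X.dim - 0 = j + (X.dim - j) := by omega
            rw [h3, pow_add, h0, zero_mul, zero_mul])
          have h3 : W.gr X i = ⊥ := by
            rw [eq_bot_iff]
            intro x _
            rw [Submodule.mem_bot, ← one_mul x, h2, zero_mul]
          rw [h3, finrank_bot] at h1
          exact absurd h1 (by decide)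
        have hpi : W.cl X D ^ j ∈ W.gr X i := by
          have h3 : 2 * j = i := by omega
          rwa [h3] at hp1
        intro x hx
        obtain ⟨a, ha⟩ := (finrank_eq_one_iff_of_nonzero' (⟨_, hpi⟩ : W.gr X i)
          (fun h => hp0 (congrArg Subtype.val h))).1 h1 ⟨x, hx⟩
        have h3 : a • W.cl X D ^ j = x := congrArg Subtype.val ha
        rw [← h3]
        exact Submodule.smul_mem _ _ hp2
      · have h2 := betti_even e he i hl hi hinj hio
        rw [h1] at h2
        exact absurd h2 (by decide)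
  · have hb0 : finrank W.K (W.gr X i) ^ 3 ≠ 0 := pow_ne_zero _ (by omega)
    have hb1 : finrank W.K (W.gr X i) ^ 3 - 1 ≠ 0 := by
      have : 2 ^ 3 ≤ finrank W.K (W.gr X i) ^ 3 := Nat.pow_le_pow_left hb 3
      omega
    exact in_of_TK e he i (tens_main e he i hl hi φ hla hinj hc hSS hb
      (TK_of_in e he i hb0 hN) fun hie => TK_of_in e he i hb1 (hN' hie)).1 n

theorem tate_ab' (φ : W.K →+* ℂ) (hgen : GeneratedInDegreeOne W X) (hD : X.IsCyc 1 D)
    (hHL : HardLefschetz W X D) (hc : NoTypeIV G X D 1)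
    (hSS : ∀ n, 0 < n → n ≤ 6 → SemisimpleAt G (pow X n) n)
    (hN : TateConjIn G X 1 (finrank W.K (W.gr X 1) ^ 3)) (n : ℕ) : TateConj G (pow X n) := by
  classical
  by_cases h0 : W.gr X 1 = ⊥
  · exact (strong_le_one (G := G) (X := X) (gen_le_one hgen h0) (n - 1)).2
  have hdim : 1 ≤ X.dim := by
    by_contra h
    exact h0 (W.gr_eq_bot X 1 (by omega))
  obtain ⟨e, dg, he⟩ := Pool.Agent.Q60.AB.exists_dbasis W X
  obtain ⟨hl, hla⟩ := pow_cl (W := W) hD (X.dim - 1)
  have hinj : ∀ x ∈ W.gr X 1, W.cl X D ^ (X.dim - 1) * x = 0 → x = 0 := by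
    intro x hx hx0
    refine (hHL 1 hdim).1 x hx ?_
    rw [LinearMap.pow_mulLeft]
    exact hx0
  have hb0 : finrank W.K (W.gr X 1) ≠ 0 := fun h => h0 (Submodule.finrank_eq_zero.1 h)
  have hb2 : 2 ≤ finrank W.K (W.gr X 1) := by
    obtain ⟨c, hc⟩ := betti_even e he 1 hl hdim hinj odd_one
    omega
  obtain ⟨h3, h4⟩ := tens_main e he 1 hl hdim φ hla hinj hc (fun n hn hn6 => by
    rw [mul_one]
    exact hSS n hn hn6) hb2 (TK_of_in e he 1 (pow_ne_zero _ hb0) hN) fun h => absurd h (by decide)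
  exact tate_of_tens e he hgen h4 h3 (n - 1)

end final

end Pool.Agent.Q60.MV
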