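import Pool.Agent.Q60.MV.Core
import Pool.Agent.Q60.AB.Bnd
import Pool.Agent.Q60.MT.Main2

/-!
# Tate classes and Hodge classes in the tensors of the cohomology of one degree
-/

open CategoryTheory AlgebraicGeometry TensorProduct

set_option linter.unusedSectionVars false

universe u v w

namespace Pool.Agent.Q60.MV

open Module Matrix
open Pool.Agent.H914 Pool.Agent.H914.VarClass Pool.Agent.H914.VarClass.Obj
  Pool.Agent.H914.WeilCohomology
open Pool.Agent.Y133.Half Pool.Agent.Y121.AH Pool.Agent.Q60.ED Pool.Agent.Q60.TD Pool.Agent.Q55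
open Pool.Agent.Q60.MT
open Pool.Agent.Q60.AB (Blk sm x0 x0_val x0_of x0_inj sum_word tpow_x0 gs gs_mem gs_PH wdF clsF
  phd phd_T phd_Q crdF mem_crdF mem_crdF_succ mem_crdF_zero crdF_mul crdF_perm crdF_contr tens
  tens_eq tens_gr cen_deg NoSkewDeg cls_x0 exists_dbasis)
open Pool.Agent.Q60.HD (wd wd_zero wd_succ wd_prj cls crd mem_crd_succ RealH IsPol phs T_eq_crd
  crd_mul crd_perm crd_contr mem_crd_zero rt rt_spec exists_tensor Qm)

variable {k : Type u} [Field k] {𝒱 : VarClass k} {ops : CycleOps 𝒱} {T : HodgeTheory ops}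
  {W' : WeilCohomology.{u, 0} ops} {C : Artin T.W W'} {X Y Z : 𝒱.Obj} {Γ : Type w} [Group Γ]
  {G : GaloisAction W' Γ}

/-- The Tate classes in the tensors are linear combinations of Hodge classes in the tensors. -/
def TIn (C : Artin T.W W') (G : GaloisAction W' Γ) (X : 𝒱.Obj) (i m : ℕ) : Prop :=
  ∀ c ∈ tens X W' i m, ∀ j, IsTate G (pw X m) j c →
    c ∈ Submodule.span W'.K (C.f (pw X m) '' {x | x ∈ tens X T.W i m ∧ IsHodge T (pw X m) j x})

/-- The Hodge classes in the tensors are Tate classes. -/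
def HIn (C : Artin T.W W') (G : GaloisAction W' Γ) (X : 𝒱.Obj) (i m : ℕ) : Prop :=
  ∀ x ∈ tens X T.W i m, ∀ j, IsHodge T (pw X m) j x → IsTate G (pw X m) j (C.f (pw X m) x)

section

variable {ι : Type} [Fintype ι] [DecidableEq ι] (e : Basis ι T.W.K (T.W.H X))
  (e' : Basis ι W'.K (W'.H X)) (hee : ∀ i, e' i = C.f X (e i)) {dg : ι → ℕ}
  (he : ∀ j, e j ∈ T.W.gr X (dg j)) (he' : ∀ j, e' j ∈ W'.gr X (dg j))
  (hR : RealH T X) {φ : Module.End T.W.K (T.W.H X)} (hφ : IsPol T X φ) (i : ℕ)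

lemma toM_blk (g : (G.ρ X).dom) : Blk (fun j => dg j = i) ((toM G e' he').A g) :=
  fun a b ha hb => (toM G e' he').hom g a b fun h => ha (h.trans hb)

variable (G) in
/-- The representation on the cohomology of degree `i`. -/
noncomputable def Rd : MRep W'.K {j : ι // dg j = i} (G.ρ X).dom :=
  subR (toM G e' he') (fun j => dg j = i) (toM_blk e' he' i)

/-- The class of a tensor. -/
noncomputable def cl {n : ℕ} (f : Fin n → (Z ⟶ X)) :
    ((Fin n → {j : ι // dg j = i}) → W'.K) →ₗ[W'.K] W'.H Z :=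
  clsL e' f ∘ₗ x0L (fun j => dg j = i) n

lemma cl_inj (m : ℕ) : Function.Injective (cl e' (dg := dg) i (prj X m)) := by
  intro s t hst
  have h1 : clsK e' (prj X m) (x0 s) = clsK e' (prj X m) (x0 t) := hst
  exact x0_inj (clsK_inj e' m h1)

lemma cl_sum {n : ℕ} (f : Fin n → (Z ⟶ X)) (t : (Fin n → {j : ι // dg j = i}) → W'.K) :
    cl e' i f t = ∑ w, t w • wdF (gs e' dg i) f w := by
  change clsK e' f (x0 t) = _
  rw [clsK, sum_word (p := fun j => dg j = i) fun w hw => by
    rw [x0_of t hw, zero_smul]]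
  refine Finset.sum_congr rfl fun w _ => ?_
  rw [x0_val]
  rfl

include hee in
lemma cl_bc {n : ℕ} (f : Fin n → (Z ⟶ X)) (t : (Fin n → {j : ι // dg j = i}) → ℚ) :
    cl e' i f (bc W'.K t) = C.f Z (clsF (gs e dg i) f t) := by
  change clsK e' f (x0 (bc W'.K t)) = _
  rw [← x0_bc, C_cls C e e' hee, cls_x0]

lemma mem_TK_deg {m : ℕ} {t : (Fin (m + 1) → {j : ι // dg j = i}) → W'.K} :
    t ∈ TK (Rd G e' he' i) (m + 1) ↔ cl e' i (prj X m) t ∈ (tatePred G).sys.C (pw X m) := by
  rw [Rd, mem_TK_sub, TK_eq, mem_crdK_succ]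
  rfl

include he' in
lemma tens_iff' {m : ℕ} {c : W'.H (pw X m)} :
    c ∈ tens X W' i m ↔ ∃ t, cl e' (dg := dg) i (prj X m) t = c := by
  rw [tens_eq e' he', Submodule.mem_span_range_iff_exists_fun]
  refine exists_congr fun t => ?_
  rw [cl_sum]

include he in
lemma tens_iff {m : ℕ} {c : T.W.H (pw X m)} :
    c ∈ tens X T.W i m ↔ ∃ t, clsF (gs e dg i) (prj X m) t = c := by
  rw [tens_eq e he, Submodule.mem_span_range_iff_exists_fun]
  constructor
  · rintro ⟨r, hr⟩
    refine ⟨fun w => rt T (r w), ?_⟩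
    rw [← hr, clsF]
    exact Finset.sum_congr rfl fun w _ => by rw [rt_spec]
  · rintro ⟨t, rfl⟩
    exact ⟨fun w => (t w : T.W.K), rfl⟩

lemma mem_V {m : ℕ} {t : (Fin (m + 1) → {j : ι // dg j = i}) → ℚ} :
    t ∈ (phd e he hR hφ i).T (m + 1) ↔
      clsF (gs e dg i) (prj X m) t ∈ (hodgeSys T).C (pw X m) := by
  rw [phd_T, mem_crdF_succ]

lemma proj_gr {W : WeilCohomology.{u, v} ops} {Y : 𝒱.Obj} {a : ℕ} {x : W.H Y} (hx : x ∈ W.gr Y a)
    (b : ℕ) : H914.proj (W.isInternal Y) b x = if a = b then x else 0 := by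
  split_ifs with h
  · subst h
    exact proj_same _ hx
  · exact proj_ne _ hx h

/-- Hodge classes in the tensors are Tate classes. -/
lemma hin_of {m : ℕ} (hee : ∀ i, e' i = C.f X (e i))
    (h : ∀ t ∈ (phd e he hR hφ i).T (m + 1), bc W'.K t ∈ TK (Rd G e' he' i) (m + 1)) :
    HIn C G X i m := by
  intro x hx j hj
  obtain ⟨t, rfl⟩ := (tens_iff e he i).1 hx
  have h1 := h t ((mem_V e he hR hφ i).2 (ClassPred.sp_of (Q := hodgePred T) hj))
  rw [mem_TK_deg, cl_bc e e' hee] at h1
  have h2 := ClassPred.sp_proj (Q := tatePred G) h1 j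
  rwa [proj_same _ (Artin.gr (C := C) hj.1)] at h2

lemma of_hin {m : ℕ} (hee : ∀ i, e' i = C.f X (e i)) (h : HIn C G X i m)
    {t : (Fin (m + 1) → {j : ι // dg j = i}) → ℚ} (ht : t ∈ (phd e he hR hφ i).T (m + 1)) :
    bc W'.K t ∈ TK (Rd G e' he' i) (m + 1) := by
  rw [mem_TK_deg, cl_bc e e' hee]
  rw [mem_V] at ht
  have hx : clsF (gs e dg i) (prj X m) t ∈ tens X T.W i m := (tens_iff e he i).2 ⟨t, rfl⟩
  set x := clsF (gs e dg i) (prj X m) t with hxdef
  have h2 : x = ∑ j ∈ Finset.range (((m + 1) * i) + 1),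
      H914.proj (T.W.isInternal (pw X m)) (2 * j) x ∨ x = 0 := by
    by_cases hev : Even ((m + 1) * i)
    · left
      obtain ⟨j, hj⟩ := hev
      rw [Finset.sum_eq_single j]
      · rw [proj_gr (tens_gr _ _ _ _ hx), if_pos (by omega)]
      · intro b _ hb
        rw [proj_gr (tens_gr _ _ _ _ hx), if_neg (by omega)]
      · intro h3
        exact absurd (Finset.mem_range.2 (by omega)) h3
    · right
      have h3 : ∀ y ∈ (hodgeSys T).C (pw X m),
          H914.proj (T.W.isInternal (pw X m)) ((m + 1) * i) y = 0 := by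
        intro y hy
        refine ClassPred.sp_ind (Q := hodgePred T)
          (q := fun y => H914.proj (T.W.isInternal (pw X m)) ((m + 1) * i) y = 0) ?_ ?_ ?_ hy
        · intro j y hy
          rw [proj_gr hy.1, if_neg]
          intro h4
          exact hev ⟨j, by omega⟩
        · exact map_zero _
        · intro y z hy hz
          rw [map_add, hy, hz, add_zero]
      have h4 := h3 x ht
      rwa [proj_gr (tens_gr _ _ _ _ hx), if_pos rfl] at h4
  rcases h2 with h2 | h2
  · rw [h2, map_sum]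
    refine Submodule.sum_mem _ fun j _ => ?_
    have h3 := ClassPred.sp_proj (Q := hodgePred T) ht j
    have h4 : H914.proj (T.W.isInternal (pw X m)) (2 * j) x ∈ tens X T.W i m := by
      rw [proj_gr (tens_gr _ _ _ _ hx)]
      split_ifs
      · exact hx
      · exact Submodule.zero_mem _
    exact ClassPred.sp_of (Q := tatePred G) (h _ h4 j h3)
  · rw [h2, map_zero]
    exact Submodule.zero_mem _

/-- Tate classes in the tensors are combinations of Hodge classes in the tensors. -/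
lemma tin_of {m : ℕ} (hee : ∀ i, e' i = C.f X (e i))
    (h : TK (Rd G e' he' i) (m + 1) ≤ bcS W'.K ((phd e he hR hφ i).T (m + 1))) :
    TIn C G X i m := by
  intro c hc j hj
  obtain ⟨t, rfl⟩ := (tens_iff' e' he' i).1 hc
  have h1 := h (mem_TK_deg (G := G) e' he' i |>.2 (ClassPred.sp_of (Q := tatePred G) hj))
  set S : Submodule W'.K (W'.H (pw X m)) := Submodule.span W'.K (C.f (pw X m) ''
    {x | x ∈ tens X T.W i m ∧ IsHodge T (pw X m) j x}) with hS
  have h2 : bcS W'.K ((phd e he hR hφ i).T (m + 1)) ≤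
      S.comap (H914.proj (W'.isInternal (pw X m)) (2 * j) ∘ₗ cl e' i (prj X m)) := by
    rw [bcS, Submodule.span_le]
    rintro _ ⟨s, hs, rfl⟩
    change H914.proj (W'.isInternal (pw X m)) (2 * j) (cl e' i (prj X m) (bc W'.K s)) ∈ S
    rw [cl_bc e e' hee, proj_C]
    have hs' : s ∈ (phd e he hR hφ i).T (m + 1) := hs
    rw [mem_V] at hs'
    have hx : clsF (gs e dg i) (prj X m) s ∈ tens X T.W i m := (tens_iff e he i).2 ⟨s, rfl⟩
    refine Submodule.subset_span ⟨_, ⟨?_, ClassPred.sp_proj (Q := hodgePred T) hs' j⟩, rfl⟩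
    rw [proj_gr (tens_gr _ _ _ _ hx)]
    split_ifs
    · exact hx
    · exact Submodule.zero_mem _
  have h3 := h2 h1
  change H914.proj (W'.isInternal (pw X m)) (2 * j) (cl e' i (prj X m) t) ∈ S at h3
  rwa [proj_same _ hj.1] at h3

lemma of_tin {m : ℕ} (hev : Even ((m + 1) * i)) (hee : ∀ i, e' i = C.f X (e i))
    (h : TIn C G X i m) :
    TK (Rd G e' he' i) (m + 1) ≤ bcS W'.K ((phd e he hR hφ i).T (m + 1)) := by
  intro t ht
  rw [mem_TK_deg] at ht
  have hc : cl e' (dg := dg) i (prj X m) t ∈ tens X W' i m := (tens_iff' e' he' i).2 ⟨t, rfl⟩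
  obtain ⟨j, hj⟩ := hev
  have h1 := ClassPred.sp_proj (Q := tatePred G) ht j
  have h2 : cl e' (dg := dg) i (prj X m) t ∈ W'.gr (pw X m) (2 * j) := by
    have h3 := tens_gr _ _ _ _ hc
    have h4 : (m + 1) * i = 2 * j := by omega
    rwa [h4] at h3
  rw [proj_same _ h2] at h1
  have h3 := h _ hc j h1
  have h4 : Submodule.span W'.K (C.f (pw X m) '' {x | x ∈ tens X T.W i m ∧
      IsHodge T (pw X m) j x}) ≤
      (bcS W'.K ((phd e he hR hφ i).T (m + 1))).map (cl e' i (prj X m)) := by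
    rw [Submodule.span_le]
    rintro _ ⟨x, ⟨hx, hxj⟩, rfl⟩
    obtain ⟨s, rfl⟩ := (tens_iff e he i).1 hx
    refine ⟨bc W'.K s, ?_, cl_bc e e' hee i _ s⟩
    refine bc_mem ((mem_V e he hR hφ i).2 (ClassPred.sp_of (Q := hodgePred T) hxj))
  obtain ⟨s, hs, hst⟩ := h4 h3
  rwa [← cl_inj e' i m hst]

lemma hev_deg (n : ℕ) {t : (Fin n → {j : ι // dg j = i}) → ℚ}
    (ht : t ∈ (phd e he hR hφ i).T n) (I : Fin n → {j : ι // dg j = i})
    (hI : ¬ Even (∑ k, (Rd G e' he' i).a (I k))) : t I = 0 := by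
  cases n with
  | zero =>
    exact absurd (by rw [Finset.univ_eq_empty, Finset.sum_empty]; exact Even.zero) hI
  | succ m =>
    have h0 : ∑ k, (Rd G e' he' i).a (I k) = (m + 1) * i := by
      have h1 : ∀ k, (Rd G e' he' i).a (I k) = i := fun k => (I k).2
      simp [h1]
    rw [h0] at hI
    rw [mem_V] at ht
    have hx : clsF (gs e dg i) (prj X m) t ∈ tens X T.W i m := (tens_iff e he i).2 ⟨t, rfl⟩
    have h3 : ∀ y ∈ (hodgeSys T).C (pw X m),
        H914.proj (T.W.isInternal (pw X m)) ((m + 1) * i) y = 0 := by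
      intro y hy
      refine ClassPred.sp_ind (Q := hodgePred T)
        (q := fun y => H914.proj (T.W.isInternal (pw X m)) ((m + 1) * i) y = 0) ?_ ?_ ?_ hy
      · intro j y hy
        rw [proj_gr hy.1, if_neg]
        intro h4
        exact hI ⟨j, by omega⟩
      · exact map_zero _
      · intro y z hy hz
        rw [map_add, hy, hz, add_zero]
    have h4 := h3 _ ht
    rw [proj_gr (tens_gr _ _ _ _ hx), if_pos rfl] at h4
    have h5 : x0 (p := fun j => dg j = i) t = 0 := by
      apply Pool.Agent.Q60.FI.cls_inj e m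
      rw [cls_x0, h4]
      have h6 := AB.clsF_zero (W := T.W) (gs e dg i) (prj X m)
      rw [← cls_x0] at h6
      rw [← h6]
      congr 1
      funext w
      by_cases hw : ∀ k, dg (w k) = i
      · simp only [x0, dif_pos hw, Pi.zero_apply]
      · simp only [x0, dif_neg hw, Pi.zero_apply]
    have h6 := congrFun h5 fun k => (I k).1
    rw [x0_val] at h6
    exact h6

lemma x0_tmul {K : Type} [Field K] {p : ι → Prop} [DecidablePred p] {m n : ℕ}
    (s : (Fin m → {j // p j}) → K) (t : (Fin n → {j // p j}) → K) :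
    x0 (ED.tmul s t) = ED.tmul (x0 s) (x0 t) := by
  funext w
  by_cases hw : ∀ k, p (w k)
  · have h1 : ∀ k : Fin m, p (w (Fin.castAdd n k)) := fun k => hw _
    have h2 : ∀ k : Fin n, p (w (Fin.natAdd m k)) := fun k => hw _
    simp only [ED.tmul, x0, dif_pos hw, dif_pos h1, dif_pos h2]
  · rw [x0_of _ hw]
    simp only [ED.tmul]
    by_cases h1 : ∀ k : Fin m, p (w (Fin.castAdd n k))
    · have h2 : ¬ ∀ k : Fin n, p (w (Fin.natAdd m k)) := by
        intro h2
        apply hw
        intro k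
        refine Fin.addCases (fun k => ?_) (fun k => ?_) k
        · exact h1 k
        · exact h2 k
      rw [x0_of t h2, mul_zero]
    · rw [x0_of s h1, zero_mul]

lemma hmul_deg {t : (Fin 2 → {j : ι // dg j = i}) → W'.K} (ht : t ∈ TK (Rd G e' he' i) 2) :
    ED.tmul t t ∈ TK (Rd G e' he' i) 4 := by
  rw [Rd, mem_TK_sub, TK_eq] at ht ⊢
  rw [x0_tmul]
  exact crdK_mul e' ht ht

lemma ss_bot {K V : Type*} [Field K] [AddCommGroup V] [Module K V] (N : Set (Module.End K V)) :
    SSon N (⊥ : Submodule K V) := by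
  intro W hW _
  obtain rfl : W = ⊥ := le_bot_iff.1 hW
  exact ⟨⊥, le_rfl, stab_bot, inf_bot_eq _, sup_bot_eq _⟩

lemma ss_deg (hSS : SemisimpleAt G (X.prod X) (2 * i)) (w : ℕ) :
    SSon (MO (NK (Rd G e' he' i) 2)) (grw (Rd G e' he' i) W'.K 2 w) := by
  by_cases hw : w = 2 * i
  · subst hw
    exact ss_sub (ss_tensor (n := 1) G he' ((ssAt_iff G).1 hSS))
  · have h1 : grw (Rd G e' he' i) W'.K 2 w = ⊥ := by
      rw [eq_bot_iff]
      intro t ht
      rw [Submodule.mem_bot]
      funext I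
      refine ht I ?_
      have h1 : ∀ k, (Rd G e' he' i).a (I k) = i := fun k => (I k).2
      simp only [h1, Finset.sum_const, Finset.card_univ, Fintype.card_fin, smul_eq_mul]
      exact fun h => hw h.symm
    rw [h1]
    exact ss_bot _

include he in
lemma exists_psys : ∃ C' : PSys (phd e he hR hφ i).Q, ∀ n, C'.S n = (phd e he hR hφ i).T n := by
  have hT : ∀ m, (phd e he hR hφ i).T m = crdF (gs e dg i) (hodgeSys T) m := phd_T e he hR hφ i
  have hg : ∀ j, gs e dg i j ∈ PH T.W X i := gs_PH e he i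
  exact ⟨{ S := crdF (gs e dg i) (hodgeSys T)
           one := mem_crdF_zero _ _
           mul := fun hs ht => crdF_mul hs ht
           perm := fun σ _ ht => crdF_perm hg σ ht
           contr := fun hs ht => crdF_contr hg hφ.mem (phd_Q e he hR hφ i) hs ht
           cas := by
             rw [← hT]
             exact PHS.Om_mem }, fun n => (hT n).symm⟩

end

/-- **Hodge classes in the tensors of the cohomology of degree `i` are Tate classes** if those in
the tensors of degree four are. -/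
theorem hin_all (hR : RealH T X) {φ : Module.End T.W.K (T.W.H X)} (hφ : IsPol T X φ) (i : ℕ)
    (hns : NoSkewDeg T X i φ) (h4 : HIn C G X i 3) (m : ℕ) : HIn C G X i m := by
  classical
  obtain ⟨e, dg, he⟩ := exists_dbasis T.W X
  obtain ⟨e', hee⟩ := exists_eX C T.rat e
  have he' : ∀ j, e' j ∈ W'.gr X (dg j) := he_gr e e' hee he
  obtain ⟨C', hC'⟩ := exists_psys e he hR hφ i
  refine hin_of e e' he he' hR hφ i hee fun t ht => ?_
  exact ht_core (Rd G e' he' i) (phd e he hR hφ i) C' hC'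
    (fun c hc hcom hsk => cen_deg e he hR hφ i hns c hc hcom hsk)
    (fun n t ht I hI => hev_deg e e' he he' hR hφ i n ht I hI)
    (fun t ht => of_hin e e' he he' hR hφ i hee h4 ht) ht

/-- **The Mumford-Tate conjecture for the cohomology of degree `i`** follows from its part on
tensors of degree four. -/
theorem mt_all (hR : RealH T X) {φ : Module.End T.W.K (T.W.H X)} (hφ : IsPol T X φ) (i : ℕ)
    (hns : NoSkewDeg T X i φ) (hSS : SemisimpleAt G (X.prod X) (2 * i)) (h4 : HIn C G X i 3)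
    (h4' : TIn C G X i 3) (m : ℕ) : TIn C G X i m ∧ HIn C G X i m := by
  classical
  obtain ⟨e, dg, he⟩ := exists_dbasis T.W X
  obtain ⟨e', hee⟩ := exists_eX C T.rat e
  have he' : ∀ j, e' j ∈ W'.gr X (dg j) := he_gr e e' hee he
  obtain ⟨C', hC'⟩ := exists_psys e he hR hφ i
  have key := mt_core (Rd G e' he' i) (phd e he hR hφ i) C' hC'
    (fun c hc hcom hsk => cen_deg e he hR hφ i hns c hc hcom hsk)
    (fun n t ht I hI => hev_deg e e' he he' hR hφ i n ht I hI)
    (fun t ht => hmul_deg e' he' i ht) (fun w _ => ss_deg e' he' i hSS w)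
    (fun t ht => of_hin e e' he he' hR hφ i hee h4 ht)
    (of_tin e e' he he' hR hφ i ⟨2 * i, by ring⟩ hee h4') (m + 1)
  refine ⟨tin_of e e' he he' hR hφ i hee key.le, hin_of e e' he he' hR hφ i hee fun t ht => ?_⟩
  rw [key]
  exact bc_mem ht

end Pool.Agent.Q60.MV
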