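import Pool.Agent.Q60.MV.Deg

/-!
# Varieties whose cohomology is generated in degree one

For such a variety `X` the Tate classes on the powers of `X` are sums of images of Tate tensors in
the tensor powers of `H^1(X)`.
-/

open CategoryTheory AlgebraicGeometry TensorProduct

set_option linter.unusedSectionVars false

universe u v w

namespace Pool.Agent.Q60.MV

open Module Matrix
open Pool.Agent.H914 Pool.Agent.H914.VarClass Pool.Agent.H914.VarClass.Obj
  Pool.Agent.H914.WeilCohomology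
open Pool.Agent.Y133.Half Pool.Agent.Y121.AH Pool.Agent.Q60.ED Pool.Agent.Q60.TD Pool.Agent.Q55
open Pool.Agent.Q60.AB (Blk sm x0 x0_val x0_of x0_inj sum_word tpow_x0 gs gs_mem wdF wdF_zero
  wdF_succ wdF_append span_gs)

/-- Lifting of invariant elements through a family of equivariant maps. -/
theorem lift_inv {K V H E F : Type*} [Field K] [AddCommGroup V] [Module K V] [AddCommGroup H]
    [Module K H] (ρ : E → Module.End K V) (σ : E → Module.End K H) (Φ : F → V →ₗ[K] H)
    (hΦ : ∀ g f t, σ g (Φ f t) = Φ f (ρ g t)) (hss : SSon (Set.range ρ) ⊤) (l : E → K)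
    (s : Finset F) (c : H) (hc : c ∈ ⨆ f ∈ s, LinearMap.range (Φ f))
    (hinv : ∀ g, σ g c = l g • c) :
    ∃ t : F → V, (∀ f g, ρ g (t f) = l g • t f) ∧ c = ∑ f ∈ s, Φ f (t f) := by
  classical
  induction s using Finset.induction_on generalizing c with
  | empty =>
    refine ⟨fun _ => 0, fun f g => by rw [map_zero, smul_zero], ?_⟩
    rw [Finset.sum_empty]
    simpa using hc
  | insert a s ha ih =>
    rw [Finset.iSup_insert] at hc
    obtain ⟨_, ⟨u, rfl⟩, m, hm, hum⟩ := Submodule.mem_sup.1 hc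
    set M : Submodule K H := ⨆ f ∈ s, LinearMap.range (Φ f) with hM
    have hMs : ∀ g, M ≤ M.comap (σ g) := by
      intro g
      rw [hM]
      refine iSup₂_le fun f hf => ?_
      rintro _ ⟨t, rfl⟩
      rw [Submodule.mem_comap, hΦ]
      exact Submodule.mem_iSup_of_mem f (Submodule.mem_iSup_of_mem hf ⟨_, rfl⟩)
    have hN : Stab (Set.range ρ) (M.comap (Φ a)) := by
      rintro _ ⟨g, rfl⟩ t ht
      rw [Submodule.mem_comap] at ht ⊢
      rw [← hΦ]
      exact hMs g ht
    obtain ⟨N', -, hN', h1, h2⟩ := hss _ le_top hN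
    have hu : u ∈ M.comap (Φ a) ⊔ N' := by rw [h2]; exact Submodule.mem_top
    obtain ⟨n, hn, n', hn', rfl⟩ := Submodule.mem_sup.1 hu
    have hinv' : ∀ g, ρ g n' = l g • n' := by
      intro g
      rw [← sub_eq_zero]
      have h3 : ρ g n' - l g • n' ∈ M.comap (Φ a) := by
        rw [Submodule.mem_comap, map_sub, map_smul, ← hΦ]
        have h4 : Φ a n' = c - (Φ a n + m) := by
          rw [← hum, map_add]
          abel
        have h5 : Φ a n + m ∈ M := M.add_mem hn hm
        rw [h4, map_sub, hinv g, smul_sub]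
        have h6 : l g • c - σ g (Φ a n + m) - (l g • c - l g • (Φ a n + m)) =
            l g • (Φ a n + m) - σ g (Φ a n + m) := by abel
        rw [h6]
        exact M.sub_mem (M.smul_mem _ h5) (hMs g h5)
      have h4 : ρ g n' - l g • n' ∈ N' := N'.sub_mem (hN' _ ⟨g, rfl⟩ n' hn') (N'.smul_mem _ hn')
      have h5 : ρ g n' - l g • n' ∈ M.comap (Φ a) ⊓ N' := ⟨h3, h4⟩
      rwa [h1, Submodule.mem_bot] at h5
    have hm' : Φ a n + m ∈ M := M.add_mem hn hm
    have hc' : c - Φ a n' = Φ a n + m := by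
      rw [← hum, map_add]
      abel
    obtain ⟨t, ht1, ht2⟩ := ih (c - Φ a n') (by rw [hc']; exact hm') (fun g => by
      rw [map_sub, hinv g, hΦ, hinv' g, map_smul, smul_sub])
    refine ⟨Function.update t a n', fun f g => ?_, ?_⟩
    · by_cases hf : f = a
      · subst hf
        rw [Function.update_self]
        exact hinv' g
      · rw [Function.update_of_ne hf]
        exact ht1 f g
    · rw [Finset.sum_insert ha, Function.update_self]
      have h3 : ∑ f ∈ s, Φ f (Function.update t a n' f) = ∑ f ∈ s, Φ f (t f) := by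
        refine Finset.sum_congr rfl fun f hf => ?_
        rw [Function.update_of_ne]
        rintro rfl
        exact ha hf
      rw [h3, ← ht2]
      abel

variable {k : Type u} [Field k] {𝒱 : VarClass k} {ops : CycleOps 𝒱}

section gen

variable {W : WeilCohomology.{u, 0} ops} {X Y Z : 𝒱.Obj} {ι : Type} [Fintype ι] [DecidableEq ι]
  (e : Basis ι W.K (W.H X)) {dg : ι → ℕ} (he : ∀ j, e j ∈ W.gr X (dg j))

/-- The cohomology of the powers is generated by the pull-backs of the classes of degree one. -/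
lemma adj_pw (h : ∀ c : W.H X, c ∈ Algebra.adjoin W.K (W.gr X 1 : Set (W.H X))) (n : ℕ) :
    ∀ c : W.H (pw X n), c ∈ Algebra.adjoin W.K
      {y : W.H (pw X n) | ∃ i, ∃ x ∈ W.gr X 1, y = W.map (prj X n i) x} := by
  classical
  induction n with
  | zero =>
    intro c
    refine Algebra.adjoin_mono ?_ (h c)
    intro x hx
    refine ⟨0, x, hx, ?_⟩
    rw [prj_zero]
    exact (W.map_id _ _).symm
  | succ n ih =>
    obtain ⟨e, -⟩ : ∃ e : Basis (Fin (finrank W.K (W.H X))) W.K (W.H X), True :=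
      ⟨Module.finBasis W.K (W.H X), trivial⟩
    intro c
    rw [← (wb e (n + 1)).sum_repr c]
    refine Subalgebra.sum_mem _ fun w _ => Subalgebra.smul_mem _ ?_ _
    rw [wb_succ]
    refine Subalgebra.mul_mem _ ?_ ?_
    · have h1 : Algebra.adjoin W.K {y : W.H (pw X n) | ∃ i, ∃ x ∈ W.gr X 1,
          y = W.map (prj X n i) x} ≤ (Algebra.adjoin W.K {y : W.H (pw X (n + 1)) | ∃ i,
            ∃ x ∈ W.gr X 1, y = W.map (prj X (n + 1) i) x}).comap (W.map (pfst X n)) := by
        rw [Algebra.adjoin_le_iff]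
        rintro _ ⟨i, x, hx, rfl⟩
        refine Algebra.subset_adjoin ⟨i.castSucc, x, hx, ?_⟩
        rw [prj_castSucc, W.map_comp]
        rfl
      exact h1 (ih _)
    · have h1 : Algebra.adjoin W.K (W.gr X 1 : Set (W.H X)) ≤
          (Algebra.adjoin W.K {y : W.H (pw X (n + 1)) | ∃ i,
            ∃ x ∈ W.gr X 1, y = W.map (prj X (n + 1) i) x}).comap (W.map (psnd X n)) := by
        rw [Algebra.adjoin_le_iff]
        intro x hx
        refine Algebra.subset_adjoin ⟨Fin.last _, x, hx, ?_⟩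
        rw [prj_last]
        rfl
      exact h1 (h _)

/-- The products of the pull-backs of `m` basis elements of degree one. -/
def mono1 (dg : ι → ℕ) (n m : ℕ) : Set (W.H (pw X n)) :=
  {y | ∃ (f : Fin m → Fin (n + 1)) (w : Fin m → {j : ι // dg j = 1}),
    y = wdF (gs e dg 1) (fun i => prj X n (f i)) w}

include he in
lemma mono1_gr (n m : ℕ) : Submodule.span W.K (mono1 e dg n m) ≤ W.gr (pw X n) m := by
  rw [Submodule.span_le]
  rintro _ ⟨f, w, rfl⟩
  have h1 := wd_gr e he (fun i => prj X n (f i)) (fun i => (w i).1)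
  have h2 : ∑ i, dg (w i).1 = m := by
    have : ∀ i, dg (w i).1 = 1 := fun i => (w i).2
    simp [this]
  rw [h2] at h1
  exact h1

lemma mono1_mul (n m m' : ℕ) {x y : W.H (pw X n)} (hx : x ∈ Submodule.span W.K (mono1 e dg n m))
    (hy : y ∈ Submodule.span W.K (mono1 e dg n m')) :
    x * y ∈ Submodule.span W.K (mono1 e dg n (m + m')) := by
  have h1 : Submodule.span W.K (mono1 e dg n m) * Submodule.span W.K (mono1 e dg n m') ≤
      Submodule.span W.K (mono1 e dg n (m + m')) := by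
    rw [Submodule.span_mul_span, Submodule.span_le]
    rintro _ ⟨_, ⟨f, w, rfl⟩, _, ⟨f', w', rfl⟩, rfl⟩
    refine Submodule.subset_span ⟨Fin.append f f', Fin.append w w', ?_⟩
    have h2 : (fun i => prj X n (Fin.append f f' i)) =
        Fin.append (fun i => prj X n (f i)) (fun i => prj X n (f' i)) := by
      funext i
      refine Fin.addCases (fun i => ?_) (fun j => ?_) i
      · rw [Fin.append_left, Fin.append_left]
      · rw [Fin.append_right, Fin.append_right]
    rw [h2, wdF_append]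
    simp only [Fin.append_left, Fin.append_right]
  exact h1 (Submodule.mul_mem_mul hx hy)

include he in
/-- The classes of degree `m` on a power are combinations of products of `m` pull-backs. -/
lemma span_mono1 (h : ∀ c : W.H X, c ∈ Algebra.adjoin W.K (W.gr X 1 : Set (W.H X))) (n m : ℕ)
    {c : W.H (pw X n)} (hc : c ∈ W.gr (pw X n) m) : c ∈ Submodule.span W.K (mono1 e dg n m) := by
  have h1 : ∀ y ∈ Submonoid.closure {y : W.H (pw X n) | ∃ i, ∃ x ∈ W.gr X 1,
      y = W.map (prj X n i) x}, ∃ m, y ∈ Submodule.span W.K (mono1 e dg n m) := by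
    intro y hy
    induction hy using Submonoid.closure_induction with
    | mem y hy =>
      obtain ⟨i, x, hx, rfl⟩ := hy
      refine ⟨1, ?_⟩
      rw [span_gs e he 1] at hx
      have h2 : Submodule.span W.K (Set.range (gs e dg 1)) ≤
          (Submodule.span W.K (mono1 e dg n 1)).comap (W.map (prj X n i)).toLinearMap := by
        rw [Submodule.span_le]
        rintro _ ⟨j, rfl⟩
        refine Submodule.subset_span ⟨fun _ => i, fun _ => j, ?_⟩
        rw [wdF_succ, wdF_zero, mul_one]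
        rfl
      exact h2 hx
    | one =>
      refine ⟨0, Submodule.subset_span ⟨Fin.elim0, Fin.elim0, ?_⟩⟩
      rw [wdF_zero]
    | mul x y _ _ hx hy =>
      obtain ⟨m, hm⟩ := hx
      obtain ⟨m', hm'⟩ := hy
      exact ⟨m + m', mono1_mul e n m m' hm hm'⟩
  have h2 : ∀ y : W.H (pw X n), ∀ m, H914.proj (W.isInternal (pw X n)) m y ∈
      Submodule.span W.K (mono1 e dg n m) := by
    intro y
    have hy := adj_pw h n y
    rw [← Subalgebra.mem_toSubmodule, Algebra.adjoin_eq_span] at hy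
    induction hy using Submodule.span_induction with
    | mem y hy =>
      intro m
      obtain ⟨m', hm'⟩ := h1 y hy
      rw [proj_gr (mono1_gr e he n m' hm')]
      split_ifs with hmm
      · rw [← hmm]
        exact hm'
      · exact Submodule.zero_mem _
    | zero => intro m; rw [map_zero]; exact Submodule.zero_mem _
    | add x y _ _ hx hy => intro m; rw [map_add]; exact Submodule.add_mem _ (hx m) (hy m)
    | smul a x _ hx => intro m; rw [map_smul]; exact Submodule.smul_mem _ _ (hx m)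
  have h3 := h2 c m
  rwa [proj_same _ hc] at h3

end gen

section tate

variable {W : WeilCohomology.{u, 0} ops} {X Y Z : 𝒱.Obj} {ι : Type} [Fintype ι] [DecidableEq ι]
  (e : Basis ι W.K (W.H X)) {dg : ι → ℕ} (he : ∀ j, e j ∈ W.gr X (dg j)) {Γ : Type w} [Group Γ]
  {G : GaloisAction W Γ}

/-- The subgroup which acts compatibly with a finite family of morphisms. -/
lemma exists_good' (X Z : 𝒱.Obj) {F : Type*} [Finite F] (f : F → (Z ⟶ X)) :
    ∃ Δ : Subgroup Γ, Δ.FiniteIndex ∧ ∀ g ∈ Δ, g ∈ (G.ρ X).dom ∧ g ∈ (G.ρ Z).dom ∧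
      ∀ i, (G.ρ Z).Commutes (G.ρ X) (W.map (f i)) g := by
  choose D hD h using fun i => G.map_act (f i)
  have h1 := (G.isGalois X).finiteIndex
  have h2 := (G.isGalois Z).finiteIndex
  have h3 : (⨅ i, D i).FiniteIndex := Subgroup.finiteIndex_iInf hD
  refine ⟨(G.ρ X).dom ⊓ (G.ρ Z).dom ⊓ ⨅ i, D i, inferInstance, ?_⟩
  rintro g ⟨⟨hg1, hg2⟩, hg3⟩
  refine ⟨hg1, hg2, fun i => h i g ?_⟩
  exact (Subgroup.mem_iInf.1 hg3) i

/-- All tensors in degree one have the same weight. -/
lemma grw_top (m : ℕ) : grw (Rd G e he 1) W.K m m = ⊤ := by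
  rw [eq_top_iff]
  intro t _ I hI
  refine absurd ?_ hI
  have h1 : ∀ k, (Rd G e he 1).a (I k) = 1 := fun k => (I k).2
  simp [h1]

/-- The action on the class of a tensor. -/
lemma act_cl {i : ℕ} {g : Γ} (hX : g ∈ (G.ρ X).dom) (hZ : g ∈ (G.ρ Z).dom) {n : ℕ}
    (f : Fin n → (Z ⟶ X)) (hf : ∀ i, (G.ρ Z).Commutes (G.ρ X) (W.map (f i)) g)
    (t : (Fin n → {j : ι // dg j = i}) → W.K) :
    (G.ρ Z).act g (cl e i f t) = cl e i f (tpow ((Rd G e he i).A ⟨g, hX⟩) n t) := by
  have h1 := act_cls G e hX hZ f hf (x0 t)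
  have h2 : tpow (Am G e ⟨g, hX⟩) n (x0 t) = x0 (tpow ((Rd G e he i).A ⟨g, hX⟩) n t) :=
    tpow_x0 (toM_blk (G := G) e he i ⟨g, hX⟩) t
  rw [h2] at h1
  exact h1

/-- The representation on tensors. -/
noncomputable def repR {K : Type} [Field K] {κ : Type} [Fintype κ] [DecidableEq κ] {D : Type*}
    [Group D] (R : MRep K κ D) (n : ℕ) : D →* Module.End K ((Fin n → κ) → K) where
  toFun g := tpow (R.A g) n
  map_one' := by
    rw [map_one]
    exact LinearMap.ext fun t => tpow_one _ t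
  map_mul' g h := by
    rw [map_mul]
    exact LinearMap.ext fun t => tpow_mul _ _ _ t

lemma op_repR {K : Type} [Field K] {κ : Type} [Fintype κ] [DecidableEq κ] {D : Type*}
    [Group D] (R : MRep K κ D) (n : ℕ) : Op (repR R n) ⊤ = MO (NK R n) := by
  ext f
  constructor
  · rintro ⟨g, _, rfl⟩
    exact ⟨_, ⟨g, rfl⟩, rfl⟩
  · rintro ⟨_, ⟨g, rfl⟩, rfl⟩
    exact ⟨g, Subgroup.mem_top _, rfl⟩

lemma ss_repR {K : Type} [Field K] [CharZero K] {κ : Type} [Fintype κ] [DecidableEq κ]
    {D : Type*} [Group D] (R : MRep K κ D) (n : ℕ) (hss : SSon (MO (NK R n)) ⊤) (E : Subgroup D)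
    [E.FiniteIndex] : SSon (Set.range fun g : E => repR R n g.1) ⊤ := by
  have h1 : SSon (Op (repR R n) E) ⊤ := ss_finiteIndex _ (fun _ _ _ _ => Submodule.mem_top) (by
    rw [op_repR]
    exact hss)
  have h2 : (Set.range fun g : E => repR R n g.1) = Op (repR R n) E := by
    ext f
    constructor
    · rintro ⟨g, rfl⟩
      exact ⟨g.1, g.2, rfl⟩
    · rintro ⟨g, hg, rfl⟩
      exact ⟨⟨g, hg⟩, rfl⟩
  rw [h2]
  exact h1

lemma mem_TK_of_eig {i m j : ℕ} (hm : m * i = 2 * j) {t : (Fin m → {j : ι // dg j = i}) → W.K}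
    (E : Subgroup (G.ρ X).dom) [hE : E.FiniteIndex]
    (h : ∀ g : E, repR (Rd G e he i) m g.1 t = (G.χ (g.1 : Γ) : W.K) ^ j • t) :
    t ∈ TK (Rd G e he i) m := by
  refine ⟨E, hE, fun g hg I => ?_⟩
  have h1 := congrFun (h ⟨g, hg⟩) I
  have h2 : ∀ I : Fin m → {j : ι // dg j = i}, ∑ k, (Rd G e he i).a (I k) = 2 * j := by
    intro I
    have h1 : ∀ k, (Rd G e he i).a (I k) = i := fun k => (I k).2
    rw [← hm]
    simp [h1]
  have h3 : ∀ J, cE (Rd G e he i) I J g =
      ((G.χ (g : Γ) : W.K)⁻¹) ^ j * ∏ k, (Rd G e he i).A g (I k) (J k) := by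
    intro J
    have h4 : (∑ k, (Rd G e he i).a (I k)) / 2 = j := by
      rw [h2]
      omega
    rw [cE, if_pos (by rw [h2]; exact even_two_mul j), h4]
    rfl
  simp only [h3, mul_assoc]
  rw [← Finset.mul_sum]
  have h5 : tpow ((Rd G e he i).A g) m t I = (G.χ (g : Γ) : W.K) ^ j * t I := h1
  rw [tpow_apply] at h5
  rw [h5, ← mul_assoc, ← mul_pow, inv_mul_cancel₀ (Units.ne_zero _), one_pow, one_mul]

include he in
lemma mem_range_cl (h : ∀ c : W.H X, c ∈ Algebra.adjoin W.K (W.gr X 1 : Set (W.H X))) (n m : ℕ)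
    {c : W.H (pw X n)} (hc : c ∈ W.gr (pw X n) m) :
    c ∈ ⨆ f ∈ (Finset.univ : Finset (Fin m → Fin (n + 1))),
      LinearMap.range (cl e (dg := dg) 1 (fun i => prj X n (f i))) := by
  have h1 : Submodule.span W.K (mono1 e dg n m) ≤
      ⨆ f ∈ (Finset.univ : Finset (Fin m → Fin (n + 1))),
        LinearMap.range (cl e (dg := dg) 1 (fun i => prj X n (f i))) := by
    rw [Submodule.span_le]
    rintro _ ⟨f, w, rfl⟩
    refine Submodule.mem_iSup_of_mem f (Submodule.mem_iSup_of_mem (Finset.mem_univ _) ?_)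
    refine ⟨Pi.single w 1, ?_⟩
    rw [cl_sum, Finset.sum_eq_single w]
    · rw [Pi.single_eq_same, one_smul]
    · intro w' _ hw'
      rw [Pi.single_eq_of_ne hw', zero_smul]
    · intro hw
      exact absurd (Finset.mem_univ _) hw
  exact h1 (span_mono1 e he h n _ hc)

/-- **Tate classes on the powers come from Tate tensors in degree one.** -/
theorem tate_gen (h : ∀ c : W.H X, c ∈ Algebra.adjoin W.K (W.gr X 1 : Set (W.H X))) {n j : ℕ}
    (hss : SSon (MO (NK (Rd G e he 1) (2 * j))) ⊤) {c : W.H (pw X n)}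
    (hc : IsTate G (pw X n) j c) :
    ∃ t : (Fin (2 * j) → Fin (n + 1)) → ((Fin (2 * j) → {j : ι // dg j = 1}) → W.K),
      (∀ f, t f ∈ TK (Rd G e he 1) (2 * j)) ∧
        c = ∑ f, cl e 1 (fun i => prj X n (f i)) (t f) := by
  classical
  obtain ⟨hgr, Δ, hΔ, hfix⟩ := hc
  obtain ⟨Δ', hΔ', h'⟩ := exists_good' (G := G) X (pw X n) (fun i => prj X n i)
  have key := lift_inv
    (fun g : (Δ ⊓ Δ').subgroupOf (G.ρ X).dom => repR (Rd G e he 1) (2 * j) g.1)
    (fun g : (Δ ⊓ Δ').subgroupOf (G.ρ X).dom => ((G.ρ (pw X n)).act (g.1 : Γ)).toLinearMap)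
    (fun f : Fin (2 * j) → Fin (n + 1) => cl e (dg := dg) 1 (fun i => prj X n (f i)))
    (fun g f t => by
      have hg : (g.1 : Γ) ∈ Δ ⊓ Δ' := g.2
      obtain ⟨ha, hb, hcm⟩ := h' _ hg.2
      exact act_cl e he ha hb (fun i => prj X n (f i)) (fun i => hcm (f i)) t)
    (ss_repR _ _ hss _) (fun g => (G.χ (g.1 : Γ) : W.K) ^ j)
    Finset.univ c (mem_range_cl e he h n _ hgr) (fun g => by
      have hg : (g.1 : Γ) ∈ Δ ⊓ Δ' := g.2
      exact hfix _ hg.1 (h' _ hg.2).2.1)
  obtain ⟨t, ht1, ht2⟩ := key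
  exact ⟨t, fun f => mem_TK_of_eig e he (by rw [mul_one]) _ (ht1 f), ht2⟩

end tate

end Pool.Agent.Q60.MV
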