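import Pool.Agent.Q60.MV.Tool

/-!
# Hodge tensors and the Lie algebra of the Mumford-Tate group
-/

set_option linter.unusedSectionVars false

namespace Pool.Agent.Q60.MV

open Module Matrix Pool.Agent.Q60.ED Pool.Agent.Q60.NP Pool.Agent.Q60.TD Pool.Agent.Q60.FI
  Pool.Agent.Q60.TP

variable {ι : Type} [Fintype ι] [DecidableEq ι] (V : PHS ι)

/-- A tensor which is annihilated by the derivative of the action is invariant. -/
theorem mem_of_dl {n : ℕ} {t : (Fin n → ι) → ℚ} (h : aop (PH.dl V) (cx t) = 0) : t ∈ V.T n := by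
  rw [PHS.mem_T]
  intro z hz
  funext I
  -- the derivative at one
  have h0 : ∀ J, HasDerivAt (fun z : ℂ => tpow (V.c z) n (cx t) J) 0 1 := by
    intro J
    have h1 := PH.hasDeriv_ev V (xt (cx t) J)
    rw [dA_xt, evM_one_xt, h, Pi.zero_apply] at h1
    simpa only [evM_xt] using h1
  -- the derivative at all points
  have h1 : ∀ z : ℂ, z ≠ 0 → ∀ J, HasDerivAt (fun z : ℂ => tpow (V.c z) n (cx t) J) 0 z := by
    intro z hz J
    have h2 : HasDerivAt (fun u : ℂ => ∑ J', (∏ k, V.c z (J k) (J' k)) *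
        tpow (V.c u) n (cx t) J') 0 1 := by
      have h3 := HasDerivAt.fun_sum (u := Finset.univ) fun J' _ =>
        (h0 J').const_mul (∏ k, V.c z (J k) (J' k))
      simpa using h3
    have h3 : HasDerivAt (fun v : ℂ => v / z) (1 / z) z := by
      simpa using (hasDerivAt_id z).div_const z
    have h4 : HasDerivAt (fun u : ℂ => ∑ J', (∏ k, V.c z (J k) (J' k)) *
        tpow (V.c u) n (cx t) J') 0 (z / z) := by
      rw [div_self hz]
      exact h2
    have h5 := HasDerivAt.comp (h := fun v : ℂ => v / z) z h4 h3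
    rw [zero_mul] at h5
    refine h5.congr_of_eventuallyEq ?_
    have h6 : ∀ᶠ v : ℂ in nhds z, v ≠ 0 := isOpen_ne.mem_nhds hz
    filter_upwards [h6] with v hv
    have h7 : V.c v = V.c z * V.c (v / z) := by
      have h8 := V.mul z (v / z) hz (div_ne_zero hv hz)
      rw [mul_div_cancel₀ v hz] at h8
      exact h8
    rw [Function.comp_apply, h7, tpow_mul, tpow_apply]
  have h2 : IsOpen ({0}ᶜ : Set ℂ) := isOpen_compl_singleton
  have h3 : IsPreconnected ({0}ᶜ : Set ℂ) := by
    apply IsConnected.isPreconnected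
    apply isConnected_compl_singleton_of_one_lt_rank
    rw [Complex.rank_real_complex]
    norm_num
  have h4 := h2.is_const_of_deriv_eq_zero h3 (f := fun z : ℂ => tpow (V.c z) n (cx t) I)
    (fun z hz => (h1 z hz I).differentiableAt.differentiableWithinAt)
    (fun z hz => (h1 z hz I).deriv) (x := z) (y := 1) hz (by simp)
  beta_reduce at h4
  rw [h4, PHS.c_one, tpow_one]

/-- A tensor which is annihilated by the Lie algebra is invariant. -/
theorem mem_T_of_Lie {n : ℕ} {t : (Fin n → ι) → ℚ} (h : ∀ B, Lie V.T B → aop B t = 0) :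
    t ∈ V.T n := by
  apply mem_of_dl
  funext I
  apply eq_zero_of_forms (K := ℚ)
  intro l
  rw [PH.cx_eq_bc, aop_form, h _ (PH.form_dl V l)]
  rfl

/-- The same over an extension of the field of rational numbers. -/
theorem mem_bc_of_Lie {K : Type} [Field K] [Algebra ℚ K] {n : ℕ} {t : (Fin n → ι) → K}
    (h : ∀ B : Matrix ι ι ℚ, Lie V.T B → aop (B.map (algebraMap ℚ K)) t = 0) :
    t ∈ bcS K (V.T n) := by
  apply mem_bcS
  intro l
  apply mem_T_of_Lie
  intro B hB
  rw [← aop_form', h B hB]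
  funext I
  exact map_zero l

/-- **A matrix which annihilates the Hodge tensors of degree four annihilates all Hodge tensors.** -/
theorem hodge_lie (hcen : ∀ c : Matrix ι ι ℚ, tv V.Q c ∈ V.T 2 →
      (∀ a, tv V.Q a ∈ V.T 2 → a * c = c * a) → (∀ s ∈ V.T 2, aop c s = 0) → c = 0)
    (C' : PSys V.Q) (hC' : ∀ n, C'.S n = V.T n) {x : Matrix ι ι ℚ}
    (hx : ∀ s ∈ V.T 4, aop x s = 0) : Lie V.T x := by
  have hQ := PHS.det_Q (V := V)
  have hS' : (toC C').S = V.T := funext hC'
  have hnd : ∀ n, ∀ v ∈ V.T n, (∀ w ∈ V.T n, bf (TP V.Q n) v w = 0) → v = 0 :=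
    fun n v hv h => PHS.pos_T hv (h v hv)
  obtain ⟨P, hP, hP1, hP2⟩ := exists_P hQ (C' := toC C') (by rw [hS']; exact hnd)
  let 𝔤 : Submodule ℚ (Matrix ι ι ℚ) :=
    { carrier := {A | Lie V.T A}
      add_mem' := fun {a b} ha hb m s hs => by
        funext I
        have h1 := (aopL s I).map_add a b
        rw [aopL_apply, aopL_apply, aopL_apply, ha m s hs, hb m s hs] at h1
        rw [h1]; simp
      zero_mem' := fun m s hs => by
        funext I
        exact (aopL s I).map_zero
      smul_mem' := fun c a ha m s hs => by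
        funext I
        have h1 := (aopL s I).map_smul c a
        rw [aopL_apply, aopL_apply, ha m s hs] at h1
        rw [h1]; simp }
  rw [hS'] at hP1 hP2
  exact lie_mem4 (𝔤 := 𝔤) hQ (C := toC C') hP (fun B hB m s hs => by
      rw [hS'] at hs
      exact hB m s hs) hP1 hP2
    (fun c hc _ => by
      rw [hS']
      exact PH.tv_mem V hc) (by rw [hS']; exact hcen) (by rw [hS']; exact hx)

/-- A matrix over an extension of the field of rational numbers which annihilates the Hodge tensors
of degree four annihilates all Hodge tensors. -/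
theorem hodge_lie_bc (hcen : ∀ c : Matrix ι ι ℚ, tv V.Q c ∈ V.T 2 →
      (∀ a, tv V.Q a ∈ V.T 2 → a * c = c * a) → (∀ s ∈ V.T 2, aop c s = 0) → c = 0)
    (C' : PSys V.Q) (hC' : ∀ n, C'.S n = V.T n) {L : Type} [Field L] [Algebra ℚ L]
    {x : Matrix ι ι L} (hx : ∀ s ∈ V.T 4, aop x (bc L s) = 0) {n : ℕ}
    {t : (Fin n → ι) → ℚ} (ht : t ∈ V.T n) : aop x (bc L t) = 0 := by
  funext I
  apply eq_zero_of_forms (K := ℚ)
  intro l
  rw [aop_form]
  have h1 : Lie V.T (Matrix.of fun i j => l (x i j)) := hodge_lie V hcen C' hC' (fun s hs => by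
    funext J
    rw [← aop_form, hx s hs]
    exact map_zero l)
  rw [h1 n t ht]
  rfl

end Pool.Agent.Q60.MV
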