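import Pool.Agent.Q60.MV.Gen1

/-!
# Components of Hodge tensors
-/

open CategoryTheory AlgebraicGeometry TensorProduct

set_option linter.unusedSectionVars false

universe u v w

namespace Pool.Agent.Q60.MV

open Module Matrix
open Pool.Agent.H914 Pool.Agent.H914.VarClass Pool.Agent.H914.VarClass.Obj
  Pool.Agent.H914.WeilCohomology
open Pool.Agent.Y133.Half Pool.Agent.Y121.AH Pool.Agent.Q60.ED Pool.Agent.Q60.TD Pool.Agent.Q55
open Pool.Agent.Q60.MT
open Pool.Agent.Q60.AB (Blk sm sm_apply x0 x0_val x0_of x0_inj sum_word tpow_x0 gs wdF clsF phd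
  phd_T phd_c phs_zero crdF mem_crdF tens tens_eq tens_gr)
open Pool.Agent.Q60.HD (RealH IsPol phs T_eq_crd mem_crd_succ cls)

section res

variable {K : Type} [Field K] {ι : Type} [Fintype ι] [DecidableEq ι] {p : ι → Prop}
  [DecidablePred p]

/-- The restriction of a tensor to a part of the basis. -/
def rs (p : ι → Prop) {n : ℕ} (u : (Fin n → ι) → K) (w : Fin n → {j // p j}) : K :=
  u fun k => (w k).1

/-- The restriction as a linear map. -/
def rsL (K : Type) [Field K] (p : ι → Prop) (n : ℕ) :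
    ((Fin n → ι) → K) →ₗ[K] ((Fin n → {j // p j}) → K) where
  toFun := rs p
  map_add' _ _ := rfl
  map_smul' _ _ := rfl

lemma rs_x0 {n : ℕ} (t : (Fin n → {j // p j}) → K) : rs p (x0 t) = t := by
  funext w
  exact x0_val t w

lemma rs_bc {L : Type} [Field L] [Algebra K L] {n : ℕ} (u : (Fin n → ι) → K) :
    rs p (bc L u) = bc L (rs p u) := rfl

/-- Matrices which preserve the part and its complement. -/
lemma tpow_rs {M : Matrix ι ι K} (h : ∀ a b, p a → ¬ p b → M a b = 0) {n : ℕ}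
    (u : (Fin n → ι) → K) : tpow (sm p M) n (rs p u) = rs p (tpow M n u) := by
  funext w
  rw [rs, tpow_apply, tpow_apply]
  symm
  rw [sum_word (p := p) fun J hJ => by
    obtain ⟨k, hk⟩ := not_forall.1 hJ
    rw [Finset.prod_eq_zero (Finset.mem_univ k) (h _ _ (w k).2 hk), zero_mul]]
  rfl

end res

variable {k : Type u} [Field k] {𝒱 : VarClass k} {ops : CycleOps 𝒱} {T : HodgeTheory ops}
  {W' : WeilCohomology.{u, 0} ops} {C : Artin T.W W'} {X Y Z : 𝒱.Obj} {Γ : Type w} [Group Γ]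
  {G : GaloisAction W' Γ} {ι : Type} [Fintype ι] [DecidableEq ι] (e : Basis ι T.W.K (T.W.H X))
  (e' : Basis ι W'.K (W'.H X)) {dg : ι → ℕ}
  (he : ∀ j, e j ∈ T.W.gr X (dg j)) (he' : ∀ j, e' j ∈ W'.gr X (dg j))
  (hR : RealH T X) {φ : Module.End T.W.K (T.W.H X)} (hφ : IsPol T X φ) (i : ℕ)

/-- The components of a Hodge tensor are Hodge tensors. -/
lemma rs_T {n : ℕ} {t : (Fin n → ι) → ℚ} (ht : t ∈ (phs e hR hφ).T n) :
    rs (fun j => dg j = i) t ∈ (phd e he hR hφ i).T n := by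
  rw [PHS.mem_T] at ht ⊢
  intro z hz
  have h1 := ht z hz
  rw [phd_c]
  have h2 : cx (rs (fun j => dg j = i) t) = rs (fun j => dg j = i) (cx t) := rfl
  rw [h2, tpow_rs, h1]
  intro a b ha hb
  exact phs_zero e he hR hφ hz fun h => hb (h.symm.trans ha)

/-- Tate classes in the tensors which are combinations of Hodge classes on the power. -/
lemma of_tin' {m : ℕ} (hev : Even ((m + 1) * i)) (hee : ∀ i, e' i = C.f X (e i))
    (h : ∀ c ∈ tens X W' i m, ∀ j, IsTate G (pw X m) j c → c ∈ hSpan C (pw X m) j) :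
    TK (Rd G e' he' i) (m + 1) ≤ bcS W'.K ((phd e he hR hφ i).T (m + 1)) := by
  intro t ht
  rw [mem_TK_deg] at ht
  have hc : cl e' (dg := dg) i (prj X m) t ∈ tens X W' i m := (tens_iff' e' he' i).2 ⟨t, rfl⟩
  obtain ⟨j, hj⟩ := hev
  have h1 := ClassPred.sp_proj (Q := tatePred G) ht j
  have h2 : cl e' (dg := dg) i (prj X m) t ∈ W'.gr (pw X m) (2 * j) := by
    have h3 := tens_gr _ _ _ _ hc
    have h4 : (m + 1) * i = 2 * j := by omega
    rwa [h4] at h3
  rw [proj_same _ h2] at h1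
  have h3 := h _ hc j h1
  have h4 : hSpan C (pw X m) j ≤ (bcS W'.K ((phd e he hR hφ i).T (m + 1))).comap
      (rsL W'.K (fun j => dg j = i) (m + 1) ∘ₗ (wb e' m).equivFun.toLinearMap) := by
    rw [hSpan, Submodule.span_le]
    rintro _ ⟨x, hx, rfl⟩
    obtain ⟨s, hs, rfl⟩ := exists_bc e hR hφ hx
    change rs (fun j => dg j = i) (tn e' m (C.f (pw X m) (cls e (prj X m) s))) ∈
      bcS W'.K ((phd e he hR hφ i).T (m + 1))
    rw [← C_cls C e e' hee, tn_cls, rs_bc]
    exact bc_mem (rs_T e he hR hφ i hs)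
  have h5 := h4 h3
  change rs (fun j => dg j = i) (tn e' m (clsK e' (prj X m) (x0 t))) ∈
    bcS W'.K ((phd e he hR hφ i).T (m + 1)) at h5
  rwa [tn_cls, rs_x0] at h5

end Pool.Agent.Q60.MV
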