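import Pool.Agent.Q60.MV.Hdg
import Pool.Agent.Q60.AB.Sub
import Pool.Agent.Q60.TD.GSS

/-!
# Parts of representations and restriction to subgroups of finite index
-/

set_option linter.unusedSectionVars false

namespace Pool.Agent.Q60.MV

open Module Matrix Pool.Agent.Q60.ED Pool.Agent.Q60.NP Pool.Agent.Q60.TD Pool.Agent.Q60.FI
  Pool.Agent.Q60.TP
open Pool.Agent.Q60.AB (sm Blk sm_mul sm_one sm_apply x0 x0_val x0_of x0_inj sum_word tpow_x0)

variable {K : Type} [Field K] {ι : Type} [Fintype ι] [DecidableEq ι] {Γ : Type*} [Group Γ]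
  (R : MRep K ι Γ)

/-- The part of the representation on the span of a part of the basis. -/
def subR (p : ι → Prop) [DecidablePred p] (h : ∀ g, Blk p (R.A g)) : MRep K {j // p j} Γ where
  A :=
    { toFun := fun g => sm p (R.A g)
      map_one' := by rw [map_one, sm_one]
      map_mul' := fun g g' => by rw [map_mul, sm_mul (h g')] }
  χ := R.χ
  a j := R.a j.1
  M := R.M
  le j := R.le _
  hom g i j hij := R.hom g _ _ hij

/-- The restriction to a subgroup. -/
def resR (Δ : Subgroup Γ) : MRep K ι Δ where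
  A := R.A.comp Δ.subtype
  χ := R.χ.comp Δ.subtype
  a := R.a
  M := R.M
  le := R.le
  hom g i j hij := R.hom _ _ _ hij

variable {R}

lemma cE_res (Δ : Subgroup Γ) {n : ℕ} (I J : Fin n → ι) (g : Δ) :
    cE (resR R Δ) I J g = cE R I J g.1 := rfl

/-- The virtually invariant tensors do not change. -/
lemma TK_res (Δ : Subgroup Γ) [hΔ : Δ.FiniteIndex] (n : ℕ) : TK (resR R Δ) n = TK R n := by
  apply le_antisymm
  · rintro t ⟨Δ', hΔ', h⟩
    refine ⟨Δ'.map Δ.subtype, ?_, ?_⟩
    · refine ⟨?_⟩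
      rw [Subgroup.index_map_subtype]
      exact mul_ne_zero hΔ'.index_ne_zero hΔ.index_ne_zero
    · rintro _ ⟨g, hg, rfl⟩ I
      exact h g hg I
  · rintro t ⟨Δ', hΔ', h⟩
    refine ⟨Δ'.subgroupOf Δ, inferInstance, fun g hg I => ?_⟩
    exact h g.1 hg I

variable {p : ι → Prop} [DecidablePred p] {h : ∀ g, Blk p (R.A g)}

lemma cE_sub {n : ℕ} (I J : Fin n → {j // p j}) (g : Γ) :
    cE (subR R p h) I J g = cE R (fun k => (I k).1) (fun k => (J k).1) g := rfl

/-- The extension by zero as a linear map. -/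
def x0L (p : ι → Prop) [DecidablePred p] (n : ℕ) :
    ((Fin n → {j // p j}) → K) →ₗ[K] ((Fin n → ι) → K) where
  toFun := x0
  map_add' s t := by
    funext w
    by_cases hw : ∀ i, p (w i)
    · simp only [x0, dif_pos hw, Pi.add_apply]
    · simp only [x0, dif_neg hw, Pi.add_apply, add_zero]
  map_smul' c t := by
    funext w
    by_cases hw : ∀ i, p (w i)
    · simp only [x0, dif_pos hw, Pi.smul_apply, RingHom.id_apply]
    · simp only [x0, dif_neg hw, Pi.smul_apply, RingHom.id_apply, smul_zero]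

lemma x0L_apply (n : ℕ) (t : (Fin n → {j // p j}) → K) : x0L p n t = x0 t := rfl

lemma mem_TK_sub {n : ℕ} {t : (Fin n → {j // p j}) → K} :
    t ∈ TK (subR R p h) n ↔ x0 t ∈ TK R n := by
  have key : ∀ (g : Γ) (I : Fin n → ι), ∑ J, cE R I J g * x0 t J =
      if hI : ∀ k, p (I k) then ∑ J, cE (subR R p h) (fun k => ⟨I k, hI k⟩) J g * t J else 0 := by
    intro g I
    rw [sum_word fun J hJ => by rw [x0_of t hJ, mul_zero]]
    by_cases hI : ∀ k, p (I k)
    · rw [dif_pos hI]
      refine Finset.sum_congr rfl fun J _ => ?_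
      rw [x0_val, cE_sub]
    · rw [dif_neg hI]
      obtain ⟨k, hk⟩ := not_forall.1 hI
      refine Finset.sum_eq_zero fun J _ => ?_
      have h1 : ∏ l, R.A g (I l) (J l).1 = 0 :=
        Finset.prod_eq_zero (Finset.mem_univ k) (h g _ _ hk (J k).2)
      rw [cE]
      split_ifs
      · rw [h1, mul_zero, zero_mul]
      · rw [zero_mul]
  constructor
  · rintro ⟨Δ, hΔ, h1⟩
    refine ⟨Δ, hΔ, fun g hg I => ?_⟩
    rw [key]
    by_cases hI : ∀ k, p (I k)
    · rw [dif_pos hI, h1 g hg, x0, dif_pos hI]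
    · rw [dif_neg hI, x0_of t hI]
  · rintro ⟨Δ, hΔ, h1⟩
    refine ⟨Δ, hΔ, fun g hg I => ?_⟩
    have h2 := h1 g hg fun k => (I k).1
    rw [key, dif_pos fun k => (I k).2, x0_val] at h2
    exact h2

/-- Semisimplicity of the restriction to a subgroup of finite index. -/
lemma ss_res [CharZero K] (Δ : Subgroup Γ) [Δ.FiniteIndex] {n w : ℕ}
    (hs : SSon (MO (NK R n)) (grw R K n w)) :
    SSon (MO (NK (resR R Δ) n)) (grw (resR R Δ) K n w) := by
  let ρ : Γ →* Module.End K ((Fin n → ι) → K) :=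
    { toFun := fun g => tpow (R.A g) n
      map_one' := by
        rw [map_one]
        exact LinearMap.ext fun t => tpow_one n t
      map_mul' := fun g h => by
        rw [map_mul]
        exact LinearMap.ext fun t => tpow_mul _ _ n t }
  have h1 : Op ρ ⊤ = MO (NK R n) := by
    ext f
    constructor
    · rintro ⟨g, _, rfl⟩
      exact ⟨_, ⟨g, rfl⟩, rfl⟩
    · rintro ⟨_, ⟨g, rfl⟩, rfl⟩
      exact ⟨g, Subgroup.mem_top _, rfl⟩
  have h2 : Op ρ Δ = MO (NK (resR R Δ) n) := by
    ext f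
    constructor
    · rintro ⟨g, hg, rfl⟩
      exact ⟨_, ⟨⟨g, hg⟩, rfl⟩, rfl⟩
    · rintro ⟨_, ⟨g, rfl⟩, rfl⟩
      exact ⟨g.1, g.2, rfl⟩
  rw [← h2]
  refine ss_finiteIndex Δ (U := grw R K n w) ?_ ?_
  · rw [h1]
    exact grw_stabK n w
  · rw [h1]
    exact hs

/-- Semisimplicity of a part. -/
lemma ss_sub {n w : ℕ} (hs : SSon (MO (NK R n)) (grw R K n w)) :
    SSon (MO (NK (subR R p h) n)) (grw (subR R p h) K n w) := by
  have hmv : ∀ (g : Γ) (t : (Fin n → {j // p j}) → K),
      (TP (R.A g) n).mulVec (x0 t) = x0 ((TP ((subR R p h).A g) n).mulVec t) := by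
    intro g t
    have h1 := tpow_x0 (h g) t
    exact h1
  have hinj : Function.Injective (x0L (K := K) p n) := fun s t hst => x0_inj hst
  refine SSon.comap (x0L p n) hinj ?_ ?_ (hs.mono ?_ ?_)
  · rintro _ ⟨_, ⟨g, rfl⟩, rfl⟩
    exact ⟨_, ⟨_, ⟨g, rfl⟩, rfl⟩, fun t => hmv g t⟩
  · rintro _ ⟨_, ⟨g, rfl⟩, rfl⟩
    exact ⟨_, ⟨_, ⟨g, rfl⟩, rfl⟩, fun t => hmv g t⟩
  · rintro _ ⟨t, ht, rfl⟩ I hI
    rw [x0L_apply]
    by_cases hp : ∀ k, p (I k)
    · rw [x0, dif_pos hp]
      exact ht _ hI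
    · exact x0_of t hp
  · rw [stab_MO]
    rintro _ ⟨g, rfl⟩ _ ⟨t, ht, rfl⟩
    refine ⟨(TP ((subR R p h).A g) n).mulVec t, ?_, (hmv g t).symm⟩
    have h1 := (stab_MO.1 (grw_stabK (R := subR R p h) n w)) _ ⟨g, rfl⟩ t ht
    exact h1

/-- The infinitesimal action and the extension by zero. -/
lemma aop_x0 {M : Matrix ι ι K} (hM : Blk p M) {n : ℕ} (t : (Fin n → {j // p j}) → K) :
    aop M (x0 t) = x0 (aop (sm p M) t) := by
  funext I
  rw [aop_apply]
  by_cases hI : ∀ k, p (I k)
  · rw [x0, dif_pos hI, aop_apply]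
    refine Finset.sum_congr rfl fun k _ => ?_
    rw [Pool.Agent.Q60.AB.sum_sub p fun j hj => by
      rw [x0_of t (fun h => hj (by
        have := h k
        rwa [Function.update_self] at this)), mul_zero]]
    refine Finset.sum_congr rfl fun j _ => ?_
    rw [sm_apply]
    congr 1
    have h1 : Function.update I k j.1 = fun l => ((Function.update
        (fun l => (⟨I l, hI l⟩ : {j // p j})) k j) l).1 := by
      funext l
      rw [Function.update_apply, Function.update_apply]
      split_ifs <;> rfl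
    rw [h1, x0_val]
  · rw [x0_of _ hI]
    refine Finset.sum_eq_zero fun k _ => Finset.sum_eq_zero fun j _ => ?_
    by_cases hu : ∀ l, p (Function.update I k j l)
    · have hj : p j := by
        have := hu k
        rwa [Function.update_self] at this
      have hk : ¬ p (I k) := by
        intro hk
        apply hI
        intro l
        by_cases hl : l = k
        · rw [hl]; exact hk
        · have := hu l
          rwa [Function.update_of_ne hl] at this
      rw [hM _ _ hk hj, zero_mul]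
    · rw [x0_of t hu, mul_zero]

lemma x0_bc {L : Type} [Field L] [Algebra K L] {n : ℕ} (t : (Fin n → {j // p j}) → K) :
    bc L (x0 t) = x0 (bc L t) := by
  funext w
  by_cases hw : ∀ i, p (w i)
  · simp only [bc, x0, dif_pos hw]
  · simp only [bc, x0, dif_neg hw, map_zero]

end Pool.Agent.Q60.MV
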