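import Pool.Agent.Q60.TD.Defs

/-!
# The centre condition for Tate classes and one degree: definitions
-/

open CategoryTheory AlgebraicGeometry

universe u v w

namespace Pool.Agent.Q60.MV

open Pool.Agent.H914 Pool.Agent.H914.VarClass Pool.Agent.H914.VarClass.Obj
  Pool.Agent.H914.WeilCohomology Pool.Agent.Q55

section Alg

variable {K A C : Type} [Field K] [Ring A] [Algebra K A] [Ring C] [Algebra K C]

/-- Let `p` and `s` be the pull-back and the push-forward for the projections of a product `X × X`.
This is the operator `x ↦ s (c · p (l · x))` given by the class `c` on `X × X`. -/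
def twOp (p : A →ₐ[K] C) (s : C →ₗ[K] A) (l : A) (c : C) (x : A) : A := s (c * p (l * x))

/-- Consider the operators `twOp` on `V` given by the linear combinations of elements of `S`. If one
of them commutes with all of them and is skew for the form `tr (l · x · y)` on `V`, then it is zero
on `V`. -/
def NoSkewTw (p : A →ₐ[K] C) (s : C →ₗ[K] A) (tr : A →ₗ[K] K) (l : A) (V : Submodule K A)
    (S : Set C) : Prop :=
  ∀ c ∈ Submodule.span K S,
    (∀ d ∈ S, ∀ x ∈ V, twOp p s l c (twOp p s l d x) = twOp p s l d (twOp p s l c x)) →
    (∀ x ∈ V, ∀ y ∈ V, tr (l * twOp p s l c x * y) = - tr (l * x * twOp p s l c y)) →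
    ∀ x ∈ V, twOp p s l c x = 0

end Alg

variable {k : Type u} [Field k] {𝒱 : VarClass k} {ops : CycleOps 𝒱}
  {W : WeilCohomology.{u, 0} ops} {Γ : Type w} [Group Γ]

/-- Every Tate class `c` in `H^(2 i)(X × X)` defines the operator `x ↦ pr2_* (c · pr1^* (l · x))` on
`H^i(X)`, where `l` is the power `[D] ^ (dim X - i)` of the class of a divisor `D`. The centre of
the algebra of these operators has no nonzero elements which are skew for the form
`tr (l · x · y)`. (For an abelian variety `X`, an ample divisor `D` and `i = 1` these operators are
the combinations of endomorphisms of `X`, by Faltings; the condition says that the centre of the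
endomorphism algebra is a product of totally real fields, that is, `X` has no factor of type
IV.) -/
def NoTypeIV (G : GaloisAction W Γ) (X : 𝒱.Obj) (D : X.Cycles) (i : ℕ) : Prop :=
  NoSkewTw (W.map (fst X X)) (W.push (snd X X)) (W.tr X) (W.cl X D ^ (X.dim - i)) (W.gr X i)
    {c | IsTate G (X.prod X) i c}

end Pool.Agent.Q60.MV
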