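import Pool.Agent.Q60.MV.TDeg
import Pool.Agent.Q60.MV.TDefs

/-!
# The centre condition in coordinates
-/

open CategoryTheory AlgebraicGeometry TensorProduct

set_option linter.unusedSectionVars false

universe u v w

namespace Pool.Agent.Q60.MV

open Module Matrix
open Pool.Agent.H914 Pool.Agent.H914.VarClass Pool.Agent.H914.VarClass.Obj
  Pool.Agent.H914.WeilCohomology
open Pool.Agent.Y133.Half Pool.Agent.Y121.AH Pool.Agent.Q60.ED Pool.Agent.Q60.TD Pool.Agent.Q55
open Pool.Agent.Q60.TP Pool.Agent.Q60.NP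
open Pool.Agent.Q60.HD (wb_xp)
open Pool.Agent.Q60.FI (tv tv_inj aop_vec)
open Pool.Agent.Q60.AB (Blk sm x0 x0_val x0_of x0_inj sum_word sum_sub gs gs_mem wdF span_gs)

variable {k : Type u} [Field k] {𝒱 : VarClass k} {ops : CycleOps 𝒱}
  {W : WeilCohomology.{u, 0} ops} {X Y Z : 𝒱.Obj} {ι : Type} [Fintype ι] [DecidableEq ι]
  (e : Basis ι W.K (W.H X)) {dg : ι → ℕ} (he : ∀ j, e j ∈ W.gr X (dg j)) {Γ : Type w} [Group Γ]
  {G : GaloisAction W Γ} (i : ℕ) {l : W.H X} (hl : l ∈ W.gr X (2 * (X.dim - i)))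
  (hi : i ≤ X.dim)

lemma cor1_wb' (he : ∀ j, e j ∈ PH W X (dg j)) (w : Fin 2 → ι) {z : W.H X} {c : ℕ}
    (hz : z ∈ PH W X c) : cor1 W X (wb e 1 w) z =
      ((-1 : W.K) ^ (dg (w 1) * c) * W.tr X (e (w 0) * z)) • e (w 1) := by
  rw [wb_xp, wb_zero]
  exact corr_xp (W := W) (X := X) (Y := X) (e (w 0)) (he (w 1)) hz

include he hl hi in
/-- The operator given by a class of degree `2 i`. -/
lemma cor_cls {u : (Fin 2 → ι) → W.K} (hu : ∀ w, dg (w 0) + dg (w 1) ≠ 2 * i → u w = 0)
    (j : {j : ι // dg j = i}) : cor1 W X (clsK e (prj X 1) u) (l * gs e dg i j) =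
      ∑ b : {j : ι // dg j = i}, ((-1 : W.K) ^ i *
        ∑ a : {j : ι // dg j = i}, rs (fun j => dg j = i) u ![a, b] * Ql e i l dg a j) •
          gs e dg i b := by
  have hlj : l * gs e dg i j ∈ PH W X i := by
    have h1 := PH.mul (l_PH i hl) (gs_PHW e he i j)
    rwa [zero_add] at h1
  have key : ∀ a b : ι, u ![a, b] • cor1 W X (wb e 1 ![a, b]) (l * gs e dg i j) =
      if h : dg a = i ∧ dg b = i then
        ((-1 : W.K) ^ i * (u ![a, b] * Ql e i l dg ⟨a, h.1⟩ j)) • e b else 0 := by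
    intro a b
    rw [cor1_wb' e (fun j => PH.of (he j)) ![a, b] hlj, smul_smul]
    change (u ![a, b] * ((-1 : W.K) ^ (dg b * i) * W.tr X (e a * (l * gs e dg i j)))) • e b = _
    split_ifs with h
    · have h2 : (-1 : W.K) ^ (dg b * i) = (-1) ^ i := by
        rw [h.2]
        rcases Nat.even_or_odd i with h | h
        · rw [h.neg_one_pow, (h.mul_left i).neg_one_pow]
        · rw [h.neg_one_pow, (h.mul h).neg_one_pow]
      have h3 : W.tr X (e a * (l * gs e dg i j)) = Ql e i l dg ⟨a, h.1⟩ j := by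
        rw [Ql_apply, ← mul_assoc, ← PH.even_comm (l_PH i hl) (e a)]
        rfl
      rw [h2, h3]
      congr 1
      ring
    · by_cases ha : dg a = i
      · have hb : dg b ≠ i := fun hb => h ⟨ha, hb⟩
        rw [hu ![a, b] (by
          change dg a + dg b ≠ 2 * i
          omega), zero_mul, zero_smul]
      · have h2 : W.tr X (e a * (l * gs e dg i j)) = 0 := by
          refine W.tr_eq_zero (W.mul_mem (he a) (W.mul_mem hl (gs_mem e he i j))) ?_
          omega
        rw [h2, mul_zero, mul_zero, zero_smul]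
  have h0 : cor1 W X (clsK e (prj X 1) u) (l * gs e dg i j) =
      ∑ w, u w • cor1 W X (wb e 1 w) (l * gs e dg i j) := by
    rw [clsK, map_sum, LinearMap.sum_apply]
    refine Finset.sum_congr rfl fun w _ => ?_
    rw [map_smul, LinearMap.smul_apply, Pool.Agent.Q60.HD.wd_prj]
  rw [h0, TD.sum_fin2]
  simp only [key]
  rw [Finset.sum_comm, sum_sub (fun j => dg j = i) fun b hb => by
    refine Finset.sum_eq_zero fun a _ => ?_
    rw [dif_neg fun h => hb h.2]]
  refine Finset.sum_congr rfl fun b _ => ?_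
  rw [sum_sub (fun j => dg j = i) fun a ha => by rw [dif_neg fun h => ha h.1], Finset.mul_sum,
    Finset.sum_smul]
  refine Finset.sum_congr rfl fun a _ => ?_
  rw [dif_pos ⟨a.2, b.2⟩]
  have h1 : u ![a.1, b.1] = rs (fun j => dg j = i) u ![a, b] := by
    rw [rs]
    congr 1
    funext k
    fin_cases k <;> rfl
  rw [h1]
  rfl

/-- The components of a virtually invariant tensor. -/
lemma rs_TK {n : ℕ} {u : (Fin n → ι) → W.K} (hu : u ∈ TK (toM G e he) n) :
    rs (fun j => dg j = i) u ∈ TK (Rd G e he i) n := by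
  obtain ⟨Δ, hΔ, h⟩ := hu
  refine ⟨Δ, hΔ, fun g hg I => ?_⟩
  have h1 := h g hg fun k => (I k).1
  rw [sum_word (p := fun j => dg j = i) fun J hJ => by
    obtain ⟨k, hk⟩ := not_forall.1 hJ
    have h2 : ∏ l, (toM G e he).A g (I l).1 (J l) = 0 :=
      Finset.prod_eq_zero (Finset.mem_univ k) ((toM G e he).hom g _ _ fun h => hk
        (h.symm.trans (I k).2))
    rw [cE]
    split_ifs
    · rw [h2, mul_zero, zero_mul]
    · rw [zero_mul]] at h1
  exact h1

lemma mat2_vec {κ : Type} {K : Type} [Field K] (M : Matrix κ κ K) : mat2 (NP.vec M) = M := by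
  ext i j
  rfl

lemma vec_mat2 {κ : Type} {K : Type} [Field K] (t : (Fin 2 → κ) → K) : NP.vec (mat2 t) = t := by
  funext w
  change t ![w 0, w 1] = t w
  congr 1
  funext k
  fin_cases k <;> rfl

include he hl in
/-- The transpose of the inverse of the form. -/
lemma Ql_tr : ((Ql e i l dg)⁻¹)ᵀ = (-1 : W.K) ^ i • (Ql e i l dg)⁻¹ := by
  have h1 : (Ql e i l dg)ᵀ = (-1 : W.K) ^ i • Ql e i l dg := by
    ext a b
    rw [transpose_apply, Matrix.smul_apply, smul_eq_mul, Ql_symm e he i hl, mul_comm]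
  have h2 : ((-1 : W.K) ^ i) * ((-1 : W.K) ^ i) = 1 := by
    rw [← mul_pow, neg_one_mul, neg_neg, one_pow]
  rw [Matrix.transpose_nonsing_inv, h1]
  by_cases hd : (Ql e i l dg).det = 0
  · have h3 : ¬ IsUnit (Ql e i l dg).det := by rw [hd]; exact not_isUnit_zero
    have h4 : ¬ IsUnit ((-1 : W.K) ^ i • Ql e i l dg).det := by
      rw [Matrix.det_smul, hd, mul_zero]
      exact not_isUnit_zero
    rw [Matrix.nonsing_inv_apply_not_isUnit _ h3, Matrix.nonsing_inv_apply_not_isUnit _ h4,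
      smul_zero]
  · refine Matrix.inv_eq_right_inv ?_
    rw [Matrix.smul_mul, Matrix.mul_smul, smul_smul, h2, one_smul,
      Matrix.mul_nonsing_inv _ (isUnit_iff_ne_zero.2 hd)]

lemma sw_TKd {t : (Fin 2 → {j : ι // dg j = i}) → W.K} (ht : t ∈ TK (Rd G e he i) 2) :
    (fun J => t (J ∘ Equiv.swap (0 : Fin 2) 1)) ∈ TK (Rd G e he i) 2 := by
  rw [TKd_eq] at ht ⊢
  exact crK_perm (gs_PHW e he i) _ ht

include he in
/-- The tensor of a class of degree `2 i`. -/
lemma tn_deg {c : W.H (pw X 1)} (hc : c ∈ W.gr (pw X 1) (2 * i)) (w : Fin 2 → ι)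
    (hw : dg (w 0) + dg (w 1) ≠ 2 * i) : tn e 1 c w = 0 := by
  refine repr_gr (wb e 1) (wb_gr e he 1) hc ?_
  rw [Fin.sum_univ_two]
  exact hw

/-- The operator given by a class on the square. -/
noncomputable def El (W : WeilCohomology.{u, 0} ops) (X : 𝒱.Obj) (l : W.H X) (z : W.H (pw X 1)) :
    W.H X →ₗ[W.K] W.H X := cor1 W X z ∘ₗ LinearMap.mulLeft W.K l

lemma El_apply (z : W.H (pw X 1)) (x : W.H X) : El W X l z x = cor1 W X z (l * x) := rfl

lemma comp_mat {F F' : W.H X →ₗ[W.K] W.H X}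
    {A B : Matrix {j : ι // dg j = i} {j : ι // dg j = i} W.K}
    (hF : ∀ j, F (gs e dg i j) = ∑ b, A b j • gs e dg i b)
    (hF' : ∀ j, F' (gs e dg i j) = ∑ b, B b j • gs e dg i b) (j : {j : ι // dg j = i}) :
    F (F' (gs e dg i j)) = ∑ b, (A * B) b j • gs e dg i b := by
  rw [hF', map_sum]
  simp only [map_smul, hF, Finset.smul_sum, smul_smul]
  rw [Finset.sum_comm]
  refine Finset.sum_congr rfl fun b _ => ?_
  rw [Matrix.mul_apply, Finset.sum_smul]
  exact Finset.sum_congr rfl fun a _ => by rw [mul_comm]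

lemma gs_indep {f : {j : ι // dg j = i} → W.K} (h : ∑ b, f b • gs e dg i b = 0)
    (a : {j : ι // dg j = i}) : f a = 0 := by
  have h6 := congrArg (fun y => e.repr y a.1) h
  beta_reduce at h6
  rw [map_sum, Finsupp.coe_finsetSum, Finset.sum_apply, Finset.sum_eq_single a, map_smul,
    Finsupp.smul_apply, gs, Basis.repr_self, Finsupp.single_eq_same, smul_eq_mul, mul_one,
    map_zero, Finsupp.zero_apply] at h6
  · exact h6
  · intro a' _ ha'
    rw [map_smul, Finsupp.smul_apply, gs, Basis.repr_self, Finsupp.single_eq_of_ne, smul_zero]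
    exact fun h => ha' (Subtype.ext h.symm)
  · intro h
    exact absurd (Finset.mem_univ _) h

include he hl hi in
/-- The matrix of the operator of a class of degree `2 i`. -/
lemma El_mat {u : (Fin 2 → ι) → W.K} (hu : ∀ w, dg (w 0) + dg (w 1) ≠ 2 * i → u w = 0)
    (j : {j : ι // dg j = i}) : El W X l (clsK e (prj X 1) u) (gs e dg i j) =
      ∑ b, ((-1 : W.K) ^ i • ((mat2 (rs (fun j => dg j = i) u))ᵀ * Ql e i l dg)) b j •
        gs e dg i b := by
  rw [El_apply, cor_cls e he i hl hi hu]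
  refine Finset.sum_congr rfl fun b _ => ?_
  congr 1

include hl hi in
/-- **The centre condition in coordinates.** -/
theorem cenT (hinj : ∀ x ∈ W.gr X i, l * x = 0 → x = 0)
    (hns : NoSkewTw (W.map (fst X X)) (W.push (snd X X)) (W.tr X) l (W.gr X i)
      {c | IsTate G (X.prod X) i c}) {Δ : Subgroup (G.ρ X).dom} [Δ.FiniteIndex]
    (hΔ : ∀ g ∈ Δ, (G.ρ X).act (g : Γ) l = (G.χ (g : Γ) : W.K) ^ (X.dim - i) • l) :
    ∀ c : Matrix {j : ι // dg j = i} {j : ι // dg j = i} W.K,
      tv (Ql e i l dg) c ∈ TK (resR (Rd G e he i) Δ) 2 →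
      (∀ a, tv (Ql e i l dg) a ∈ TK (resR (Rd G e he i) Δ) 2 → a * c = c * a) →
      (∀ s ∈ TK (resR (Rd G e he i) Δ) 2, aop c s = 0) → c = 0 := by
  intro c hc hcom hk
  have hK := pres_Ql e he i hl hi hinj hΔ
  have hu := isUnit_iff_ne_zero.2 hK.det
  have hε : (-1 : W.K) ^ i * (-1 : W.K) ^ i = 1 := by
    rw [← mul_pow, neg_one_mul, neg_neg, one_pow]
  have hom := om_TK hK fun j => Rd_a (G := G) e he i j
  have hskew : cᵀ * Ql e i l dg = - (Ql e i l dg * c) := by
    have h2 := hk _ hom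
    rw [aop_vec] at h2
    have h4 : c * (Ql e i l dg)⁻¹ + (Ql e i l dg)⁻¹ * cᵀ = 0 := NP.vec_inj (h2.trans rfl)
    have h5 := congrArg (fun M => Ql e i l dg * M * Ql e i l dg) h4
    simp only [Matrix.mul_add, Matrix.add_mul, Matrix.mul_zero, Matrix.zero_mul] at h5
    have h6 : Ql e i l dg * ((Ql e i l dg)⁻¹ * cᵀ) * Ql e i l dg = cᵀ * Ql e i l dg := by
      rw [← Matrix.mul_assoc, Matrix.mul_nonsing_inv _ hu, Matrix.one_mul]
    have h7 : Ql e i l dg * (c * (Ql e i l dg)⁻¹) * Ql e i l dg = Ql e i l dg * c := by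
      rw [← Matrix.mul_assoc, Matrix.mul_assoc _ (Ql e i l dg)⁻¹, Matrix.nonsing_inv_mul _ hu,
        Matrix.mul_one]
    rw [h6, h7] at h5
    exact eq_neg_of_add_eq_zero_right h5
  rw [TK_res] at hc hcom
  set v := fun J => tv (Ql e i l dg) c (J ∘ Equiv.swap (0 : Fin 2) 1) with hv
  have hvT : v ∈ TK (Rd G e he i) 2 := sw_TKd e he i hc
  set z := cl e i (prj X 1) v with hz
  have hzC : z ∈ (tatePred G).sys.C (pw X 1) := (mem_TK_deg e he i).1 hvT
  have hzg : z ∈ W.gr (pw X 1) (2 * i) := by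
    have h1 := Pool.Agent.Q60.AB.tens_gr _ _ _ _ ((tens_iff' e he i).2 ⟨v, hz.symm⟩)
    have h2 : (1 + 1) * i = 2 * i := by ring
    rwa [h2] at h1
  have hzT : IsTate G (pw X 1) i z := by
    have h1 := ClassPred.sp_proj (Q := tatePred G) hzC i
    rwa [proj_same _ hzg] at h1
  have hEz : ∀ j, El W X l z (gs e dg i j) = ∑ b, c b j • gs e dg i b := by
    intro j
    have h1 : ∀ w : Fin 2 → ι, dg (w 0) + dg (w 1) ≠ 2 * i →
        x0 (p := fun j => dg j = i) v w = 0 := by
      intro w hw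
      refine x0_of v fun h => hw ?_
      rw [h 0, h 1]
      ring
    have h2 := El_mat e he i hl hi h1 j
    rw [rs_x0] at h2
    refine h2.trans (Finset.sum_congr rfl fun b _ => ?_)
    congr 1
    have h3 : (mat2 v)ᵀ = c * ((Ql e i l dg)⁻¹)ᵀ := by
      ext a b
      change tv (Ql e i l dg) c (![b, a] ∘ Equiv.swap (0 : Fin 2) 1) = _
      have h4 : (![b, a] ∘ Equiv.swap (0 : Fin 2) 1 : Fin 2 → {j : ι // dg j = i}) = ![a, b] := by
        funext k
        fin_cases k <;> rfl
      rw [h4]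
      rfl
    rw [h3, Ql_tr e he i hl, Matrix.mul_smul, Matrix.smul_mul, smul_smul, hε, one_smul,
      Matrix.mul_assoc, Matrix.nonsing_inv_mul _ hu, Matrix.mul_one]
  have hzero := hns z (Submodule.subset_span hzT) (fun d hd x hx => ?_) (fun x hx y hy => ?_)
  · ext b j
    have h1 := hzero _ (gs_mem e he i j)
    have h2 : El W X l z (gs e dg i j) = 0 := h1
    rw [hEz] at h2
    exact gs_indep e i h2 b
  · -- commutation
    have hd' : IsTate G (pw X 1) i d := hd
    set u := tn e 1 d with hud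
    have huT : u ∈ TK (toM G e he) 2 := tn_mem_TK G he hd'
    have hv' := rs_TK e he i huT
    set A := (-1 : W.K) ^ i • ((mat2 (rs (fun j => dg j = i) u))ᵀ * Ql e i l dg) with hA
    have hEd : ∀ j, El W X l d (gs e dg i j) = ∑ b, A b j • gs e dg i b := by
      intro j
      have h1 := El_mat e he i hl hi (u := u) (fun w hw => tn_deg e he i hd'.1 w hw) j
      have h2 : clsK e (prj X 1) u = d := clsK_tn e 1 d
      exact (congrArg (fun y => El W X l y (gs e dg i j)) h2).symm.trans h1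
    have hAT : tv (Ql e i l dg) A ∈ TK (Rd G e he i) 2 := by
      have h1 : tv (Ql e i l dg) A = fun J => (rs (fun j => dg j = i) u)
          (J ∘ Equiv.swap (0 : Fin 2) 1) := by
        rw [tv, hA, Ql_tr e he i hl, Matrix.mul_smul, Matrix.smul_mul, smul_smul, hε, one_smul,
          Matrix.mul_assoc, Matrix.mul_nonsing_inv _ hu, Matrix.mul_one]
        funext w
        change rs (fun j => dg j = i) u ![w 1, w 0] = _
        congr 1
        funext k
        fin_cases k <;> rfl
      rw [h1]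
      exact sw_TKd e he i hv'
    have h1 := hcom A hAT
    refine ext_grW e (F := El W X l z ∘ₗ El W X l d) (G := El W X l d ∘ₗ El W X l z) he
      (fun j => ?_) hx
    rw [LinearMap.comp_apply, LinearMap.comp_apply, comp_mat e i hEz hEd, comp_mat e i hEd hEz,
      h1]
  · -- skewness
    have hb : ∀ a j, W.tr X (l * El W X l z (gs e dg i a) * gs e dg i j) =
        - W.tr X (l * gs e dg i a * El W X l z (gs e dg i j)) := by
      intro a j
      have h3 := congrFun (congrFun hskew a) j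
      rw [Matrix.neg_apply, Matrix.mul_apply, Matrix.mul_apply] at h3
      rw [hEz, hEz, Finset.mul_sum, Finset.sum_mul, Finset.mul_sum, map_sum, map_sum]
      refine Eq.trans ?_ (h3.trans (congrArg Neg.neg ?_))
      · refine Finset.sum_congr rfl fun b _ => ?_
        rw [mul_smul_comm, smul_mul_assoc, map_smul, smul_eq_mul, transpose_apply, Ql_apply]
      · refine Finset.sum_congr rfl fun b _ => ?_
        rw [mul_smul_comm, map_smul, smul_eq_mul, Ql_apply, mul_comm]
    have h1 : ∀ j, ∀ x ∈ W.gr X i, W.tr X (l * El W X l z x * gs e dg i j) =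
        - W.tr X (l * x * El W X l z (gs e dg i j)) := by
      intro j x hx
      exact ext_grW e (F := W.tr X ∘ₗ LinearMap.mulRight W.K (gs e dg i j) ∘ₗ
        LinearMap.mulLeft W.K l ∘ₗ El W X l z)
        (G := -(W.tr X ∘ₗ LinearMap.mulRight W.K (El W X l z (gs e dg i j)) ∘ₗ
          LinearMap.mulLeft W.K l)) he (fun a => hb a j) hx
    exact ext_grW e (F := W.tr X ∘ₗ LinearMap.mulLeft W.K (l * El W X l z x))
      (G := -(W.tr X ∘ₗ LinearMap.mulLeft W.K (l * x) ∘ₗ El W X l z)) he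
      (fun j => h1 j x hx) hy

end Pool.Agent.Q60.MV
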