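import Pool.Agent.Q60.MV.Nd
import Pool.Agent.Q60.MV.FamK
import Pool.Agent.Q60.MV.Res

/-!
# Tate classes in the tensors of the cohomology of one degree: the form given by an algebraic class
-/

open CategoryTheory AlgebraicGeometry TensorProduct

set_option linter.unusedSectionVars false

universe u v w

namespace Pool.Agent.Q60.MV

open Module Matrix
open Pool.Agent.H914 Pool.Agent.H914.VarClass Pool.Agent.H914.VarClass.Obj
  Pool.Agent.H914.WeilCohomology
open Pool.Agent.Y133.Half Pool.Agent.Y121.AH Pool.Agent.Q60.ED Pool.Agent.Q60.TD Pool.Agent.Q55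
open Pool.Agent.Q60.TP Pool.Agent.Q60.NP
open Pool.Agent.Q60.FI (tv tv_inj aop_vec)
open Pool.Agent.Q60.AB (Blk sm x0 x0_val x0_of x0_inj sum_word tpow_x0 gs gs_mem wdF wdF_zero
  wdF_succ wdF_append span_gs repr_zero wdF_prj_succ wdF_prj_zero)

variable {k : Type u} [Field k] {𝒱 : VarClass k} {ops : CycleOps 𝒱}
  {W : WeilCohomology.{u, 0} ops} {X Y Z : 𝒱.Obj} {ι : Type} [Fintype ι] [DecidableEq ι]
  (e : Basis ι W.K (W.H X)) {dg : ι → ℕ} (he : ∀ j, e j ∈ W.gr X (dg j)) {Γ : Type w} [Group Γ]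
  {G : GaloisAction W Γ} (i : ℕ)

/-- Linear maps which agree on the elements of the basis of degree `i` agree on the classes of
degree `i`. -/
lemma ext_grW (he : ∀ j, e j ∈ W.gr X (dg j)) {i : ℕ} {M : Type*} [AddCommGroup M]
    [Module W.K M] {F G : W.H X →ₗ[W.K] M} (h : ∀ j : {j // dg j = i}, F (gs e dg i j) =
      G (gs e dg i j)) {x : W.H X} (hx : x ∈ W.gr X i) : F x = G x := by
  rw [← e.sum_repr x, map_sum, map_sum]
  refine Finset.sum_congr rfl fun a _ => ?_
  rw [map_smul, map_smul]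
  by_cases ha : dg a = i
  · have h1 : F (e a) = G (e a) := h ⟨a, ha⟩
    rw [h1]
  · rw [repr_zero e he hx ha, zero_smul, zero_smul]

lemma cl_eq {n : ℕ} (f : Fin n → (Z ⟶ X)) (t : (Fin n → {j : ι // dg j = i}) → W.K) :
    cl e i f t = clK (gs e dg i) f t := cl_sum e i f t

/-- The virtually invariant tensors are the tensors of the Tate classes. -/
lemma TKd_eq (n : ℕ) : TK (Rd G e he i) n = crK (gs e dg i) (tatePred G).sys n := by
  cases n with
  | zero =>
    apply le_antisymm
    · intro t _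
      exact mem_crK_zero _ t
    · intro t _
      refine ⟨⊤, inferInstance, fun g _ I => ?_⟩
      rw [Fintype.sum_unique, cE, Finset.univ_eq_empty, Finset.sum_empty, if_pos (by decide),
        Finset.prod_empty, Nat.zero_div, pow_zero, one_mul, one_mul]
      exact congrArg t (Subsingleton.elim _ _)
  | succ m =>
    ext t
    rw [mem_TK_deg, mem_crK_succ, cl_eq]

lemma Rd_a (j : {j : ι // dg j = i}) : (Rd G e he i).a j = i := j.2

lemma Rd_sum {n : ℕ} (I : Fin n → {j : ι // dg j = i}) :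
    ∑ k, (Rd G e he i).a (I k) = n * i := by
  simp [Rd_a]

variable (l : W.H X)

/-- The form given by the class `l`. -/
noncomputable def Ql (dg : ι → ℕ) : Matrix {j : ι // dg j = i} {j : ι // dg j = i} W.K :=
  Matrix.of fun a b => W.tr X (l * gs e dg i a * gs e dg i b)

lemma Ql_apply (a b : {j : ι // dg j = i}) :
    Ql e i l dg a b = W.tr X (l * gs e dg i a * gs e dg i b) := rfl

variable {l} (hl : l ∈ W.gr X (2 * (X.dim - i))) (hi : i ≤ X.dim)

include he in
lemma gs_PHW (a : {j : ι // dg j = i}) : gs e dg i a ∈ PH W X i := PH.of (gs_mem e he i a)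

include hl in
lemma l_PH : l ∈ PH W X 0 := PH.of' (by omega) hl

include he hl in
lemma Ql_symm (a b : {j : ι // dg j = i}) : Ql e i l dg b a = Ql e i l dg a b * (-1) ^ i := by
  rw [Ql_apply, Ql_apply, mul_assoc, mul_assoc, PH.comm (gs_PHW e he i b) (gs_PHW e he i a),
    mul_smul_comm, map_smul, smul_eq_mul, mul_comm]
  congr 1
  rcases Nat.even_or_odd i with h | h
  · rw [h.neg_one_pow, (h.mul_left i).neg_one_pow]
  · rw [h.neg_one_pow, (h.mul h).neg_one_pow]

include he hl hi in
/-- The form is nondegenerate if multiplication by `l` is injective in degree `i`. -/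
lemma Ql_det (hinj : ∀ x ∈ W.gr X i, l * x = 0 → x = 0) : (Ql e i l dg).det ≠ 0 := by
  intro h0
  obtain ⟨v, hv, hv0⟩ := Matrix.exists_vecMul_eq_zero_iff.2 h0
  apply hv
  have hx : ∑ a, v a • gs e dg i a ∈ W.gr X i :=
    Submodule.sum_mem _ fun a _ => Submodule.smul_mem _ _ (gs_mem e he i a)
  set x := ∑ a, v a • gs e dg i a with hxd
  have h1 : ∀ j, W.tr X (l * x * e j) = 0 := by
    intro j
    by_cases hj : dg j = i
    · have h2 := congrFun hv0 ⟨j, hj⟩
      rw [Matrix.vecMul, dotProduct, Pi.zero_apply] at h2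
      rw [← h2, hxd, Finset.mul_sum, Finset.sum_mul, map_sum]
      refine Finset.sum_congr rfl fun a _ => ?_
      rw [mul_smul_comm, smul_mul_assoc, map_smul, smul_eq_mul]
      rfl
    · refine W.tr_eq_zero (W.mul_mem (W.mul_mem hl hx) (he j)) ?_
      omega
  have h2 : l * x = 0 := by
    set y := l * x with hy
    have h3 : Matrix.vecMul (fun a => e.repr y a) (QW e) = 0 := by
      funext j
      rw [Matrix.vecMul, dotProduct, Pi.zero_apply, ← h1 j]
      conv_rhs => rw [← e.sum_repr y]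
      rw [Finset.sum_mul, map_sum]
      refine Finset.sum_congr rfl fun a _ => ?_
      rw [smul_mul_assoc, map_smul, smul_eq_mul]
      rfl
    have h4 : (QW e).det ≠ 0 := QW_det e (algSys W) fun j => PH.of (he j)
    have h5 : (fun a => e.repr y a) = 0 := by
      by_contra hne
      exact h4 (Matrix.exists_vecMul_eq_zero_iff.1 ⟨_, hne, h3⟩)
    rw [← e.sum_repr y]
    refine Finset.sum_eq_zero fun a _ => ?_
    have h6 : e.repr y a = 0 := congrFun h5 a
    rw [h6, zero_smul]
  have h3 := hinj x hx h2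
  funext a
  have h4 := congrArg (fun y => e.repr y a.1) h3
  beta_reduce at h4
  rw [hxd, map_sum, Finsupp.coe_finsetSum, Finset.sum_apply, Finset.sum_eq_single a, map_smul,
    Finsupp.smul_apply, gs, Basis.repr_self, Finsupp.single_eq_same, smul_eq_mul, mul_one,
    map_zero, Finsupp.zero_apply] at h4
  · exact h4
  · intro a' _ ha'
    rw [map_smul, Finsupp.smul_apply, gs, Basis.repr_self, Finsupp.single_eq_of_ne, smul_zero]
    exact fun h => ha' (Subtype.ext h.symm)
  · intro h
    exact absurd (Finset.mem_univ _) h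

/-- The subgroup which fixes the class `l` up to the twist. -/
lemma exists_fix (hl : l ∈ W.gr X (2 * (X.dim - i))) (hla : l ∈ (algSys W).C X) :
    ∃ Δ : Subgroup (G.ρ X).dom, Δ.FiniteIndex ∧
      ∀ g ∈ Δ, (G.ρ X).act (g : Γ) l = (G.χ (g : Γ) : W.K) ^ (X.dim - i) • l := by
  have h1 : l ∈ (tatePred G).sys.C X := ClassPred.alg_le (Q := tatePred G) hla
  have h2 := ClassPred.sp_proj (Q := tatePred G) h1 (X.dim - i)
  rw [proj_same _ hl] at h2
  obtain ⟨-, Δ, hΔ, h⟩ := h2
  refine ⟨Δ.subgroupOf (G.ρ X).dom, inferInstance, fun g hg => ?_⟩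
  exact h g.1 hg g.2

include hl hi in
/-- The form is preserved by this subgroup. -/
lemma pres_Ql (hinj : ∀ x ∈ W.gr X i, l * x = 0 → x = 0) {Δ : Subgroup (G.ρ X).dom}
    (hΔ : ∀ g ∈ Δ, (G.ρ X).act (g : Γ) l = (G.χ (g : Γ) : W.K) ^ (X.dim - i) • l) :
    KPres (resR (Rd G e he i) Δ) (Ql e i l dg) i where
  det := Ql_det e he i hl hi hinj
  inv g := by
    ext a b
    have hχ : (G.χ (g.1 : Γ) : W.K) ≠ 0 := Units.ne_zero _
    -- the action on the basis elements
    have hact : ∀ a : {j : ι // dg j = i}, (G.ρ X).act (g.1 : Γ) (gs e dg i a) =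
        ∑ c : {j : ι // dg j = i}, (Rd G e he i).A g.1 c a • gs e dg i c := by
      intro a
      rw [gs, act_e, Pool.Agent.Q60.AB.sum_sub (fun j => dg j = i) fun c hc => by
        have h1 := toM_blk (G := G) e he i g.1 c a.1 hc a.2
        have h2 : Am G e g.1 c a.1 = 0 := h1
        rw [h2, zero_smul]]
      rfl
    have h1 : (((resR (Rd G e he i) Δ).A g)ᵀ * Ql e i l dg * (resR (Rd G e he i) Δ).A g) a b =
        W.tr X (l * (G.ρ X).act (g.1 : Γ) (gs e dg i a) * (G.ρ X).act (g.1 : Γ) (gs e dg i b)) := by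
      rw [hact, hact, mul_assoc l, Finset.sum_mul_sum, Finset.mul_sum, map_sum, Matrix.mul_apply]
      simp only [Matrix.mul_apply, Finset.sum_mul, Finset.mul_sum, map_sum]
      rw [Finset.sum_comm]
      refine Finset.sum_congr rfl fun c _ => Finset.sum_congr rfl fun d _ => ?_
      rw [transpose_apply, Ql_apply, smul_mul_smul_comm, mul_smul_comm, map_smul, smul_eq_mul,
        ← mul_assoc]
      change (Rd G e he i).A g.1 c a * _ * (Rd G e he i).A g.1 d b = _
      ring
    rw [h1, Matrix.smul_apply, smul_eq_mul, Ql_apply]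
    have h2 := hΔ g.1 g.2
    have h3 : l = ((G.χ (g.1 : Γ) : W.K) ^ (X.dim - i))⁻¹ • (G.ρ X).act (g.1 : Γ) l := by
      rw [h2, smul_smul, inv_mul_cancel₀ (pow_ne_zero _ hχ), one_smul]
    have h4 : W.tr X (l * (G.ρ X).act (g.1 : Γ) (gs e dg i a) *
        (G.ρ X).act (g.1 : Γ) (gs e dg i b)) = ((G.χ (g.1 : Γ) : W.K) ^ (X.dim - i))⁻¹ *
          W.tr X ((G.ρ X).act (g.1 : Γ) (l * gs e dg i a * gs e dg i b)) := by
      conv_lhs => rw [h3]
      rw [smul_mul_assoc, smul_mul_assoc, map_smul, smul_eq_mul,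
        map_mul ((G.ρ X).act (g.1 : Γ)), map_mul ((G.ρ X).act (g.1 : Γ))]
    rw [h4, (G.isGalois X).tr_act g.1 g.1.2, ← mul_assoc]
    congr 1
    change _ = (G.χ (g.1 : Γ) : W.K) ^ i
    have h5 : X.dim = (X.dim - i) + i := by omega
    have h6 : (G.χ (g.1 : Γ) : W.K) ^ X.dim =
        (G.χ (g.1 : Γ) : W.K) ^ (X.dim - i) * (G.χ (g.1 : Γ) : W.K) ^ i := by
      rw [← pow_add, ← h5]
    rw [h6, ← mul_assoc, inv_mul_cancel₀ (pow_ne_zero _ hχ), one_mul]
  deg a b h := by
    exfalso
    apply h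
    change (Rd G e he i).a a + (Rd G e he i).a b = 2 * i
    rw [Rd_a, Rd_a]
    ring
  symm a b := by
    change Ql e i l dg b a = Ql e i l dg a b * (-1) ^ (Rd G e he i).a b
    rw [Rd_a]
    exact Ql_symm e he i hl a b

end Pool.Agent.Q60.MV
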