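import Pool.Agent.Q60.TP.KMain
import Pool.Agent.Q60.FI.Hdg
import Pool.Agent.Q60.MT.AllTK

/-!
# Infinitesimal stabilisers of the tensors of degree four
-/

set_option linter.unusedSectionVars false

namespace Pool.Agent.Q60.MV

open Module Matrix Pool.Agent.Q60.ED Pool.Agent.Q60.NP Pool.Agent.Q60.TD Pool.Agent.Q60.FI
  Pool.Agent.Q60.TP
open Pool.Agent.Q55.Ke (Aut mem_Aut om)

section alg

variable {K : Type} [Field K] {ι : Type} [Fintype ι] [DecidableEq ι]

lemma aop_tmul (x : Matrix ι ι K) {m n : ℕ} (s : (Fin m → ι) → K) (t : (Fin n → ι) → K) :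
    aop x (tmul s t) = tmul (aop x s) t + tmul s (aop x t) := by
  funext L
  obtain ⟨I, J, rfl⟩ : ∃ (I : Fin m → ι) (J : Fin n → ι), L = Fin.append I J :=
    ⟨fun k => L (Fin.castAdd n k), fun k => L (Fin.natAdd m k),
      (Fin.append_castAdd_natAdd (f := L)).symm⟩
  rw [aop_apply, Fin.sum_univ_add, Pi.add_apply]
  simp only [tmul, Fin.append_left, Fin.append_right]
  congr 1
  · rw [aop_apply, Finset.sum_mul]
    refine Finset.sum_congr rfl fun k _ => ?_
    rw [Finset.sum_mul]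
    refine Finset.sum_congr rfl fun j _ => ?_
    rw [mul_assoc]
    congr 2
    · congr 1
      funext l
      rw [Function.update_apply, Function.update_apply]
      by_cases h : l = k
      · rw [if_pos h, if_pos (by rw [h])]
      · rw [if_neg h, if_neg (fun h' => h (Fin.castAdd_injective m n h')), Fin.append_left]
    · congr 1
      funext l
      rw [Function.update_apply, if_neg, Fin.append_right]
      intro h
      have := congrArg Fin.val h
      simp only [Fin.val_natAdd, Fin.val_castAdd] at this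
      omega
  · rw [aop_apply, Finset.mul_sum]
    refine Finset.sum_congr rfl fun k _ => ?_
    rw [Finset.mul_sum]
    refine Finset.sum_congr rfl fun j _ => ?_
    rw [mul_left_comm]
    congr 2
    · congr 1
      funext l
      rw [Function.update_apply, if_neg, Fin.append_left]
      intro h
      have := congrArg Fin.val h
      simp only [Fin.val_natAdd, Fin.val_castAdd] at this
      omega
    · congr 1
      funext l
      rw [Function.update_apply, Function.update_apply]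
      by_cases h : l = k
      · rw [if_pos h, if_pos (by rw [h])]
      · rw [if_neg h, if_neg (fun h' => h (Fin.natAdd_injective n m h')), Fin.append_right]

/-- A matrix which annihilates the square of a tensor annihilates the tensor. -/
lemma aop_of_sq [CharZero K] (x : Matrix ι ι K) {n : ℕ} (s : (Fin n → ι) → K)
    (h : aop x (tmul s s) = 0) : aop x s = 0 := by
  by_contra hne
  obtain ⟨I, hI⟩ := Function.ne_iff.1 hne
  have key : ∀ J, aop x s I * s J + s I * aop x s J = 0 := by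
    intro J
    have h1 := congrFun h (Fin.append I J)
    rw [aop_tmul, Pi.add_apply] at h1
    simpa only [tmul, Fin.append_left, Fin.append_right, Pi.zero_apply] using h1
  have h2 := key I
  have h3 : s I = 0 := by
    have h4 : (2 : K) * (aop x s I * s I) = 0 := by linear_combination h2
    rcases mul_eq_zero.1 h4 with h5 | h5
    · exact absurd h5 two_ne_zero
    · exact (mul_eq_zero.1 h5).resolve_left hI
  have h5 : s = 0 := by
    funext J
    have h6 := key J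
    rw [h3, zero_mul, add_zero] at h6
    exact (mul_eq_zero.1 h6).resolve_left hI
  apply hne
  rw [h5, aop_zeroL]

end alg

section lie

variable {L : Type} [Field L] {ι : Type} [Fintype ι] [DecidableEq ι] {Q : Matrix ι ι L}

/-- **The infinitesimal stabiliser is determined in degrees two and four.** -/
theorem lie_mem' (hQ : Q.det ≠ 0) {C : CSys Q} {𝔤 : Submodule L (Matrix ι ι L)}
    {P : Matrix (Fin 2 → ι) (Fin 2 → ι) L} (hPC : P ∈ C.opAlg hQ)
    (hLC : ∀ B ∈ 𝔤, ∀ m, ∀ s ∈ C.S m, aop B s = 0)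
    (hP1 : ∀ A, ∃ B ∈ 𝔤, P.mulVec (tv Q A) = tv Q B)
    (hP2 : ∀ A ∈ 𝔤, P.mulVec (tv Q A) = tv Q A)
    (hconn : ∀ c : Matrix ι ι L, (∀ B ∈ 𝔤, B * c = c * B) →
      (∀ s ∈ C.S 2, aop c s = 0) → tv Q c ∈ C.S 2)
    (hcen : ∀ c : Matrix ι ι L, tv Q c ∈ C.S 2 → (∀ a, tv Q a ∈ C.S 2 → a * c = c * a) →
      (∀ s ∈ C.S 2, aop c s = 0) → c = 0)
    {x : Matrix ι ι L} (hx2 : ∀ s ∈ C.S 2, aop x s = 0) (hx4 : ∀ s ∈ C.S 4, aop x s = 0) :
    x ∈ 𝔤 := by
  obtain ⟨x', hx', hPx⟩ := hP1 x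
  -- the commutators with the Lie algebra
  have hcom : ∀ B ∈ 𝔤, B * x' - x' * B = B * x - x * B := by
    intro B hB
    have hB2 := hLC B hB 2
    have e1 : (am x 2 * P).mulVec (tv Q B) = (P * am x 2).mulVec (tv Q B) := by
      rw [am_comm hQ hx4 hPC]
    rw [← Matrix.mulVec_mulVec, ← Matrix.mulVec_mulVec, hP2 B hB, am_mulVec, aop_tv hx2] at e1
    have e2 : (am B 2 * P).mulVec (tv Q x) = (P * am B 2).mulVec (tv Q x) := by
      rw [am_comm hQ (hLC B hB 4) hPC]
    rw [← Matrix.mulVec_mulVec, ← Matrix.mulVec_mulVec, hPx, am_mulVec, am_mulVec, aop_tv hB2,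
      aop_tv hB2] at e2
    have e3 : tv Q (B * x - x * B) = (-1 : L) • tv Q (x * B - B * x) := by
      rw [tv, tv]
      funext w
      rw [Pi.smul_apply, NP.vec, NP.vec, ← Matrix.smul_apply, ← Matrix.smul_mul]
      rw [neg_one_smul, neg_sub]
    have e4 : P.mulVec (tv Q (B * x - x * B)) = tv Q (B * x - x * B) := by
      rw [e3, Matrix.mulVec_smul, ← e1]
    rw [e4] at e2
    exact tv_inj hQ e2
  set c := x - x' with hc
  have hcB : ∀ B ∈ 𝔤, B * c = c * B := by
    intro B hB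
    have h1 := hcom B hB
    rw [hc, Matrix.mul_sub, Matrix.sub_mul, sub_eq_sub_iff_add_eq_add]
    have h5 : B * x + x' * B = B * x' + x * B := by
      have := sub_eq_sub_iff_add_eq_add.1 h1
      rw [this, add_comm]
    rw [h5, add_comm]
  have hsub : ∀ m, ∀ s : (Fin m → ι) → L, aop x s = 0 → aop x' s = 0 → aop c s = 0 := by
    intro m s h5 h6
    funext I
    have h7 := congrFun h5 I
    have h8 := congrFun h6 I
    rw [aop_apply] at h7 h8 ⊢
    rw [Pi.zero_apply] at h7 h8 ⊢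
    simp only [hc, Matrix.sub_apply, sub_mul, Finset.sum_sub_distrib]
    rw [h7, h8, sub_zero]
  have hck : ∀ s ∈ C.S 2, aop c s = 0 := fun s hs => hsub 2 s (hx2 s hs) (hLC x' hx' 2 s hs)
  have hc2 := hconn c hcB hck
  have hc0 : c = 0 := by
    refine hcen c hc2 (fun a ha => ?_) hck
    have h5 := hck _ ha
    rw [aop_tv hck] at h5
    have h6 : tv Q (c * a - a * c) = tv Q 0 := by
      rw [h5]
      funext w
      simp [tv, NP.vec]
    have h7 := tv_inj hQ h6
    exact (sub_eq_zero.1 h7).symm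
  have h9 : x = x' := sub_eq_zero.1 hc0
  rw [h9]
  exact hx'

/-- **The infinitesimal stabiliser is determined in degree four.** -/
theorem lie_mem4 [CharZero L] (hQ : Q.det ≠ 0) {C : CSys Q} {𝔤 : Submodule L (Matrix ι ι L)}
    {P : Matrix (Fin 2 → ι) (Fin 2 → ι) L} (hPC : P ∈ C.opAlg hQ)
    (hLC : ∀ B ∈ 𝔤, ∀ m, ∀ s ∈ C.S m, aop B s = 0)
    (hP1 : ∀ A, ∃ B ∈ 𝔤, P.mulVec (tv Q A) = tv Q B)
    (hP2 : ∀ A ∈ 𝔤, P.mulVec (tv Q A) = tv Q A)
    (hconn : ∀ c : Matrix ι ι L, (∀ B ∈ 𝔤, B * c = c * B) →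
      (∀ s ∈ C.S 2, aop c s = 0) → tv Q c ∈ C.S 2)
    (hcen : ∀ c : Matrix ι ι L, tv Q c ∈ C.S 2 → (∀ a, tv Q a ∈ C.S 2 → a * c = c * a) →
      (∀ s ∈ C.S 2, aop c s = 0) → c = 0)
    {x : Matrix ι ι L} (hx4 : ∀ s ∈ C.S 4, aop x s = 0) : x ∈ 𝔤 :=
  lie_mem' hQ hPC hLC hP1 hP2 hconn hcen
    (fun s hs => aop_of_sq x s (hx4 _ (C.mul hs hs))) hx4

variable {G : Type*} [Group G] {R : TRep L ι G}

/-- The representation preserves the form. -/
structure Pr0 (R : TRep L ι G) (Q : Matrix ι ι L) : Prop where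
  det : Q.det ≠ 0
  aut : ∀ g, R.ρ g ∈ Aut Q

lemma Pr0.s_aut (h : Pr0 R Q) : diagonal R.s ∈ Aut Q := by
  rw [← R.ρz]
  exact h.aut _

/-- The system of the virtually invariant tensors. -/
noncomputable def tS0 (h : Pr0 R Q) : CSys Q where
  S := R.T
  one := ⟨Pool.Agent.Q55.Ke.tpow_zero _ _, ⊤, inferInstance,
    fun g _ => Pool.Agent.Q55.Ke.tpow_zero _ _⟩
  mul := by
    rintro m n s t ⟨hs, Δ, hΔ, h1⟩ ⟨ht, Δ', hΔ', h2⟩
    refine ⟨?_, Δ ⊓ Δ', inferInstance, fun g hg => ?_⟩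
    · rw [TRep.mem_Ev] at hs ht ⊢
      rw [Pool.Agent.Q55.Ke.tpow_tmul, hs, ht]
    · rw [Pool.Agent.Q55.Ke.tpow_tmul, h1 g hg.1, h2 g hg.2]
  perm := by
    rintro n σ t ⟨ht, Δ, hΔ, h1⟩
    refine ⟨?_, Δ, hΔ, fun g hg => ?_⟩
    · rw [TRep.mem_Ev] at ht ⊢
      rw [Pool.Agent.Q55.Ke.tpow_perm, ht]
    · rw [Pool.Agent.Q55.Ke.tpow_perm, h1 g hg]
  contr := by
    rintro m n s t ⟨hs, Δ, hΔ, h1⟩ ⟨ht, Δ', hΔ', h2⟩
    refine ⟨?_, Δ ⊓ Δ', inferInstance, fun g hg => ?_⟩
    · rw [TRep.mem_Ev] at hs ht ⊢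
      have h3 := Pool.Agent.Q55.Ke.tpow_ctr h.det h.s_aut s t
      rw [hs, ht] at h3
      exact h3
    · have h3 := Pool.Agent.Q55.Ke.tpow_ctr h.det (h.aut g) s t
      rw [h1 g hg.1, h2 g hg.2] at h3
      exact h3
  om := ⟨(Pool.Agent.Q55.Ke.Aut_om h.det).1 h.s_aut, ⊤, inferInstance,
    fun g _ => (Pool.Agent.Q55.Ke.Aut_om h.det).1 (h.aut g)⟩

/-- A matrix which commutes with the group gives an invariant tensor. -/
lemma mem_T_of_comm0 (h : Pr0 R Q) {j i : ℕ} {M : Matrix (Fin j → ι) (Fin i → ι) L}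
    {Δ : Subgroup G} (hΔ : Δ.FiniteIndex)
    (hM : ∀ g ∈ Δ, TP (R.ρ g) j * M = M * TP (R.ρ g) i)
    (hs : TP (diagonal R.s) j * M = M * TP (diagonal R.s) i) :
    tenM (M * TP Q⁻¹ i) ∈ R.T (j + i) := by
  have hQ' : (Q⁻¹).det ≠ 0 :=
    (Matrix.isUnit_nonsing_inv_det _ (isUnit_iff_ne_zero.2 h.det)).ne_zero
  refine ⟨?_, Δ, hΔ, fun g hg => ?_⟩
  · rw [TRep.mem_Ev]
    exact (inv_iff (Pool.Agent.Q55.Ke.det_Aut h.det h.s_aut) hQ'
      ((Pool.Agent.Q55.Ke.Aut_dual h.det).1 h.s_aut) _).2 hs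
  · exact (inv_iff (Pool.Agent.Q55.Ke.det_Aut h.det (h.aut g)) hQ'
      ((Pool.Agent.Q55.Ke.Aut_dual h.det).1 (h.aut g)) _).2 (hM g hg)

/-- **The projection onto the Lie algebra.** -/
theorem exists_PG0 [CharZero L] (h : Pr0 R Q) (hss : SSon (Op (R.ρn 2) ⊤) (R.Ev 2)) :
    ∃ P : Matrix (Fin 2 → ι) (Fin 2 → ι) L, tenM (P * TP Q⁻¹ 2) ∈ R.T (2 + 2) ∧
      (∀ A, ∃ B ∈ LieG R.ρ, P.mulVec (tv Q A) = tv Q B) ∧
      ∀ A ∈ LieG R.ρ, P.mulVec (tv Q A) = tv Q A := by
  classical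
  have hev : ∀ A ∈ LieG R.ρ, tv Q A ∈ R.Ev 2 := by
    intro A hA
    rw [TRep.mem_Ev, tpow_tv h.det h.s_aut TRep.s_mul, ← lie_s hA, Matrix.mul_assoc, TRep.s_mul,
      Matrix.mul_one]
  let W : Submodule L ((Fin 2 → ι) → L) := (LieG R.ρ).map (tvL Q)
  have hWE : W ≤ R.Ev 2 := by
    rintro _ ⟨A, hA, rfl⟩
    exact hev A hA
  have hWs : Stab (Op (R.ρn 2) ⊤) W := by
    rw [stab_op]
    rintro g _ _ ⟨A, hA, rfl⟩
    refine ⟨_, lie_conjG hA g, ?_⟩
    change tv Q _ = tpow (R.ρ g) 2 (tv Q A)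
    rw [tpow_tv h.det (h.aut g) (g' := R.ρ g⁻¹) (by rw [← map_mul, mul_inv_cancel, map_one])]
  obtain ⟨p, hp1, hp2, hp3⟩ := (ss_iff (TRep.ev_stab 2)).1 hss W hWE hWs
  let ε : ((Fin 2 → ι) → L) →ₗ[L] ((Fin 2 → ι) → L) :=
    (2 : L)⁻¹ • (LinearMap.id + tpow (diagonal R.s) 2)
  have hε : ∀ v, ε v = (2 : L)⁻¹ • (v + tpow (diagonal R.s) 2 v) := fun v => rfl
  have hss2 : ∀ v : (Fin 2 → ι) → L, tpow (diagonal R.s) 2 (tpow (diagonal R.s) 2 v) = v := by
    intro v
    rw [← tpow_mul, TRep.s_mul, tpow_one]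
  have hεE : ∀ v, ε v ∈ R.Ev 2 := by
    intro v
    rw [TRep.mem_Ev, hε, map_smul, map_add, hss2, add_comm]
  have hε1 : ∀ v ∈ R.Ev 2, ε v = v := by
    intro v hv
    rw [hε, TRep.mem_Ev.1 hv, ← two_smul L, smul_smul, inv_mul_cancel₀ two_ne_zero, one_smul]
  have hεg : ∀ g v, ε (tpow (R.ρ g) 2 v) = tpow (R.ρ g) 2 (ε v) := by
    intro g v
    rw [hε, hε, map_smul, map_add, ← tpow_mul, ← R.cent, tpow_mul]
  have hεs : ∀ v, ε (tpow (diagonal R.s) 2 v) = ε v := by
    intro v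
    rw [hε, hε, hss2, add_comm]
  set M : Matrix (Fin 2 → ι) (Fin 2 → ι) L := LinearMap.toMatrix' (p ∘ₗ ε) with hM
  have hMv : ∀ v, M *ᵥ v = p (ε v) := fun v => by
    rw [hM, ← Matrix.toLin'_apply, Matrix.toLin'_toMatrix']
    rfl
  have hext : ∀ A B : Matrix (Fin 2 → ι) (Fin 2 → ι) L, (∀ v, A *ᵥ v = B *ᵥ v) → A = B := by
    intro A B hAB
    apply Matrix.toLin'.injective
    exact LinearMap.ext fun v => by
      rw [Matrix.toLin'_apply, Matrix.toLin'_apply]
      exact hAB v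
  have hcomm : ∀ g, TP (R.ρ g) 2 * M = M * TP (R.ρ g) 2 := by
    intro g
    apply hext
    intro v
    rw [← Matrix.mulVec_mulVec, ← Matrix.mulVec_mulVec, ← tpow_eq, ← tpow_eq, hMv, hMv, hεg]
    exact (hp3 _ ⟨g, Subgroup.mem_top g, rfl⟩ _ (hεE v)).symm
  have hcomms : TP (diagonal R.s) 2 * M = M * TP (diagonal R.s) 2 := by
    apply hext
    intro v
    rw [← Matrix.mulVec_mulVec, ← Matrix.mulVec_mulVec, ← tpow_eq, ← tpow_eq, hMv, hMv, hεs]
    exact TRep.mem_Ev.1 (hWE (hp2 _ (hεE v)))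
  refine ⟨M, mem_T_of_comm0 h (inferInstance : (⊤ : Subgroup G).FiniteIndex)
    (fun g _ => hcomm g) hcomms, fun A => ?_, fun A hA => ?_⟩
  · rw [hMv]
    obtain ⟨B, hB, hB'⟩ := hp2 _ (hεE (tv Q A))
    exact ⟨B, hB, hB'.symm⟩
  · rw [hMv, hε1 _ (hev A hA)]
    exact hp1 _ ⟨A, hA, rfl⟩

/-- **The Lie algebra of the group is the infinitesimal stabiliser of the virtually invariant
tensors of degree four.** -/
theorem lie_of_kill4 [IsAlgClosed L] [CharZero L] (h : Pr0 R Q)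
    (hss : SSon (Op (R.ρn 2) ⊤) (R.Ev 2))
    (hcen : ∀ c : Matrix ι ι L, tv Q c ∈ R.T 2 → (∀ a, tv Q a ∈ R.T 2 → a * c = c * a) →
      (∀ s ∈ R.T 2, aop c s = 0) → c = 0)
    {x : Matrix ι ι L} (hx : ∀ s ∈ R.T 4, aop x s = 0) : x ∈ LieG R.ρ := by
  obtain ⟨P, hP, hP1, hP2⟩ := exists_PG0 h hss
  have hPC : P ∈ (tS0 h).opAlg h.det := by
    rw [CSys.mem_opAlg, CSys.mem_M_iff]
    exact hP
  refine lie_mem4 h.det hPC (fun B hB m s hs => lie_T hs hB) hP1 hP2 ?_ hcen hx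
  intro c hc hk2
  change tv Q c ∈ R.T 2
  -- the matrix commutes with the signs
  have hs2 : tv Q (diagonal R.s) ∈ R.T 2 := by
    refine ⟨?_, ⊤, inferInstance, fun g _ => ?_⟩
    · rw [TRep.mem_Ev, tpow_tv h.det h.s_aut TRep.s_mul, TRep.s_mul, Matrix.one_mul]
    · rw [tpow_tv h.det (h.aut g) (g' := R.ρ g⁻¹) (by rw [← map_mul, mul_inv_cancel, map_one]),
        R.cent, Matrix.mul_assoc, ← map_mul, mul_inv_cancel, map_one, Matrix.mul_one]
  have hcs : c * diagonal R.s = diagonal R.s * c := by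
    have h1 := hk2 _ hs2
    rw [aop_tv hk2] at h1
    have h2 : tv Q (c * diagonal R.s - diagonal R.s * c) = tv Q 0 := by
      rw [h1]
      funext w
      simp [tv, NP.vec]
    exact sub_eq_zero.1 (tv_inj h.det h2)
  refine T_of_lie ?_ fun A hA => ?_
  · rw [TRep.mem_Ev, tpow_tv h.det h.s_aut TRep.s_mul, ← hcs, Matrix.mul_assoc, TRep.s_mul,
      Matrix.mul_one]
  · rw [aop_tv (C := tS0 h) (fun s hs => lie_T hs hA), hc A hA, sub_self]
    funext w
    simp [tv, NP.vec]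

end lie

section kk

variable {K : Type} [Field K] [CharZero K] {ι : Type} [Fintype ι] [DecidableEq ι] {Γ : Type*}
  [Group Γ]

/-- The tensor of the inverse form is invariant, up to the twist. -/
structure KPr0 (R : MRep K ι Γ) (Q : Matrix ι ι K) : Prop where
  det : Q.det ≠ 0
  om : ∀ g I, ∑ J, cE R I J g * om Q J = om Q I

variable {R : MRep K ι Γ} {Q : Matrix ι ι K} {L : Type} [Field L] [Algebra K L]
  [IsAlgClosed L] {b dX : ℕ} (hM : R.M ≤ 2 * dX)

lemma bc_om : bc L (om Q) = om (Q.map (algebraMap K L)) := by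
  funext w
  rw [bc, Pool.Agent.Q55.Ke.om, Pool.Agent.Q55.Ke.om, map_inv_mat Q L]
  rfl

include hM in
/-- The form over the algebraic closure. -/
lemma KPr0.pres (h : KPr0 R Q) : Pr0 (toT (b := b) R L hM) (Q.map (algebraMap K L)) := by
  have hd : (Q.map (algebraMap K L)).det ≠ 0 := by
    have h3 : (Q.map (algebraMap K L)).det = algebraMap K L Q.det :=
      ((algebraMap K L).map_det _).symm
    rw [h3]
    exact (map_ne_zero _).2 h.det
  refine ⟨hd, fun x => ?_⟩
  change rr R L x ∈ Aut _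
  rw [Pool.Agent.Q55.Ke.Aut_om hd, ← bc_om]
  have h1 : Pool.Agent.Q55.Ke.om Q ∈ TK R 2 := ⟨⊤, inferInstance, fun g _ I => h.om g I⟩
  have h2 := (bc_T (L := L) (b := b) hM h1).1
  funext I
  rw [tpow_rr hM h2]
  have h3 := congrArg (algebraMap K L) (h.om x.1.1 I)
  rw [map_sum] at h3
  change _ = algebraMap K L (Pool.Agent.Q55.Ke.om Q I)
  rw [← h3]
  exact Finset.sum_congr rfl fun J _ => (map_mul _ _ _).symm

/-- The infinitesimal stabiliser is determined in degree four. -/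
theorem kkey4 (h : KPr0 R Q)
    (hss : ∀ w, Even w → SSon (MO (NK R 2)) (grw R K 2 w))
    (hcen : ∀ c : Matrix ι ι K, tv Q c ∈ TK R 2 → (∀ a, tv Q a ∈ TK R 2 → a * c = c * a) →
      (∀ s ∈ TK R 2, aop c s = 0) → c = 0)
    {A : Matrix ι ι K} (hA : ∀ s ∈ TK R 4, aop A s = 0) {n : ℕ}
    {t : (Fin n → ι) → K} (ht : t ∈ TK R n) : aop A t = 0 := by
  let L := AlgebraicClosure K
  have : CharZero L := charZero_of_injective_algebraMap (algebraMap K L).injective
  have hM : R.M ≤ 2 * R.M := by omega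
  have h1 := lie_of_kill4 (R := toT (b := 0) R L hM) (h.pres hM)
    (ss_even (L := L) (b := 0) hM hss) (cenL (L := L) (b := 0) hM hcen)
    (x := A.map (algebraMap K L)) (fun s hs =>
      aop_bcS hA (T_le (L := L) (b := 0) hM le_rfl hs))
  have h2 := lie_T (bc_T (L := L) (b := 0) hM ht) h1
  rw [aop_bc] at h2
  apply bc_inj (L := L)
  rw [h2]
  funext I
  exact (map_zero _).symm

/-- Even tensors whose square is virtually invariant are virtually invariant. -/
lemma TK_of_sq {n : ℕ} {t : (Fin n → ι) → K} (he : ∀ I, ¬ Even (∑ k, R.a (I k)) → t I = 0)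
    (h : tmul t t ∈ TK R (n + n)) : t ∈ TK R n := by
  let L := AlgebraicClosure K
  have : CharZero L := charZero_of_injective_algebraMap (algebraMap K L).injective
  have hM : R.M ≤ 2 * R.M := by omega
  have h1 := bc_T (L := L) (b := 0) hM h
  have h2 : bc L t ∈ (toT (b := 0) R L hM).T n := by
    refine T_of_lie ?_ fun A hA => ?_
    · change tpow (diagonal (sg R L)) n (bc L t) = bc L t
      rw [tpow_diag]
      funext I
      simp only [sg]
      rw [Finset.prod_pow_eq_pow_sum]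
      by_cases hI : Even (∑ k, R.a (I k))
      · rw [hI.neg_one_pow, one_mul]
      · have h3 : bc L t I = 0 := by
          rw [bc, he I hI, map_zero]
        rw [h3, mul_zero]
    · have h3 := lie_T h1 hA
      rw [← Pool.Agent.Q60.TP.tmul_bc] at h3
      exact aop_of_sq A _ h3
  exact of_bc_mem (L := L) (T_le hM le_rfl h2)

/-- Even tensors which are annihilated, over the algebraic closure, by the matrices which annihilate
the virtually invariant tensors of degree four are virtually invariant. -/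
lemma TK_of_kill {m n : ℕ} {t : (Fin n → ι) → K}
    (he : ∀ I, ¬ Even (∑ k, R.a (I k)) → t I = 0)
    (h : ∀ A : Matrix ι ι (AlgebraicClosure K),
      (∀ s ∈ TK R m, aop A (bc (AlgebraicClosure K) s) = 0) →
        aop A (bc (AlgebraicClosure K) t) = 0) : t ∈ TK R n := by
  let L := AlgebraicClosure K
  have : CharZero L := charZero_of_injective_algebraMap (algebraMap K L).injective
  have hM : R.M ≤ 2 * R.M := by omega
  have h2 : bc L t ∈ (toT (b := 0) R L hM).T n := by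
    refine T_of_lie ?_ fun A hA => ?_
    · change tpow (diagonal (sg R L)) n (bc L t) = bc L t
      rw [tpow_diag]
      funext I
      simp only [sg]
      rw [Finset.prod_pow_eq_pow_sum]
      by_cases hI : Even (∑ k, R.a (I k))
      · rw [hI.neg_one_pow, one_mul]
      · have h3 : bc L t I = 0 := by
          rw [bc, he I hI, map_zero]
        rw [h3, mul_zero]
    · exact h A fun s hs => lie_T (bc_T (L := L) (b := 0) hM hs) hA
  exact of_bc_mem (L := L) (T_le hM le_rfl h2)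

end kk

end Pool.Agent.Q60.MV
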